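import Pool.Agent.H71.WH.Res

/-!
# Primitive units and the decomposition into primitive classes
-/

set_option autoImplicit false
set_option linter.unusedSectionVars false
set_option linter.unusedSimpArgs false

open Matrix
open scoped Classical

universe u v w

namespace Pool.Agent.H71.WH

/-- Möbius type coefficients on a finite partially ordered set. -/
theorem exists_nu {α : Type*} [PartialOrder α] (s : Finset α) (f : α → ℤ) :
    ∃ ν : α → ℤ, ∀ E ∈ s, ∑ D ∈ s.filter (fun D => E ≤ D), ν D = f E := by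
  induction s using Finset.strongInduction with
  | H s ih =>
    by_cases hs : s.Nonempty
    · obtain ⟨E₀, hE₀⟩ := s.exists_minimal hs
      obtain ⟨ν, hν⟩ := ih (s.erase E₀) (Finset.erase_ssubset hE₀.1)
      have hmin : ∀ E ∈ s, E ≤ E₀ → E = E₀ := fun E hE hle => le_antisymm hle (hE₀.2 hE hle)
      refine ⟨fun D => if D = E₀ then f E₀ - ∑ D ∈ (s.erase E₀).filter (fun D => E₀ ≤ D), ν D
        else ν D, ?_⟩
      intro E hE
      by_cases hEE : E = E₀
      · subst hEE
        have h1 : s.filter (fun D => E ≤ D) =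
            insert E ((s.erase E).filter (fun D => E ≤ D)) := by
          ext D
          simp only [Finset.mem_filter, Finset.mem_insert, Finset.mem_erase]
          constructor
          · rintro ⟨h1, h2⟩
            by_cases h3 : D = E
            · exact Or.inl h3
            · exact Or.inr ⟨⟨h3, h1⟩, h2⟩
          · rintro (rfl | ⟨⟨_, h1⟩, h2⟩)
            · exact ⟨hE, le_rfl⟩
            · exact ⟨h1, h2⟩
        rw [h1, Finset.sum_insert (by simp), if_pos rfl]
        have h2 : ∑ D ∈ (s.erase E).filter (fun D => E ≤ D), (if D = E then f E -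
            ∑ D ∈ (s.erase E).filter (fun D => E ≤ D), ν D else ν D) =
            ∑ D ∈ (s.erase E).filter (fun D => E ≤ D), ν D := by
          apply Finset.sum_congr rfl
          intro D hD
          rw [Finset.mem_filter, Finset.mem_erase] at hD
          rw [if_neg hD.1.1]
        rw [h2]
        ring
      · have h1 : s.filter (fun D => E ≤ D) = (s.erase E₀).filter (fun D => E ≤ D) := by
          ext D
          simp only [Finset.mem_filter, Finset.mem_erase]
          constructor
          · rintro ⟨h1, h2⟩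
            refine ⟨⟨?_, h1⟩, h2⟩
            rintro rfl
            exact hEE (hmin E hE h2)
          · rintro ⟨⟨_, h1⟩, h2⟩
            exact ⟨h1, h2⟩
        rw [h1, ← hν E (Finset.mem_erase.2 ⟨hEE, hE⟩)]
        apply Finset.sum_congr rfl
        intro D hD
        rw [Finset.mem_filter, Finset.mem_erase] at hD
        exact if_neg hD.1.1
    · rw [Finset.not_nonempty_iff_eq_empty] at hs
      subst hs
      exact ⟨fun _ => 0, by simp⟩

/-- Elements with a nonzero multiple in `A`. -/
def Sat {M : Type u} [AddCommGroup M] (A : AddSubgroup M) : AddSubgroup M where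
  carrier := {z | ∃ m : ℤ, m ≠ 0 ∧ m • z ∈ A}
  zero_mem' := ⟨1, one_ne_zero, by rw [smul_zero]; exact A.zero_mem⟩
  add_mem' := by
    rintro a b ⟨m, hm, h1⟩ ⟨n, hn, h2⟩
    refine ⟨m * n, mul_ne_zero hm hn, ?_⟩
    rw [smul_add]
    refine A.add_mem ?_ ?_
    · rw [mul_comm, mul_smul]
      exact A.zsmul_mem h1 n
    · rw [mul_smul]
      exact A.zsmul_mem h2 m
  neg_mem' := by
    rintro a ⟨m, hm, h1⟩
    exact ⟨m, hm, by rw [smul_neg]; exact A.neg_mem h1⟩

theorem Sat_of_smul {M : Type u} [AddCommGroup M] {A : AddSubgroup M} {m : ℤ} (hm : m ≠ 0) {z : M}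
    (h : m • z ∈ Sat A) : z ∈ Sat A := by
  obtain ⟨n, hn, h⟩ := h
  exact ⟨n * m, mul_ne_zero hn hm, by rwa [mul_smul]⟩

theorem mem_Sat {M : Type u} [AddCommGroup M] {A : AddSubgroup M} {z : M} (h : z ∈ A) :
    z ∈ Sat A := ⟨1, one_ne_zero, by rwa [one_smul]⟩

section Hom

variable {H : Type w} [CommGroup H] [Finite H]

/-- the functional as a homomorphism -/
noncomputable def LUM (f : H → ℤ) : (MonoidAlgebra ℤ H)ˣ →* Multiplicative ℚ_[2] :=
  MonoidHom.mk' (fun x => Multiplicative.ofAdd (LU f x)) (LU_mul mul_comm f)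

theorem LU_zpow (f : H → ℤ) (x : (MonoidAlgebra ℤ H)ˣ) (n : ℤ) :
    LU f (x ^ n) = n * LU f x := by
  have h : LU f (x ^ n) = n • LU f x := map_zpow (LUM f) x n
  rw [h, zsmul_eq_mul]

theorem LU_prod (f : H → ℤ) {ι : Type*} (s : Finset ι) (x : ι → (MonoidAlgebra ℤ H)ˣ) :
    LU f (∏ i ∈ s, x i) = ∑ i ∈ s, LU f (x i) := by
  induction s using Finset.induction_on with
  | empty =>
    rw [Finset.prod_empty, Finset.sum_empty]
    exact map_one (LUM f)
  | insert a s ha ih => rw [Finset.prod_insert ha, Finset.sum_insert ha, LU_mul mul_comm, ih]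

theorem LU_zero_fun (x : (MonoidAlgebra ℤ H)ˣ) (f : H → ℤ) (hf : ∀ a, f a = 0) : LU f x = 0 := by
  have := Fintype.ofFinite H
  rw [LU_sum]
  apply Finset.sum_eq_zero
  intro c _
  rw [hf, Int.cast_zero, zero_mul]

/-- the product of the restriction and the induction -/
noncomputable def ir (E : Subgroup H) [Fintype (H ⧸ E)] (x : (MonoidAlgebra ℤ H)ˣ) :
    (MonoidAlgebra ℤ H)ˣ := unitsMap E.subtype (resU E x)

theorem LU_ir (E : Subgroup H) [Fintype (H ⧸ E)] (x : (MonoidAlgebra ℤ H)ˣ) (c : H) :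
    LU (dlt c) (ir E x) = if c ∈ E then (Nat.card (H ⧸ E) : ℚ_[2]) * LU (dlt c) x else 0 := by
  have h1 : LU (dlt c) (ir E x) = LU (fun e : E => dlt c (e : H)) (resU E x) :=
    LU_map E.subtype (dlt c) (fun a b => by rw [mul_comm]) (resU E x)
  rw [h1]
  split_ifs with hc
  · have h2 : (fun e : E => dlt c (e : H)) = dlt (⟨c, hc⟩ : E) := by
      funext e
      unfold dlt
      congr 1
      rw [Subtype.ext_iff]
    rw [h2, LU_resU]
  · apply LU_zero_fun
    intro e
    rw [dlt, if_neg]
    intro h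
    exact hc (h ▸ e.2)

end Hom

/-- Units whose logarithm is supported at the generators of the cyclic group. -/
def IsPrim {D : Type w} [Group D] (y : (MonoidAlgebra ℤ D)ˣ) : Prop :=
  ∀ c : D, Subgroup.zpowers c ≠ ⊤ → LU (dlt c) y = 0

theorem exists_prim (D : Type w) [CommGroup D] [Fintype D] :
    ∃ κ : Subgroup D → ℤ, ∀ x : (MonoidAlgebra ℤ D)ˣ,
      IsPrim (x ^ (Nat.card D : ℤ) *
        ∏ E ∈ (Finset.univ : Finset (Subgroup D)).erase ⊤, ir E x ^ (κ E * (Nat.card E : ℤ))) := by
  obtain ⟨κ, hκ⟩ := exists_nu ((Finset.univ : Finset (Subgroup D)).erase ⊤) (fun _ => -1)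
  refine ⟨κ, fun x c hc => ?_⟩
  have h0 := hκ (Subgroup.zpowers c) (Finset.mem_erase.2 ⟨hc, Finset.mem_univ _⟩)
  simp only [Subgroup.zpowers_le] at h0
  rw [LU_mul mul_comm, LU_prod, LU_zpow]
  simp only [LU_zpow, LU_ir]
  have h1 : ∀ E : Subgroup D, ((κ E * (Nat.card E : ℤ) : ℤ) : ℚ_[2]) *
      (if c ∈ E then (Nat.card (D ⧸ E) : ℚ_[2]) * LU (dlt c) x else 0) =
      ((if c ∈ E then κ E else 0 : ℤ) : ℚ_[2]) * ((Nat.card D : ℚ_[2]) * LU (dlt c) x) := by
    intro E
    split_ifs
    · have h2 : (Nat.card D : ℚ_[2]) = (Nat.card (D ⧸ E) : ℚ_[2]) * (Nat.card E : ℚ_[2]) := by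
        rw [← Nat.cast_mul, ← Subgroup.card_eq_card_quotient_mul_card_subgroup]
      rw [h2]
      push_cast
      ring
    · push_cast
      ring
  rw [Finset.sum_congr rfl (fun E _ => h1 E), ← Finset.sum_mul, ← Int.cast_sum,
    ← Finset.sum_filter, h0]
  push_cast
  ring

end Pool.Agent.H71.WH
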