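import Pool.Agent.H71.WH.GR

/-!
# The twisted trace on matrices over `ℤ[G × G]`
-/

set_option autoImplicit false
set_option linter.unusedSectionVars false

open Matrix

universe u v w

namespace Pool.Agent.H71.WH

section Emb

variable {R : Type u} [Ring R] {ι κ μ : Type*} [Fintype ι] [DecidableEq ι] [Fintype κ]
  [DecidableEq κ] [Fintype μ] [DecidableEq μ]

/-- the matrix of an injective map -/
def vm (R : Type u) [Ring R] {ι κ : Type*} [DecidableEq κ] (ε : ι ↪ κ) : Matrix κ ι R :=
  Matrix.of fun a i => if a = ε i then 1 else 0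

theorem vm_mul (ε : ι ↪ κ) : (vm R ε)ᵀ * vm R ε = 1 := by
  ext i k
  simp only [vm, Matrix.mul_apply, transpose_apply, of_apply]
  rw [Finset.sum_eq_single (ε i)]
  · rw [if_pos rfl, one_mul, Matrix.one_apply]
    simp only [EmbeddingLike.apply_eq_iff_eq]
  · intro b _ hb
    rw [if_neg hb, zero_mul]
  · intro h
    exact absurd (Finset.mem_univ _) h

/-- Extension of matrices by zero along an injective map of the index sets. -/
def emb (ε : ι ↪ κ) : Matrix ι ι R →ₙ+* Matrix κ κ R where
  toFun w := vm R ε * w * (vm R ε)ᵀ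
  map_zero' := by rw [Matrix.mul_zero, Matrix.zero_mul]
  map_add' w w' := by rw [Matrix.mul_add, Matrix.add_mul]
  map_mul' w w' := by
    calc vm R ε * (w * w') * (vm R ε)ᵀ =
        vm R ε * w * (1 : Matrix ι ι R) * w' * (vm R ε)ᵀ := by
          rw [Matrix.mul_one]; simp only [Matrix.mul_assoc]
      _ = _ := by rw [← vm_mul ε]; simp only [Matrix.mul_assoc]

theorem emb_apply (ε : ι ↪ κ) (w : Matrix ι ι R) (i k : ι) : emb ε w (ε i) (ε k) = w i k := by
  change (vm R ε * w * (vm R ε)ᵀ) (ε i) (ε k) = _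
  rw [Matrix.mul_apply, Finset.sum_eq_single k]
  · rw [Matrix.mul_apply, Finset.sum_eq_single i]
    · simp [vm]
    · intro b _ hb
      have : ε i ≠ ε b := fun h => hb (ε.injective h).symm
      simp [vm, this]
    · intro h
      exact absurd (Finset.mem_univ _) h
  · intro b _ hb
    have : ε k ≠ ε b := fun h => hb (ε.injective h).symm
    simp [vm, this]
  · intro h
    exact absurd (Finset.mem_univ _) h

theorem emb_zero_left (ε : ι ↪ κ) (w : Matrix ι ι R) {a : κ} (h : ∀ i, a ≠ ε i) (b : κ) :
    emb ε w a b = 0 := by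
  change (vm R ε * w * (vm R ε)ᵀ) a b = _
  rw [Matrix.mul_apply]
  apply Finset.sum_eq_zero
  intro k _
  rw [Matrix.mul_apply, Finset.sum_eq_zero, zero_mul]
  intro i _
  simp [vm, h i]

theorem emb_zero_right (ε : ι ↪ κ) (w : Matrix ι ι R) (a : κ) {b : κ} (h : ∀ i, b ≠ ε i) :
    emb ε w a b = 0 := by
  change (vm R ε * w * (vm R ε)ᵀ) a b = _
  rw [Matrix.mul_apply]
  apply Finset.sum_eq_zero
  intro k _
  simp [vm, h k]

/-- Matrices of the form `emb ε w` are determined by their entries. -/
theorem eq_emb (ε : ι ↪ κ) (w : Matrix ι ι R) (F : Matrix κ κ R)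
    (h1 : ∀ i k, F (ε i) (ε k) = w i k) (h2 : ∀ a b, (∀ i, a ≠ ε i) → F a b = 0)
    (h3 : ∀ a b, (∀ i, b ≠ ε i) → F a b = 0) : F = emb ε w := by
  ext a b
  by_cases ha : ∃ i, a = ε i
  · obtain ⟨i, rfl⟩ := ha
    by_cases hb : ∃ k, b = ε k
    · obtain ⟨k, rfl⟩ := hb
      rw [h1, emb_apply]
    · push Not at hb
      rw [h3 _ _ hb, emb_zero_right _ _ _ hb]
  · push Not at ha
    rw [h2 _ _ ha, emb_zero_left _ _ ha]

/-- A non-unital homomorphism extended to the units. -/
def unitExt {S : Type v} [Ring S] (J : R →ₙ+* S) : Rˣ →* Sˣ where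
  toFun u :=
    { val := J u + (1 - J 1)
      inv := J (u⁻¹ : Rˣ) + (1 - J 1)
      val_inv := by
        have he : ∀ x : R, J x * (1 - J 1) = 0 := by
          intro x
          rw [mul_sub, mul_one, ← map_mul, mul_one, sub_self]
        have he' : ∀ x : R, (1 - J 1) * J x = 0 := by
          intro x
          rw [sub_mul, one_mul, ← map_mul, one_mul, sub_self]
        rw [add_mul, mul_add, mul_add, ← map_mul, Units.mul_inv, he, he', mul_sub, mul_one,
          he' 1]
        abel
      inv_val := by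
        have he : ∀ x : R, J x * (1 - J 1) = 0 := by
          intro x
          rw [mul_sub, mul_one, ← map_mul, mul_one, sub_self]
        have he' : ∀ x : R, (1 - J 1) * J x = 0 := by
          intro x
          rw [sub_mul, one_mul, ← map_mul, one_mul, sub_self]
        rw [add_mul, mul_add, mul_add, ← map_mul, Units.inv_mul, he, he', mul_sub, mul_one,
          he' 1]
        abel }
  map_one' := by
    apply Units.ext
    change J ((1 : Rˣ) : R) + (1 - J 1) = 1
    rw [Units.val_one]
    abel
  map_mul' u w := by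
    apply Units.ext
    change J ((u * w : Rˣ) : R) + (1 - J 1) = (J u + (1 - J 1)) * (J w + (1 - J 1))
    have he : ∀ x : R, J x * (1 - J 1) = 0 := by
      intro x
      rw [mul_sub, mul_one, ← map_mul, mul_one, sub_self]
    have he' : ∀ x : R, (1 - J 1) * J x = 0 := by
      intro x
      rw [sub_mul, one_mul, ← map_mul, one_mul, sub_self]
    rw [add_mul, mul_add, mul_add, ← map_mul, Units.val_mul, he, he', mul_sub, mul_one,
      he' 1]
    abel

theorem unitExt_val {S : Type v} [Ring S] (J : R →ₙ+* S) (u : Rˣ) :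
    (unitExt J u : S) = J u + (1 - J 1) := rfl

end Emb

section Tw

variable {R : Type u} [Ring R] (t : TwTr R) (ι : Type v) [Fintype ι] [DecidableEq ι]

/-- The involution on matrices. -/
def sMat : Matrix (ι × ι) (ι × ι) R →+* Matrix (ι × ι) (ι × ι) R where
  toFun F := Matrix.of fun P Q => t.s (F P.swap Q.swap)
  map_zero' := by ext P Q; simp
  map_one' := by
    ext P Q
    rw [of_apply, Matrix.one_apply, Matrix.one_apply]
    have : P.swap = Q.swap ↔ P = Q := Prod.swap_injective.eq_iff
    simp only [this]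
    split_ifs <;> simp
  map_add' F F' := by ext P Q; simp
  map_mul' F F' := by
    ext P Q
    simp only [of_apply, Matrix.mul_apply, map_sum, map_mul]
    exact ((Equiv.prodComm ι ι).sum_comp (fun X => t.s (F P.swap X) * t.s (F' X Q.swap))).symm

theorem sMat_apply (F : Matrix (ι × ι) (ι × ι) R) (P Q : ι × ι) :
    sMat t ι F P Q = t.s (F P.swap Q.swap) := rfl

/-- The twisted trace on matrices. -/
def kMat : Matrix (ι × ι) (ι × ι) R →+ ℤ where
  toFun F := ∑ P, t.κ (F P P.swap)
  map_zero' := by simp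
  map_add' F F' := by simp [Finset.sum_add_distrib]

theorem kMat_apply (F : Matrix (ι × ι) (ι × ι) R) : kMat t ι F = ∑ P, t.κ (F P P.swap) := rfl

theorem kMat_tw (F F' : Matrix (ι × ι) (ι × ι) R) :
    kMat t ι (F * F') = kMat t ι (F' * sMat t ι F) := by
  rw [kMat_apply, kMat_apply]
  simp only [Matrix.mul_apply, map_sum, sMat_apply, Prod.swap_swap]
  rw [Finset.sum_comm]
  apply Finset.sum_congr rfl
  intro Q _
  rw [← (Equiv.prodComm ι ι).sum_comp]
  apply Finset.sum_congr rfl
  intro P _
  rw [t.tw]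
  rfl

/-- The structure on matrices. -/
def mat : TwTr (Matrix (ι × ι) (ι × ι) R) where
  s := sMat t ι
  inv F := by
    ext P Q
    rw [sMat_apply, sMat_apply, t.inv, Prod.swap_swap, Prod.swap_swap]
  κ := kMat t ι
  tw := kMat_tw t ι

/-- Matrices fixed by the involution are norms if the entries fixed by the exchange are. -/
theorem exists_half (F : Matrix (ι × ι) (ι × ι) R) (hF : (mat t ι).s F = F)
    (h : ∀ i k, ∃ x, F (i, i) (k, k) = x + t.s x) : ∃ Z, F = Z + (mat t ι).s Z := by
  classical
  let e := Fintype.equivFin ((ι × ι) × (ι × ι))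
  choose x hx using h
  let Z : Matrix (ι × ι) (ι × ι) R := Matrix.of fun P Q =>
    if e (P, Q) < e (P.swap, Q.swap) then F P Q
    else if e (P, Q) = e (P.swap, Q.swap) then x P.1 Q.1 else 0
  refine ⟨Z, ?_⟩
  ext P Q
  have hF' : t.s (F P.swap Q.swap) = F P Q := congrFun (congrFun hF P) Q
  change F P Q = Z P Q + t.s (Z P.swap Q.swap)
  simp only [Z, of_apply, Prod.swap_swap]
  rcases lt_trichotomy (e (P, Q)) (e (P.swap, Q.swap)) with h1 | h1 | h1
  · rw [if_pos h1, if_neg (not_lt.2 h1.le), if_neg h1.ne', map_zero, add_zero]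
  · rw [if_neg (by rw [h1]; exact lt_irrefl _), if_pos h1, if_neg (by rw [h1]; exact lt_irrefl _),
      if_pos h1.symm]
    have h2 := e.injective h1
    have hP : P = P.swap := congrArg Prod.fst h2
    have hQ : Q = Q.swap := congrArg Prod.snd h2
    obtain ⟨i, j⟩ := P
    obtain ⟨k, l⟩ := Q
    simp only [Prod.swap_prod_mk, Prod.mk.injEq] at hP hQ
    obtain ⟨rfl, -⟩ := hP
    obtain ⟨rfl, -⟩ := hQ
    exact hx i k
  · rw [if_neg (not_lt.2 h1.le), if_neg h1.ne', if_pos h1, zero_add, hF']

end Tw

end Pool.Agent.H71.WH
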