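import Pool.Agent.H71.WH.Formal

/-!
# The trace of the `2`-adic logarithm

For a ring `R`, a homomorphism `τ : R → ℤ` and `x ∈ 2 R` let
`tl τ x = ∑ (-1)^k τ(x^(k+1)) / (k+1)`, the value of `τ` on `log (1 + x)`. If `τ` is a trace then
`tl τ` is additive: `tl τ (x + y + x y) = tl τ x + tl τ y`.
-/

set_option autoImplicit false

open Polynomial

universe u v

namespace Pool.Agent.H71.WH

theorem norm_inv_le (k : ℕ) : ‖((k : ℚ_[2]) + 1)⁻¹‖ ≤ 2 * ((k : ℝ) + 1) := by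
  have h0 : ((k : ℚ_[2]) + 1) ≠ 0 := by exact_mod_cast Nat.succ_ne_zero k
  rw [norm_inv]
  have hlt : ((2 : ℝ) ^ (Nat.log 2 (k + 1) + 1))⁻¹ < ‖((k : ℚ_[2]) + 1)‖ := by
    by_contra hcon
    push Not at hcon
    have h1 : ‖(((k + 1 : ℕ) : ℤ) : ℚ_[2])‖ ≤ ((2 : ℕ) : ℝ) ^ (-((Nat.log 2 (k + 1) + 1 : ℕ) : ℤ)) := by
      rw [zpow_neg, zpow_natCast]
      push_cast
      exact hcon
    rw [Padic.norm_int_le_pow_iff_dvd] at h1
    have h2 : (2 ^ (Nat.log 2 (k + 1) + 1) : ℕ) ∣ (k + 1) := by exact_mod_cast h1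
    have h3 := Nat.le_of_dvd (Nat.succ_pos k) h2
    have h4 := Nat.lt_pow_succ_log_self (b := 2) (by norm_num) (k + 1)
    omega
  have hpos : (0 : ℝ) < ((2 : ℝ) ^ (Nat.log 2 (k + 1) + 1))⁻¹ := by positivity
  have h5 : ‖((k : ℚ_[2]) + 1)‖⁻¹ ≤ (2 : ℝ) ^ (Nat.log 2 (k + 1) + 1) := by
    rw [inv_le_comm₀ (lt_trans hpos hlt) (by positivity)]
    exact hlt.le
  refine h5.trans ?_
  rw [pow_succ, mul_comm]
  have h6 : 2 ^ (Nat.log 2 (k + 1)) ≤ k + 1 := Nat.pow_log_le_self 2 (Nat.succ_ne_zero k)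
  have h7 : ((2 : ℝ) ^ (Nat.log 2 (k + 1))) ≤ (k : ℝ) + 1 := by exact_mod_cast h6
  linarith

theorem norm_int_le {m : ℕ} {z : ℤ} (h : (2 ^ m : ℤ) ∣ z) : ‖(z : ℚ_[2])‖ ≤ ((2 : ℝ) ^ m)⁻¹ := by
  have := (Padic.norm_int_le_pow_iff_dvd (p := 2) z m).2 (by exact_mod_cast h)
  rw [zpow_neg, zpow_natCast] at this
  exact_mod_cast this

variable {R : Type u} [Ring R]

/-- a term of the series of the logarithm -/
noncomputable def tlTerm (τ : R →+ ℤ) (x : R) (k : ℕ) : ℚ_[2] :=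
  (-1) ^ k * (τ (x ^ (k + 1)) : ℚ_[2]) / (k + 1)

/-- `τ (log (1 + x))` -/
noncomputable def tl (τ : R →+ ℤ) (x : R) : ℚ_[2] := ∑' k, tlTerm τ x k

theorem two_pow_comm (n : ℕ) (x : R) : (2 : R) ^ n * x = x * 2 ^ n :=
  ((Commute.ofNat_left 2 x).pow_left n).eq

theorem two_mul_pow (x : R) (k : ℕ) : (2 * x) ^ k = 2 ^ k * x ^ k :=
  (Commute.ofNat_left 2 x).mul_pow k

theorem map_two_pow_mul (τ : R →+ ℤ) (n : ℕ) (x : R) : τ (2 ^ n * x) = 2 ^ n * τ x := by
  have : (2 : R) ^ n * x = (2 ^ n : ℕ) • x := by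
    rw [nsmul_eq_mul]
    push_cast
    rfl
  rw [this, map_nsmul, nsmul_eq_mul]
  push_cast
  rfl

theorem norm_term_le {z : ℤ} {m k : ℕ} (h : (2 ^ m : ℤ) ∣ z) :
    ‖(-1 : ℚ_[2]) ^ k * (z : ℚ_[2]) / (k + 1)‖ ≤ ((2 : ℝ) ^ m)⁻¹ * (2 * (k + 1)) := by
  rw [div_eq_mul_inv, norm_mul, norm_mul, norm_pow, norm_neg, norm_one, one_pow, one_mul]
  exact mul_le_mul (norm_int_le h) (norm_inv_le k) (norm_nonneg _) (by positivity)

theorem summable_aux : Summable fun k : ℕ => ((2 : ℝ) ^ (k + 1))⁻¹ * (2 * (k + 1)) := by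
  have h1 := summable_pow_mul_geometric_of_norm_lt_one (R := ℝ) 1
    (show ‖(1 / 2 : ℝ)‖ < 1 by norm_num)
  have h2 := summable_pow_mul_geometric_of_norm_lt_one (R := ℝ) 0
    (show ‖(1 / 2 : ℝ)‖ < 1 by norm_num)
  refine (h1.add h2).congr ?_
  intro k
  rw [pow_succ (2 : ℝ) k, mul_inv, one_div, inv_pow]
  ring

theorem tl_summable (τ : R →+ ℤ) (x : R) : Summable (tlTerm τ (2 * x)) := by
  refine Summable.of_norm_bounded summable_aux ?_
  intro k
  apply norm_term_le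
  rw [two_mul_pow, map_two_pow_mul]
  exact dvd_mul_right _ _

/-- the double family -/
noncomputable def dbl (τ : R →+ ℤ) (A : R[X]) (p : ℕ × ℕ) : ℚ_[2] :=
  (-1) ^ p.2 * ((2 ^ (p.1 + 1) * τ ((A ^ (p.2 + 1)).coeff (p.1 + 1)) : ℤ) : ℚ_[2]) / (p.2 + 1)

theorem dbl_zero (τ : R →+ ℤ) {A : R[X]} (h : A.coeff 0 = 0) (m k : ℕ) (hk : m < k) :
    dbl τ A (m, k) = 0 := by
  have : (A ^ (k + 1)).coeff (m + 1) = 0 := van_pow (n := k) h (m + 1) (by omega)
  simp [dbl, this]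

theorem summable_dbl (τ : R →+ ℤ) {A : R[X]} (h : A.coeff 0 = 0) : Summable (dbl τ A) := by
  have h1 : Summable fun k : ℕ => ((k : ℝ) + 1) * (3 / 4) ^ k := by
    have h1 := summable_pow_mul_geometric_of_norm_lt_one (R := ℝ) 1
      (show ‖(3 / 4 : ℝ)‖ < 1 by norm_num)
    have h2 := summable_pow_mul_geometric_of_norm_lt_one (R := ℝ) 0
      (show ‖(3 / 4 : ℝ)‖ < 1 by norm_num)
    refine (h1.add h2).congr ?_
    intro k
    ring
  have h2 : Summable fun k : ℕ => ((3 : ℝ) / 4) ^ k :=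
    summable_geometric_of_lt_one (by norm_num) (by norm_num)
  have h3 := h1.mul_of_nonneg h2 (fun k => by positivity) (fun k => by positivity)
  refine Summable.of_norm_bounded h3 ?_
  rintro ⟨m, k⟩
  by_cases hk : m < k
  · rw [dbl_zero τ h m k hk, norm_zero]
    positivity
  · push Not at hk
    have hle := norm_term_le (z := 2 ^ (m + 1) * τ ((A ^ (k + 1)).coeff (m + 1))) (m := m + 1)
      (k := k) (dvd_mul_right _ _)
    refine hle.trans ?_
    have e1 : ((2 : ℝ) ^ (m + 1))⁻¹ * (2 * (k + 1)) = (1 / 2) ^ m * (k + 1) := by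
      rw [pow_succ, mul_inv, one_div, inv_pow]
      ring
    rw [e1]
    have e2 : ((1 : ℝ) / 2) ^ m ≤ (3 / 4) ^ m * (3 / 4) ^ m := by
      rw [← mul_pow]
      exact pow_le_pow_left₀ (by norm_num) (by norm_num) m
    have e3 : ((3 : ℝ) / 4) ^ m ≤ (3 / 4) ^ k :=
      pow_le_pow_of_le_one (by norm_num) (by norm_num) hk
    have e4 : ((k : ℝ) + 1) ≤ (m : ℝ) + 1 := by
      have : (k : ℝ) ≤ m := by exact_mod_cast hk
      linarith
    calc ((1 : ℝ) / 2) ^ m * (k + 1) ≤ ((3 / 4) ^ m * (3 / 4) ^ k) * (m + 1) := by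
          apply mul_le_mul (e2.trans _) e4 (by positivity) (by positivity)
          exact mul_le_mul_of_nonneg_left e3 (by positivity)
      _ = ((m : ℝ) + 1) * (3 / 4) ^ m * (3 / 4) ^ k := by ring

/-- evaluation at the central element `2` -/
noncomputable def ev (R : Type u) [Ring R] : R[X] →+* R :=
  eval₂RingHom' (RingHom.id R) (2 : R) (fun a => (Commute.ofNat_right a 2))

theorem ev_mul_pow (z : R) (j : ℕ) : ev R (C z * X ^ j) = z * 2 ^ j := by
  change eval₂ (RingHom.id R) 2 (C z * X ^ j) = _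
  rw [eval₂_mul_noncomm _ _ (fun k => Commute.ofNat_right _ 2), eval₂_C, eval₂_X_pow]
  rfl

/-- the polynomial of the formal identity -/
noncomputable def poly (x y : R) : R[X] := C x * X + C y * X + C (x * y) * X ^ 2

theorem poly_zero (x y : R) : (poly x y).coeff 0 = 0 := by simp [poly]

theorem ev_poly (x y : R) : ev R (poly x y) = 2 * x + 2 * y + 2 * x * (2 * y) := by
  have e2 := ev_mul_pow x 1
  have e3 := ev_mul_pow y 1
  have e4 := ev_mul_pow (x * y) 2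
  simp only [pow_one] at e2 e3
  rw [poly, map_add, map_add, e2, e3, e4]
  have c1 : x * 2 = 2 * x := (Commute.ofNat_right x 2).eq
  have c2 : y * 2 = 2 * y := (Commute.ofNat_right y 2).eq
  have c3 : x * y * 2 ^ 2 = 2 * x * (2 * y) := by
    rw [pow_two, ← mul_assoc, mul_assoc x y 2, c2, ← mul_assoc, c1, mul_assoc (2 * x) y 2, c2]
  rw [c1, c2, c3]

theorem inner_sum (τ : R →+ ℤ) (x y : R) (k : ℕ) : ∑' m, dbl τ (poly x y) (m, k) =
    tlTerm τ (2 * x + 2 * y + 2 * x * (2 * y)) k := by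
  rw [tlTerm, ← ev_poly, ← map_pow]
  have e1 : ev R (poly x y ^ (k + 1)) =
      ∑ i ∈ Finset.range ((poly x y ^ (k + 1)).natDegree + 1),
        (poly x y ^ (k + 1)).coeff i * 2 ^ i := eval₂_eq_sum_range (RingHom.id R) 2
  rw [Finset.sum_range_succ'] at e1
  have e2 : (poly x y ^ (k + 1)).coeff 0 = 0 := van_pow (n := k) (poly_zero x y) 0 (Nat.zero_le _)
  rw [e2, zero_mul, add_zero] at e1
  rw [e1, map_sum]
  have e3 : ∀ i, τ ((poly x y ^ (k + 1)).coeff (i + 1) * 2 ^ (i + 1)) =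
      2 ^ (i + 1) * τ ((poly x y ^ (k + 1)).coeff (i + 1)) := by
    intro i
    rw [← two_pow_comm, map_two_pow_mul]
  simp only [e3]
  rw [tsum_eq_sum (s := Finset.range (poly x y ^ (k + 1)).natDegree)]
  · push_cast
    rw [Finset.mul_sum, Finset.sum_div]
    apply Finset.sum_congr rfl
    intro i _
    simp only [dbl]
    push_cast
    rfl
  · intro m hm
    have : (poly x y ^ (k + 1)).coeff (m + 1) = 0 := by
      apply coeff_eq_zero_of_natDegree_lt
      have : ¬ m < (poly x y ^ (k + 1)).natDegree := fun h => hm (Finset.mem_range.2 h)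
      omega
    simp [dbl, this]

theorem outer_sum (τ : R →+ ℤ) (hτ : ∀ a b, τ (a * b) = τ (b * a)) (x y : R) (m : ℕ) :
    ∑' k, dbl τ (poly x y) (m, k) = tlTerm τ (2 * x) m + tlTerm τ (2 * y) m := by
  rw [tsum_eq_sum (s := Finset.range (m + 1))]
  · have h := congrArg (fun q : ℚ => (q : ℚ_[2])) (formal_identity τ hτ x y m)
    push_cast at h
    have e1 : ∑ k ∈ Finset.range (m + 1), dbl τ (poly x y) (m, k) = 2 ^ (m + 1) *
        ∑ j ∈ Finset.range (m + 1), (-1 : ℚ_[2]) ^ j *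
          (τ (((C x * X + C y * X + C (x * y) * X ^ 2) ^ (j + 1)).coeff (m + 1)) : ℚ_[2]) /
            (j + 1) := by
      rw [Finset.mul_sum]
      apply Finset.sum_congr rfl
      intro k _
      simp only [dbl, poly]
      push_cast
      ring
    rw [e1, h, tlTerm, tlTerm, two_mul_pow, two_mul_pow, map_two_pow_mul, map_two_pow_mul]
    push_cast
    ring
  · intro k hk
    apply dbl_zero τ (poly_zero x y)
    have : ¬ k < m + 1 := fun h => hk (Finset.mem_range.2 h)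
    omega

theorem tl_mul' (τ : R →+ ℤ) (hτ : ∀ a b, τ (a * b) = τ (b * a)) (x y : R) :
    tl τ (2 * x + 2 * y + 2 * x * (2 * y)) = tl τ (2 * x) + tl τ (2 * y) := by
  have hs := summable_dbl τ (poly_zero x y)
  have hcomm : ∑' (k) (m), dbl τ (poly x y) (m, k) = ∑' (m) (k), dbl τ (poly x y) (m, k) :=
    hs.tsum_comm' (f := fun m k => dbl τ (poly x y) (m, k))
      (fun b => hs.comp_injective (Prod.mk_right_injective b))
      (fun c => hs.comp_injective (Prod.mk_left_injective c))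
  simp only [inner_sum, outer_sum τ hτ] at hcomm
  rw [tl, tl, tl, hcomm, (tl_summable τ x).tsum_add (tl_summable τ y)]

end Pool.Agent.H71.WH
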