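import Mathlib

/-!
# Whitehead groups and the assembly map for units of finite cyclic subgroups

`K1 R` is the abelianisation of `GL(R)`: the abelian group generated by the invertible matrices
over `R`, modulo `[u w] = [u] + [w]` and `[u ⊕ 1] = [u]`. `Wh G` is the quotient of `K1 ℤ[G]` by the
classes of the units `± g`.

`ColimU G` is the colimit of the groups of units `ℤ[C]ˣ` over the finite cyclic subgroups `C` of
`G`, the morphisms `C → C'` being the restrictions of the conjugations `x ↦ g x g⁻¹` with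
`g C g⁻¹ ⊆ C'`, and `assembly G` is the natural map from it to `Wh G`.
-/

set_option autoImplicit false

open Matrix

universe u v w

namespace Pool.Agent.H71.WH

/-- An invertible matrix over `R`. -/
structure InvMat (R : Type u) [Ring R] where
  /-- the size -/
  n : ℕ
  /-- the matrix -/
  mat : (Matrix (Fin n) (Fin n) R)ˣ

/-- The block sum `a ⊕ 1` for a square matrix `a`. -/
def blockOne {R : Type u} [Ring R] {n : ℕ} (a : Matrix (Fin n) (Fin n) R) :
    Matrix (Fin (n + 1)) (Fin (n + 1)) R :=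
  (fromBlocks a 0 0 1).submatrix finSumFinEquiv.symm finSumFinEquiv.symm

theorem blockOne_mul {R : Type u} [Ring R] {n : ℕ} (a b : Matrix (Fin n) (Fin n) R) :
    blockOne a * blockOne b = blockOne (a * b) := by
  rw [blockOne, blockOne, blockOne, submatrix_mul_equiv, fromBlocks_multiply]
  simp

theorem blockOne_one {R : Type u} [Ring R] {n : ℕ} :
    blockOne (1 : Matrix (Fin n) (Fin n) R) = 1 := by
  rw [blockOne, fromBlocks_one, submatrix_one_equiv]

theorem blockOne_mul_eq_one {R : Type u} [Ring R] {n : ℕ} {a b : Matrix (Fin n) (Fin n) R}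
    (h : a * b = 1) : blockOne a * blockOne b = 1 := by
  rw [blockOne_mul, h, blockOne_one]

/-- The block sum `u ⊕ 1` for an invertible matrix `u`. -/
def addOne {R : Type u} [Ring R] {n : ℕ} (x : (Matrix (Fin n) (Fin n) R)ˣ) :
    (Matrix (Fin (n + 1)) (Fin (n + 1)) R)ˣ where
  val := blockOne x.val
  inv := blockOne x.inv
  val_inv := blockOne_mul_eq_one x.val_inv
  inv_val := blockOne_mul_eq_one x.inv_val

/-- The generator of an invertible matrix. -/
def genK1 {R : Type u} [Ring R] {n : ℕ} (x : (Matrix (Fin n) (Fin n) R)ˣ) :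
    FreeAbelianGroup (InvMat R) := FreeAbelianGroup.of ⟨n, x⟩

/-- The relations of `K₁(R)`: `[x y] = [x] + [y]` and `[x ⊕ 1] = [x]`. -/
def K1Rel (R : Type u) [Ring R] : AddSubgroup (FreeAbelianGroup (InvMat R)) :=
  AddSubgroup.closure
    ({z | ∃ (n : ℕ) (x y : (Matrix (Fin n) (Fin n) R)ˣ),
        z = genK1 (x * y) - (genK1 x + genK1 y)} ∪
      {z | ∃ (n : ℕ) (x : (Matrix (Fin n) (Fin n) R)ˣ), z = genK1 (addOne x) - genK1 x})

/-- The group `K₁(R)`, the abelianisation of `GL(R)`. -/
def K1 (R : Type u) [Ring R] : Type u := FreeAbelianGroup (InvMat R) ⧸ K1Rel R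

instance instK1 (R : Type u) [Ring R] : AddCommGroup (K1 R) :=
  QuotientAddGroup.Quotient.addCommGroup (K1Rel R)

/-- The class of an invertible matrix. -/
def K1.mk {R : Type u} [Ring R] {n : ℕ} (x : (Matrix (Fin n) (Fin n) R)ˣ) : K1 R :=
  QuotientAddGroup.mk (genK1 x)

/-- A unit as an invertible `1 × 1` matrix. -/
def oneByOne {R : Type u} [Ring R] (x : Rˣ) : (Matrix (Fin 1) (Fin 1) R)ˣ :=
  Units.map (scalar (Fin 1)).toMonoidHom x

/-- The class in `K₁(R)` of a unit of `R`. -/
def K1.unit {R : Type u} [Ring R] (x : Rˣ) : K1 R := K1.mk (oneByOne x)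

/-- The units `± g` of `ℤ[G]`. -/
def trivialUnits (G : Type v) [Group G] : Set (MonoidAlgebra ℤ G)ˣ :=
  {x | ∃ (g : G) (e : ℤ), (e = 1 ∨ e = -1) ∧ (x : MonoidAlgebra ℤ G) = MonoidAlgebra.single g e}

/-- The subgroup of `K₁(ℤ[G])` generated by the classes of the units `± g`. -/
noncomputable def trivialK1 (G : Type v) [Group G] : AddSubgroup (K1 (MonoidAlgebra ℤ G)) :=
  AddSubgroup.closure (K1.unit '' trivialUnits G)

/-- The Whitehead group `Wh(G)`. -/
def Wh (G : Type v) [Group G] : Type v := K1 (MonoidAlgebra ℤ G) ⧸ trivialK1 G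

noncomputable instance instWh (G : Type v) [Group G] : AddCommGroup (Wh G) :=
  QuotientAddGroup.Quotient.addCommGroup (trivialK1 G)

/-- The finite cyclic subgroups of `G`. -/
abbrev CycSub (G : Type v) [Group G] : Type v := {C : Subgroup G // Finite C ∧ IsCyclic C}

theorem conj_mul {G : Type v} [Group G] (g : G) (F F' : Subgroup G)
    (h : ∀ x ∈ F, g * x * g⁻¹ ∈ F') (x y : F) :
    (⟨g * ↑(x * y) * g⁻¹, h _ (x * y).2⟩ : F') =
      ⟨g * x * g⁻¹, h x x.2⟩ * ⟨g * y * g⁻¹, h y y.2⟩ := by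
  apply Subtype.ext
  simp only [Subgroup.coe_mul]
  group

/-- Conjugation by `g` as a homomorphism `F → F'` if `g F g⁻¹ ⊆ F'`. -/
def conjHom {G : Type v} [Group G] (g : G) (F F' : Subgroup G)
    (h : ∀ x ∈ F, g * x * g⁻¹ ∈ F') : F →* F' :=
  MonoidHom.mk' (fun x => ⟨g * x * g⁻¹, h x x.2⟩) (conj_mul g F F' h)

/-- The homomorphism `ℤ[F]ˣ → ℤ[F']ˣ` induced by a group homomorphism `F → F'`. -/
noncomputable def unitsMap {F : Type u} {F' : Type v} [Group F] [Group F'] (φ : F →* F') :
    (MonoidAlgebra ℤ F)ˣ →* (MonoidAlgebra ℤ F')ˣ :=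
  Units.map (MonoidAlgebra.mapDomainRingHom ℤ φ).toMonoidHom

/-- A finite cyclic subgroup `C` and a unit of `ℤ[C]`. -/
structure CycUnit (G : Type v) [Group G] where
  /-- the subgroup -/
  C : CycSub G
  /-- the unit -/
  x : (MonoidAlgebra ℤ C.1)ˣ

/-- The generator of a pair. -/
def gen {G : Type v} [Group G] (C : CycSub G) (x : (MonoidAlgebra ℤ C.1)ˣ) :
    FreeAbelianGroup (CycUnit G) := FreeAbelianGroup.of ⟨C, x⟩

/-- The relation `[C, x y] - ([C, x] + [C, y])`. -/
noncomputable def mulRel {G : Type v} [Group G] (C : CycSub G) (x y : (MonoidAlgebra ℤ C.1)ˣ) :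
    FreeAbelianGroup (CycUnit G) := gen C (x * y) - (gen C x + gen C y)

/-- The relation `[C', g x g⁻¹] - [C, x]`. -/
noncomputable def conjRel {G : Type v} [Group G] (C C' : CycSub G) (g : G)
    (h : ∀ a ∈ C.1, g * a * g⁻¹ ∈ C'.1) (x : (MonoidAlgebra ℤ C.1)ˣ) :
    FreeAbelianGroup (CycUnit G) := gen C' (unitsMap (conjHom g C.1 C'.1 h) x) - gen C x

/-- The relations of the colimit: `[C, x y] = [C, x] + [C, y]` and `[C', g x g⁻¹] = [C, x]`. -/
def colimRel (G : Type v) [Group G] : AddSubgroup (FreeAbelianGroup (CycUnit G)) :=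
  AddSubgroup.closure
    ({z | ∃ C x y, z = mulRel C x y} ∪ {z | ∃ C C' g h x, z = conjRel C C' g h x})

/-- The colimit of `ℤ[C]ˣ` over the finite cyclic subgroups `C` of `G`. -/
def ColimU (G : Type v) [Group G] : Type v := FreeAbelianGroup (CycUnit G) ⧸ colimRel G

instance instColimU (G : Type v) [Group G] : AddCommGroup (ColimU G) :=
  QuotientAddGroup.Quotient.addCommGroup (colimRel G)

/-- The class in `Wh(G)` of a unit of `ℤ[G]`. -/
noncomputable def Wh.unit {G : Type v} [Group G] (x : (MonoidAlgebra ℤ G)ˣ) : Wh G :=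
  QuotientAddGroup.mk (K1.unit x)

/-- The class in `Wh(G)` of a unit of `ℤ[C]`. -/
noncomputable def incWh {G : Type v} [Group G] (C : CycSub G) (x : (MonoidAlgebra ℤ C.1)ˣ) :
    Wh G := Wh.unit (unitsMap C.1.subtype x)

/-- The class in `Wh(G)` of a pair. -/
noncomputable def toWh {G : Type v} [Group G] (a : CycUnit G) : Wh G := incWh a.C a.x

/-- The map on the free abelian group. -/
noncomputable def assemblyFree (G : Type v) [Group G] : FreeAbelianGroup (CycUnit G) →+ Wh G :=
  FreeAbelianGroup.lift toWh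

theorem K1.mk_mul {R : Type u} [Ring R] {n : ℕ} (x y : (Matrix (Fin n) (Fin n) R)ˣ) :
    K1.mk (x * y) = K1.mk x + K1.mk y := by
  have h : genK1 (x * y) - (genK1 x + genK1 y) ∈ K1Rel R :=
    AddSubgroup.subset_closure (Or.inl ⟨n, x, y, rfl⟩)
  exact QuotientAddGroup.eq_iff_sub_mem.2 h

theorem K1.unit_mul {R : Type u} [Ring R] (x y : Rˣ) :
    K1.unit (x * y) = K1.unit x + K1.unit y := by
  have h1 : oneByOne (x * y) = oneByOne x * oneByOne y := map_mul _ x y
  rw [K1.unit, h1, K1.mk_mul]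
  rfl

theorem Wh.unit_mul {G : Type v} [Group G] (x y : (MonoidAlgebra ℤ G)ˣ) :
    Wh.unit (x * y) = Wh.unit x + Wh.unit y := by
  rw [Wh.unit, K1.unit_mul]
  rfl

theorem incWh_mul {G : Type v} [Group G] (C : CycSub G) (x y : (MonoidAlgebra ℤ C.1)ˣ) :
    incWh C (x * y) = incWh C x + incWh C y := by
  rw [incWh, map_mul, Wh.unit_mul]
  rfl

/-- The unit `g` of `ℤ[G]`. -/
noncomputable def gUnit {G : Type v} [Group G] (g : G) : (MonoidAlgebra ℤ G)ˣ :=
  Units.map (MonoidAlgebra.of ℤ G) (toUnits g)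

theorem unitsMap_conj {G : Type v} [Group G] (g : G) (F F' : Subgroup G)
    (h : ∀ x ∈ F, g * x * g⁻¹ ∈ F') (x : (MonoidAlgebra ℤ F)ˣ) :
    unitsMap F'.subtype (unitsMap (conjHom g F F' h) x) =
      gUnit g * unitsMap F.subtype x * gUnit g⁻¹ := by
  have key : ∀ r : MonoidAlgebra ℤ F, MonoidAlgebra.mapDomainRingHom ℤ F'.subtype
      (MonoidAlgebra.mapDomainRingHom ℤ (conjHom g F F' h) r) =
      MonoidAlgebra.single g 1 * MonoidAlgebra.mapDomainRingHom ℤ F.subtype r *
        MonoidAlgebra.single g⁻¹ 1 := by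
    intro r
    induction r using MonoidAlgebra.induction_linear with
    | zero => simp
    | add a b ha hb => rw [map_add, map_add, ha, hb, map_add, mul_add, add_mul]
    | single s t =>
      change MonoidAlgebra.mapDomain F'.subtype (MonoidAlgebra.mapDomain (conjHom g F F' h)
        (MonoidAlgebra.single s t)) = MonoidAlgebra.single g 1 *
          MonoidAlgebra.mapDomain F.subtype (MonoidAlgebra.single s t) *
          MonoidAlgebra.single g⁻¹ 1
      rw [MonoidAlgebra.mapDomain_single, MonoidAlgebra.mapDomain_single,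
        MonoidAlgebra.mapDomain_single, MonoidAlgebra.single_mul_single,
        MonoidAlgebra.single_mul_single, one_mul, mul_one]
      rfl
  exact Units.ext (key x)

theorem incWh_conj {G : Type v} [Group G] (C C' : CycSub G) (g : G)
    (h : ∀ a ∈ C.1, g * a * g⁻¹ ∈ C'.1) (x : (MonoidAlgebra ℤ C.1)ˣ) :
    incWh C' (unitsMap (conjHom g C.1 C'.1 h) x) = incWh C x := by
  have h2 : gUnit g * gUnit g⁻¹ = 1 := by
    rw [gUnit, gUnit, ← map_mul, ← map_mul, mul_inv_cancel, map_one, map_one]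
  have h3 : Wh.unit (gUnit g) + Wh.unit (gUnit g⁻¹) = 0 := by
    have h4 := Wh.unit_mul (1 : (MonoidAlgebra ℤ G)ˣ) 1
    rw [mul_one] at h4
    rw [← Wh.unit_mul, h2]
    exact (add_eq_left.1 h4.symm)
  rw [incWh, unitsMap_conj, Wh.unit_mul, Wh.unit_mul, add_right_comm, h3, zero_add]
  rfl

theorem colimRel_le (G : Type v) [Group G] : colimRel G ≤ (assemblyFree G).ker := by
  rw [colimRel, AddSubgroup.closure_le]
  rintro z (⟨C, x, y, rfl⟩ | ⟨C, C', g, h, x, rfl⟩)
  · change assemblyFree G (gen C (x * y) - (gen C x + gen C y)) = 0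
    rw [assemblyFree, map_sub, map_add, gen, gen, gen, FreeAbelianGroup.lift_apply_of,
      FreeAbelianGroup.lift_apply_of, FreeAbelianGroup.lift_apply_of]
    exact sub_eq_zero.2 (incWh_mul C x y)
  · change assemblyFree G (gen C' (unitsMap (conjHom g C.1 C'.1 h) x) - gen C x) = 0
    rw [assemblyFree, map_sub, gen, gen, FreeAbelianGroup.lift_apply_of,
      FreeAbelianGroup.lift_apply_of]
    exact sub_eq_zero.2 (incWh_conj C C' g h x)

/-- The assembly map for units of finite cyclic subgroups. -/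
noncomputable def assembly (G : Type v) [Group G] : ColimU G →+ Wh G :=
  QuotientAddGroup.lift (colimRel G) (assemblyFree G) (colimRel_le G)

end Pool.Agent.H71.WH
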