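import Pool.Agent.H71.WH.U3
import Pool.Agent.H71.WH.Defs

/-!
# The functionals on the Whitehead group and on the colimit
-/

set_option autoImplicit false
set_option linter.unusedSectionVars false
set_option linter.unusedSimpArgs false

open Matrix
open scoped Classical

universe u v w

namespace Pool.Agent.H71.WH

theorem blockOne_eq {R : Type u} [Ring R] {n : ℕ} (a : Matrix (Fin n) (Fin n) R) :
    blockOne a = emb (Fin.castAddEmb 1) a + (1 - emb (Fin.castAddEmb 1) 1) := by
  have hc : ∀ (j : Fin 1) (i : Fin n), Fin.natAdd n j ≠ Fin.castAddEmb 1 i := by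
    intro j i h
    have := congrArg Fin.val h
    simp at this
    omega
  have hb : ∀ i j, blockOne a i j = (fromBlocks a 0 0 1) (finSumFinEquiv.symm i)
      (finSumFinEquiv.symm j) := fun _ _ => rfl
  ext i j
  rw [hb, Matrix.add_apply, Matrix.sub_apply]
  refine Fin.addCases (fun i' => ?_) (fun i' => ?_) i
  · refine Fin.addCases (fun j' => ?_) (fun j' => ?_) j
    · rw [finSumFinEquiv_symm_apply_castAdd, finSumFinEquiv_symm_apply_castAdd,
        fromBlocks_apply₁₁]
      have h1 := emb_apply (R := R) (Fin.castAddEmb 1) a i' j'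
      have h2 := emb_apply (R := R) (Fin.castAddEmb 1) 1 i' j'
      change emb (Fin.castAddEmb 1) a (Fin.castAdd 1 i') (Fin.castAdd 1 j') = _ at h1
      change emb (Fin.castAddEmb 1) 1 (Fin.castAdd 1 i') (Fin.castAdd 1 j') = _ at h2
      rw [h1, h2]
      by_cases hij : i' = j'
      · subst hij
        rw [Matrix.one_apply_eq, Matrix.one_apply_eq, sub_self, add_zero]
      · rw [Matrix.one_apply_ne hij, Matrix.one_apply_ne, sub_self, add_zero]
        intro h
        exact hij (Fin.castAdd_injective _ _ h)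
    · have h0 : (1 : Matrix (Fin (n + 1)) (Fin (n + 1)) R) (Fin.castAdd 1 i')
          (Fin.natAdd n j') = 0 := Matrix.one_apply_ne (fun h => hc j' i' h.symm)
      rw [finSumFinEquiv_symm_apply_castAdd, finSumFinEquiv_symm_apply_natAdd,
        fromBlocks_apply₁₂, emb_zero_right _ _ _ (hc j'), emb_zero_right _ _ _ (hc j'), h0]
      simp
  · refine Fin.addCases (fun j' => ?_) (fun j' => ?_) j
    · have h0 : (1 : Matrix (Fin (n + 1)) (Fin (n + 1)) R) (Fin.natAdd n i')
          (Fin.castAdd 1 j') = 0 := Matrix.one_apply_ne (hc i' j')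
      rw [finSumFinEquiv_symm_apply_castAdd, finSumFinEquiv_symm_apply_natAdd,
        fromBlocks_apply₂₁, emb_zero_left _ _ (hc i'), emb_zero_left _ _ (hc i'), h0]
      simp
    · rw [finSumFinEquiv_symm_apply_natAdd, finSumFinEquiv_symm_apply_natAdd,
        fromBlocks_apply₂₂, emb_zero_left _ _ (hc i'), emb_zero_left _ _ (hc i')]
      have : i' = j' := Subsingleton.elim _ _
      subst this
      rw [Matrix.one_apply_eq, Matrix.one_apply_eq]
      simp

section G

variable {G : Type v} [Group G] (f : G → ℤ) (hf : ∀ x y, f (x * y) = f (y * x))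

theorem addOne_eq {n : ℕ} (x : (Matrix (Fin n) (Fin n) (MonoidAlgebra ℤ G))ˣ) :
    addOne x = stab (Fin.castAddEmb 1) x := Units.ext (blockOne_eq _)

theorem Gam_addOne {n : ℕ} (x : (Matrix (Fin n) (Fin n) (MonoidAlgebra ℤ G))ˣ) :
    Gam f hf (addOne x) = Gam f hf x := by
  rw [addOne_eq, Gam_stab]

/-- the functional on the free abelian group -/
noncomputable def GamFree : FreeAbelianGroup (InvMat (MonoidAlgebra ℤ G)) →+ ℚ_[2] :=
  FreeAbelianGroup.lift fun a => Gam f hf a.mat

theorem GamFree_le : K1Rel (MonoidAlgebra ℤ G) ≤ (GamFree f hf).ker := by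
  rw [K1Rel, AddSubgroup.closure_le]
  rintro z (⟨n, x, y, rfl⟩ | ⟨n, x, rfl⟩)
  · change GamFree f hf (genK1 (x * y) - (genK1 x + genK1 y)) = 0
    rw [GamFree, map_sub, map_add, genK1, genK1, genK1, FreeAbelianGroup.lift_apply_of,
      FreeAbelianGroup.lift_apply_of, FreeAbelianGroup.lift_apply_of]
    exact sub_eq_zero.2 (Gam_mul f hf x y)
  · change GamFree f hf (genK1 (addOne x) - genK1 x) = 0
    rw [GamFree, map_sub, genK1, genK1, FreeAbelianGroup.lift_apply_of,
      FreeAbelianGroup.lift_apply_of]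
    exact sub_eq_zero.2 (Gam_addOne f hf x)

/-- the functional on `K₁` -/
noncomputable def GamK1 : K1 (MonoidAlgebra ℤ G) →+ ℚ_[2] :=
  QuotientAddGroup.lift (K1Rel _) (GamFree f hf) (GamFree_le f hf)

theorem GamK1_mk {n : ℕ} (x : (Matrix (Fin n) (Fin n) (MonoidAlgebra ℤ G))ˣ) :
    GamK1 f hf (K1.mk x) = Gam f hf x := by
  change GamFree f hf (genK1 x) = _
  rw [GamFree, genK1, FreeAbelianGroup.lift_apply_of]

theorem oneByOne_eq (x : (MonoidAlgebra ℤ G)ˣ) : oneByOne x = sc x := rfl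

theorem oneByOne_apply (x : (MonoidAlgebra ℤ G)ˣ) (i j : Fin 1) :
    (oneByOne x : Matrix (Fin 1) (Fin 1) (MonoidAlgebra ℤ G)) i j = x := by
  have : i = j := Subsingleton.elim _ _
  subst this
  exact Matrix.diagonal_apply_eq _ _

theorem TwTr.Lam_one {M : Type u} [Ring M] (t : TwTr M) : t.Lam 1 = 0 := by
  have h1 : t.Adm 1 := ⟨0, by rw [map_zero, add_zero, add_zero, Units.val_one]⟩
  have h2 := t.Lam_mul h1 h1
  rw [mul_one] at h2
  exact (add_eq_left.1 h2.symm)

theorem TT_trivial (u : (Matrix (Fin 1) (Fin 1) (MonoidAlgebra ℤ G))ˣ) (g : G)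
    (hu : ∀ i j, (u : Matrix (Fin 1) (Fin 1) (MonoidAlgebra ℤ G)) i j = MonoidAlgebra.single g 1)
    (P Q : Fin 1 × Fin 1) : (TT u : MM G (Fin 1)) P Q = (PP u : MM G (Fin 1)) P Q := by
  obtain ⟨a, b⟩ := P
  obtain ⟨c, d⟩ := Q
  have hb : b = a := Subsingleton.elim _ _
  have hd : d = c := Subsingleton.elim _ _
  subst hb
  subst hd
  rw [PP_dg, TT_val, k12_apply, hu, i1_single, i2_single, Del_single,
    MonoidAlgebra.single_mul_single, Prod.mk_mul_mk, one_mul, mul_one, one_mul]

theorem Gam_of_eq {ι : Type w} [Fintype ι] [DecidableEq ι]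
    (u : (Matrix ι ι (MonoidAlgebra ℤ G))ˣ) (h : TT u = PP u) : Gam f hf u = 0 := by
  rw [Gam, gg, h, inv_mul_cancel]
  exact TwTr.Lam_one _

theorem Gam_trivial_pos (u : (Matrix (Fin 1) (Fin 1) (MonoidAlgebra ℤ G))ˣ) (g : G)
    (hu : ∀ i j, (u : Matrix (Fin 1) (Fin 1) (MonoidAlgebra ℤ G)) i j = MonoidAlgebra.single g 1) :
    Gam f hf u = 0 := by
  apply Gam_of_eq
  exact Units.ext (Matrix.ext (TT_trivial u g hu))

theorem Gam_trivial (x : (MonoidAlgebra ℤ G)ˣ) (hx : x ∈ trivialUnits G) :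
    Gam f hf (oneByOne x) = 0 := by
  obtain ⟨g, e, he, hx⟩ := hx
  apply Gam_eq_zero_of_pow f hf _ 2 two_ne_zero
  have h1 : oneByOne x ^ 2 = oneByOne (x ^ 2) := (map_pow _ x 2).symm
  rw [h1]
  apply Gam_trivial_pos f hf _ (g * g)
  intro i j
  rw [oneByOne_apply, Units.val_pow_eq_pow_val, hx, pow_two, MonoidAlgebra.single_mul_single]
  rcases he with rfl | rfl <;> simp

theorem GamK1_le : trivialK1 G ≤ (GamK1 f hf).ker := by
  rw [trivialK1, AddSubgroup.closure_le]
  rintro z ⟨x, hx, rfl⟩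
  change GamK1 f hf (K1.mk _) = 0
  rw [GamK1_mk]
  exact Gam_trivial f hf x hx

/-- the functional on the Whitehead group -/
noncomputable def GamWh : Wh G →+ ℚ_[2] :=
  QuotientAddGroup.lift (trivialK1 G) (GamK1 f hf) (GamK1_le f hf)

theorem GamWh_incWh (C : CycSub G) (x : (MonoidAlgebra ℤ C.1)ˣ) :
    GamWh f hf (incWh C x) = LU (fun a : C.1 => f a) x -
      1 / 2 * LU (fun a : C.1 => f (a * a)) x := by
  have := C.2.1
  have hf' : ∀ a b : C.1, f ((a * b : C.1) : G) = f ((b * a : C.1) : G) :=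
    fun a b => hf a b
  have h1 : GamWh f hf (incWh C x) = Gam f hf (oneByOne (unitsMap C.1.subtype x)) :=
    GamK1_mk f hf _
  have h2 : oneByOne (unitsMap C.1.subtype x) = glMap C.1.subtype (Fin 1) (sc x) := by
    have h3 : (oneByOne (unitsMap C.1.subtype x) :
        Matrix (Fin 1) (Fin 1) (MonoidAlgebra ℤ G)) =
        (glMap C.1.subtype (Fin 1) (sc x) : Matrix (Fin 1) (Fin 1) (MonoidAlgebra ℤ G)) := by
      ext i j : 1
      rw [oneByOne_apply, glMap_val]
      change _ = gr C.1.subtype ((oneByOne x :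
        Matrix (Fin 1) (Fin 1) (MonoidAlgebra ℤ C.1)) i j)
      rw [oneByOne_apply]
      rfl
    exact Units.ext h3
  rw [h1, h2, Gam_map C.1.subtype f hf (fun a : C.1 => f a) hf' (fun a => rfl), Gam_sc]
  rfl

end G

end Pool.Agent.H71.WH
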