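import Pool.Agent.H71.WH.Fun

/-!
# The functionals on the colimit and their relation to the functionals on the Whitehead group
-/

set_option autoImplicit false
set_option linter.unusedSectionVars false
set_option linter.unusedSimpArgs false

open Matrix
open scoped Classical

universe u v w

namespace Pool.Agent.H71.WH

section

variable {G : Type v} [Group G]

/-- the quotient map -/
def toColim (G : Type v) [Group G] : FreeAbelianGroup (CycUnit G) →+ ColimU G :=
  QuotientAddGroup.mk' (colimRel G)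

/-- the class of a unit -/
def cl (C : CycSub G) (x : (MonoidAlgebra ℤ C.1)ˣ) : ColimU G :=
  toColim G (gen C x)

theorem cl_mul (C : CycSub G) (x y : (MonoidAlgebra ℤ C.1)ˣ) :
    cl C (x * y) = cl C x + cl C y := by
  rw [cl, cl, cl, ← sub_eq_zero, ← map_add, ← map_sub]
  exact (QuotientAddGroup.eq_zero_iff _).2 (AddSubgroup.subset_closure (Or.inl ⟨C, x, y, rfl⟩))

theorem cl_conj (C C' : CycSub G) (g : G) (h : ∀ a ∈ C.1, g * a * g⁻¹ ∈ C'.1)
    (x : (MonoidAlgebra ℤ C.1)ˣ) : cl C' (unitsMap (conjHom g C.1 C'.1 h) x) = cl C x := by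
  rw [cl, cl, ← sub_eq_zero, ← map_sub]
  exact (QuotientAddGroup.eq_zero_iff _).2
    (AddSubgroup.subset_closure (Or.inr ⟨C, C', g, h, x, rfl⟩))

/-- the class as a homomorphism -/
noncomputable def clM (C : CycSub G) : (MonoidAlgebra ℤ C.1)ˣ →* Multiplicative (ColimU G) :=
  MonoidHom.mk' (fun x => Multiplicative.ofAdd (cl C x)) (cl_mul C)

theorem cl_one (C : CycSub G) : cl C 1 = 0 := map_one (clM C)

theorem cl_pow (C : CycSub G) (x : (MonoidAlgebra ℤ C.1)ˣ) (n : ℕ) :
    cl C (x ^ n) = n • cl C x := map_pow (clM C) x n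

theorem cl_zpow (C : CycSub G) (x : (MonoidAlgebra ℤ C.1)ˣ) (n : ℤ) :
    cl C (x ^ n) = n • cl C x := map_zpow (clM C) x n

theorem cl_inv (C : CycSub G) (x : (MonoidAlgebra ℤ C.1)ˣ) :
    cl C x⁻¹ = -cl C x := map_inv (clM C) x

theorem cl_list (C : CycSub G) (l : List (MonoidAlgebra ℤ C.1)ˣ) :
    cl C l.prod = (l.map (cl C)).sum := by
  induction l with
  | nil => exact cl_one C
  | cons a l ih => rw [List.prod_cons, cl_mul, ih, List.map_cons, List.sum_cons]

theorem assembly_cl (C : CycSub G) (x : (MonoidAlgebra ℤ C.1)ˣ) :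
    assembly G (cl C x) = incWh C x := FreeAbelianGroup.lift_apply_of _ _

theorem colim_induction {P : ColimU G → Prop} (h0 : P 0)
    (h1 : ∀ (C : CycSub G) (x : (MonoidAlgebra ℤ C.1)ˣ), P (cl C x))
    (h2 : ∀ a b, P a → P b → P (a + b)) (z : ColimU G) : P z := by
  obtain ⟨y, rfl⟩ : ∃ y, toColim G y = z := QuotientAddGroup.mk_surjective z
  induction y using FreeAbelianGroup.induction_on with
  | zero => rw [map_zero]; exact h0
  | of x => exact h1 x.C x.x
  | neg x _ =>
    rw [map_neg]
    change P (-cl x.C x.x)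
    rw [← cl_inv]
    exact h1 _ _
  | add x y hx hy => rw [map_add]; exact h2 _ _ hx hy

theorem cyc_comm {D : Type w} [Group D] [IsCyclic D] (a b : D) : a * b = b * a := by
  obtain ⟨g, hg⟩ := IsCyclic.exists_generator (α := D)
  obtain ⟨m, rfl⟩ := Subgroup.mem_zpowers_iff.1 (hg a)
  obtain ⟨n, rfl⟩ := Subgroup.mem_zpowers_iff.1 (hg b)
  rw [← _root_.zpow_add, ← _root_.zpow_add, add_comm]

/-- integral class functions -/
abbrev CF (G : Type v) [Group G] : Type v := {f : G → ℤ // ∀ x y, f (x * y) = f (y * x)}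

/-- the functional on the free abelian group -/
noncomputable def LUfree (f : CF G) : FreeAbelianGroup (CycUnit G) →+ ℚ_[2] :=
  FreeAbelianGroup.lift fun a => LU (fun b : a.C.1 => f.1 b) a.x

theorem LUfree_le (f : CF G) : colimRel G ≤ (LUfree f).ker := by
  rw [colimRel, AddSubgroup.closure_le]
  rintro z (⟨C, x, y, rfl⟩ | ⟨C, C', g, h, x, rfl⟩)
  · change LUfree f (gen C (x * y) - (gen C x + gen C y)) = 0
    have := C.2.1
    have := C.2.2
    rw [LUfree, map_sub, map_add, gen, gen, gen, FreeAbelianGroup.lift_apply_of,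
      FreeAbelianGroup.lift_apply_of, FreeAbelianGroup.lift_apply_of]
    exact sub_eq_zero.2 (LU_mul cyc_comm _ x y)
  · change LUfree f (gen C' (unitsMap (conjHom g C.1 C'.1 h) x) - gen C x) = 0
    have := C.2.1
    have := C'.2.1
    rw [LUfree, map_sub, gen, gen, FreeAbelianGroup.lift_apply_of,
      FreeAbelianGroup.lift_apply_of]
    refine sub_eq_zero.2 ?_
    have h1 := LU_map (conjHom g C.1 C'.1 h) (fun x : C'.1 => f.1 x) (fun x y => f.2 x y) x
    refine h1.trans ?_
    congr 1
    funext a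
    change f.1 (g * a * g⁻¹) = f.1 a
    rw [f.2]
    exact congrArg f.1 (by group)

/-- the functional on the colimit -/
noncomputable def LUc (f : CF G) : ColimU G →+ ℚ_[2] :=
  QuotientAddGroup.lift (colimRel G) (LUfree f) (LUfree_le f)

theorem LUc_cl (f : CF G) (C : CycSub G) (x : (MonoidAlgebra ℤ C.1)ˣ) :
    LUc f (cl C x) = LU (fun a : C.1 => f.1 a) x := FreeAbelianGroup.lift_apply_of _ _

theorem class_sq (f : CF G) (x y : G) : f.1 (x * y * (x * y)) = f.1 (y * x * (y * x)) := by
  have h1 : x * y * (x * y) = x * (y * x * y) := by group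
  have h2 : y * x * (y * x) = y * x * y * x := by group
  rw [h1, h2, f.2]

/-- composition with the square -/
def CF.sq (f : CF G) : CF G := ⟨fun x => f.1 (x * x), class_sq f⟩

theorem CF.sq_iter (f : CF G) (k : ℕ) (x : G) : (CF.sq^[k] f).1 x = f.1 (x ^ 2 ^ k) := by
  induction k generalizing f with
  | zero => simp
  | succ k ih =>
    rw [Function.iterate_succ_apply, ih]
    change f.1 (x ^ 2 ^ k * x ^ 2 ^ k) = _
    rw [← pow_add, pow_succ, mul_two]

theorem GamWh_assembly (f : CF G) (z : ColimU G) :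
    GamWh f.1 f.2 (assembly G z) = LUc f z - 1 / 2 * LUc f.sq z := by
  induction z using colim_induction with
  | h0 => simp
  | h1 C x =>
    rw [assembly_cl, GamWh_incWh, LUc_cl, LUc_cl]
    rfl
  | h2 a b ha hb =>
    rw [map_add, map_add, ha, hb, map_add, map_add]
    ring

theorem LUc_half (f : CF G) {z : ColimU G} {M : ℤ} (hM : M ≠ 0) (h : M • assembly G z = 0) :
    LUc f z = 1 / 2 * LUc f.sq z := by
  have h1 := congrArg (GamWh f.1 f.2) h
  rw [map_zsmul, map_zero, GamWh_assembly, zsmul_eq_mul] at h1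
  rcases mul_eq_zero.1 h1 with h2 | h2
  · exact absurd (by exact_mod_cast h2) hM
  · exact sub_eq_zero.1 h2

theorem LUc_iter (f : CF G) {z : ColimU G} {M : ℤ} (hM : M ≠ 0) (h : M • assembly G z = 0)
    (n : ℕ) : LUc f z = (1 / 2) ^ n * LUc (CF.sq^[n] f) z := by
  induction n generalizing f with
  | zero => simp
  | succ n ih =>
    rw [LUc_half f hM h, ih f.sq, Function.iterate_succ_apply, pow_succ]
    ring

/-- Eventual periodicity. -/
def Per (z : ColimU G) (k d : ℕ) : Prop :=
  ∀ f : CF G, LUc (CF.sq^[k + d] f) z = LUc (CF.sq^[k] f) z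

theorem Per.mul {z : ColimU G} {k d : ℕ} (h : Per z k d) (m : ℕ) : Per z k (m * d) := by
  induction m with
  | zero => intro f; rw [zero_mul, add_zero]
  | succ m ih =>
    intro f
    rw [← ih f]
    have h1 := h (CF.sq^[m * d] f)
    rw [← Function.iterate_add_apply, ← Function.iterate_add_apply] at h1
    have e1 : k + (m + 1) * d = k + d + m * d := by ring
    rw [e1]
    exact h1

theorem Per.add {z : ColimU G} {k d : ℕ} (h : Per z k d) (j : ℕ) : Per z (k + j) d := by
  intro f
  have h1 := h (CF.sq^[j] f)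
  rw [← Function.iterate_add_apply, ← Function.iterate_add_apply] at h1
  have e1 : k + j + d = k + d + j := by ring
  rw [e1]
  exact h1

theorem exists_per (z : ColimU G) : ∃ k d, 0 < d ∧ Per z k d := by
  induction z using colim_induction with
  | h0 => exact ⟨0, 1, one_pos, fun f => by rw [map_zero, map_zero]⟩
  | h1 C x =>
    have := C.2.1
    obtain ⟨a, b, hab, h⟩ := Finite.exists_ne_map_eq_of_infinite
      (fun (k : ℕ) (c : C.1) => c ^ 2 ^ k)
    wlog hlt : a < b generalizing a b
    · exact this b a (Ne.symm hab) h.symm (lt_of_le_of_ne (not_lt.1 hlt) (Ne.symm hab))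
    refine ⟨a, b - a, Nat.sub_pos_of_lt hlt, ?_⟩
    intro f
    rw [Nat.add_sub_cancel' hlt.le, LUc_cl, LUc_cl]
    congr 1
    funext c
    rw [CF.sq_iter, CF.sq_iter]
    have h1 : c ^ 2 ^ a = c ^ 2 ^ b := congrFun h c
    have h2 : (c : G) ^ 2 ^ a = (c : G) ^ 2 ^ b := by
      rw [← Subgroup.coe_pow, h1, Subgroup.coe_pow]
    rw [h2]
  | h2 x y hx hy =>
    obtain ⟨k, d, hd, h⟩ := hx
    obtain ⟨k', d', hd', h'⟩ := hy
    refine ⟨k + k', d' * d, Nat.mul_pos hd' hd, ?_⟩
    intro f
    have e1 := (h.mul d').add k' f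
    have e2 := (h'.mul d).add k f
    rw [mul_comm d d', add_comm k' k] at e2
    rw [map_add, map_add, e1, e2]

/-- The functionals vanish on the kernel of the assembly map. -/
theorem LUc_eq_zero (f : CF G) {z : ColimU G} {M : ℤ} (hM : M ≠ 0) (h : M • assembly G z = 0) :
    LUc f z = 0 := by
  obtain ⟨k, d, hd, hp⟩ := exists_per z
  have h1 := LUc_iter f hM h k
  have h2 := LUc_iter f hM h (k + d)
  rw [hp f] at h2
  rw [pow_add] at h2
  have h3 : LUc f z = (1 / 2) ^ d * LUc f z := by
    conv_rhs => rw [h1]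
    rw [h2]
    ring
  have h4 : ((1 : ℚ_[2]) / 2) ^ d ≠ 1 := by
    intro h5
    have h6 : ((2 : ℚ_[2])) ^ d = 1 := by
      rw [one_div, inv_pow] at h5
      exact inv_eq_one.1 h5
    have h7 : (2 : ℕ) ^ d = 1 := by exact_mod_cast h6
    have h8 := Nat.one_lt_pow hd.ne' (by norm_num : 1 < 2)
    omega
  have h5 : (1 - (1 / 2 : ℚ_[2]) ^ d) * LUc f z = 0 := by
    linear_combination h3
  rcases mul_eq_zero.1 h5 with h6 | h6
  · exact absurd (sub_eq_zero.1 h6).symm h4
  · exact h6

end

end Pool.Agent.H71.WH
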