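import Pool.Agent.H71.WH.Skew3

/-!
# Integral group rings

The maps `i1, i2, Δ : ℤ[G] → ℤ[G × G]`, the exchange `σ` and the functionals given by functions.
-/

set_option autoImplicit false

open Matrix

universe u v w

namespace Pool.Agent.H71.WH

section Fn

variable {G : Type u} [Group G]

/-- The functional `∑ a_g g ↦ ∑ a_g f(g)` on a group ring. -/
noncomputable def fn (f : G → ℤ) : MonoidAlgebra ℤ G →+ ℤ where
  toFun a := a.coeff.sum fun g b => b * f g
  map_zero' := by simp
  map_add' x y := by
    classical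
    rw [MonoidAlgebra.coeff_add, Finsupp.sum_add_index'] <;> simp [add_mul]

omit [Group G] in
theorem fn_single (f : G → ℤ) (g : G) (b : ℤ) :
    fn f (MonoidAlgebra.single g b) = b * f g := by
  change (MonoidAlgebra.single g b).coeff.sum (fun g b => b * f g) = _
  rw [MonoidAlgebra.coeff_single, Finsupp.sum_single_index (by simp)]

omit [Group G] in
theorem hom_ext {B : Type v} [AddCommGroup B] {φ ψ : MonoidAlgebra ℤ G →+ B}
    (h : ∀ (g : G) (n : ℤ), φ (MonoidAlgebra.single g n) = ψ (MonoidAlgebra.single g n)) :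
    φ = ψ := by
  ext g
  simp only [AddMonoidHom.comp_apply, MonoidAlgebra.singleAddHom_apply]
  exact h g _

/-- the ring homomorphism induced by a group homomorphism -/
noncomputable abbrev gr {H : Type v} [Group H] (φ : G →* H) :
    MonoidAlgebra ℤ G →+* MonoidAlgebra ℤ H := MonoidAlgebra.mapDomainRingHom ℤ φ

theorem gr_single {H : Type v} [Group H] (φ : G →* H) (g : G) (n : ℤ) :
    gr φ (MonoidAlgebra.single g n) = MonoidAlgebra.single (φ g) n := by
  change MonoidAlgebra.mapDomain φ (MonoidAlgebra.single g n) = _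
  rw [MonoidAlgebra.mapDomain_single]

theorem fn_gr {H : Type v} [Group H] (φ : G →* H) (f : H → ℤ) (a : MonoidAlgebra ℤ G) :
    fn f (gr φ a) = fn (fun g => f (φ g)) a := by
  induction a using MonoidAlgebra.induction_linear with
  | zero => simp
  | add x y hx hy => rw [map_add, map_add, map_add, hx, hy]
  | single g n => rw [gr_single, fn_single, fn_single]

end Fn

section Two

variable (G : Type u) [Group G]

/-- `g ↦ (g, 1)` -/
noncomputable def i1 : MonoidAlgebra ℤ G →+* MonoidAlgebra ℤ (G × G) := gr (MonoidHom.inl G G)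

/-- `g ↦ (1, g)` -/
noncomputable def i2 : MonoidAlgebra ℤ G →+* MonoidAlgebra ℤ (G × G) := gr (MonoidHom.inr G G)

/-- `g ↦ (g, g)` -/
noncomputable def Del : MonoidAlgebra ℤ G →+* MonoidAlgebra ℤ (G × G) :=
  gr ((MonoidHom.id G).prod (MonoidHom.id G))

/-- `(g, h) ↦ (h, g)` -/
noncomputable def sw : MonoidAlgebra ℤ (G × G) →+* MonoidAlgebra ℤ (G × G) :=
  gr (MulEquiv.prodComm : G × G ≃* G × G).toMonoidHom

variable {G}

theorem i1_single (g : G) (n : ℤ) : i1 G (MonoidAlgebra.single g n) =
    MonoidAlgebra.single (g, 1) n := gr_single _ _ _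

theorem i2_single (g : G) (n : ℤ) : i2 G (MonoidAlgebra.single g n) =
    MonoidAlgebra.single (1, g) n := gr_single _ _ _

theorem Del_single (g : G) (n : ℤ) : Del G (MonoidAlgebra.single g n) =
    MonoidAlgebra.single (g, g) n := gr_single _ _ _

theorem sw_single (p : G × G) (n : ℤ) : sw G (MonoidAlgebra.single p n) =
    MonoidAlgebra.single p.swap n := gr_single _ _ _

theorem sw_sw (a : MonoidAlgebra ℤ (G × G)) : sw G (sw G a) = a := by
  induction a using MonoidAlgebra.induction_linear with
  | zero => simp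
  | add x y hx hy => rw [map_add, map_add, hx, hy]
  | single g n => rw [sw_single, sw_single, Prod.swap_swap]

theorem sw_i1 (a : MonoidAlgebra ℤ G) : sw G (i1 G a) = i2 G a := by
  induction a using MonoidAlgebra.induction_linear with
  | zero => simp
  | add x y hx hy => rw [map_add, map_add, map_add, hx, hy]
  | single g n => rw [i1_single, sw_single, i2_single]; rfl

theorem sw_i2 (a : MonoidAlgebra ℤ G) : sw G (i2 G a) = i1 G a := by rw [← sw_i1, sw_sw]

theorem sw_Del (a : MonoidAlgebra ℤ G) : sw G (Del G a) = Del G a := by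
  induction a using MonoidAlgebra.induction_linear with
  | zero => simp
  | add x y hx hy => rw [map_add, map_add, hx, hy]
  | single g n => rw [Del_single, sw_single]; rfl

theorem i1_i2_comm (a b : MonoidAlgebra ℤ G) : i1 G a * i2 G b = i2 G b * i1 G a := by
  induction a using MonoidAlgebra.induction_linear with
  | zero => simp
  | add x y hx hy => rw [map_add, add_mul, mul_add, hx, hy]
  | single g n =>
    induction b using MonoidAlgebra.induction_linear with
    | zero => simp
    | add x y hx hy => rw [map_add, add_mul, mul_add, hx, hy]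
    | single h m =>
      rw [i1_single, i2_single, MonoidAlgebra.single_mul_single, MonoidAlgebra.single_mul_single,
        Prod.mk_mul_mk, Prod.mk_mul_mk, mul_one, one_mul, one_mul, mul_one, mul_comm n m]

/-- `a ⊗ a` and `Δ(a)` are congruent modulo norms. -/
theorem exists_norm (a : MonoidAlgebra ℤ G) :
    ∃ z, i1 G a * i2 G a - Del G a = z + sw G z := by
  induction a using MonoidAlgebra.induction_linear with
  | zero => exact ⟨0, by simp⟩
  | add x y hx hy =>
    obtain ⟨z, hz⟩ := hx
    obtain ⟨w, hw⟩ := hy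
    refine ⟨z + w + i1 G x * i2 G y, ?_⟩
    have e1 : sw G (i1 G x * i2 G y) = i1 G y * i2 G x := by
      rw [map_mul, sw_i1, sw_i2, i1_i2_comm]
    rw [map_add (sw G) (z + w), map_add (sw G) z w, e1, map_add (i1 G), map_add (i2 G),
      map_add (Del G)]
    have e2 : (i1 G x + i1 G y) * (i2 G x + i2 G y) - (Del G x + Del G y) =
      (i1 G x * i2 G x - Del G x) + (i1 G y * i2 G y - Del G y) + i1 G x * i2 G y +
        i1 G y * i2 G x := by noncomm_ring
    rw [e2, hz, hw]
    abel
  | single g n =>
    obtain ⟨m, hm⟩ : ∃ m : ℤ, n * n - n = m + m := by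
      obtain ⟨m, hm⟩ := (Int.even_mul_pred_self n)
      exact ⟨m, by rw [← hm]; ring⟩
    refine ⟨MonoidAlgebra.single (g, g) m, ?_⟩
    rw [i1_single, i2_single, Del_single, sw_single, MonoidAlgebra.single_mul_single,
      Prod.mk_mul_mk, mul_one, one_mul, ← MonoidAlgebra.single_sub, hm, Prod.swap_prod_mk,
      ← MonoidAlgebra.single_add]

/-- the functional `(g, h) ↦ f (g h)` -/
noncomputable def k0 (f : G → ℤ) : MonoidAlgebra ℤ (G × G) →+ ℤ := fn fun p => f (p.1 * p.2)

theorem k0_tw (f : G → ℤ) (hf : ∀ x y, f (x * y) = f (y * x)) (a b : MonoidAlgebra ℤ (G × G)) :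
    k0 f (a * b) = k0 f (b * sw G a) := by
  induction a using MonoidAlgebra.induction_linear with
  | zero => simp
  | add x y hx hy => rw [add_mul, map_add, map_add, mul_add, map_add, hx, hy]
  | single p n =>
    induction b using MonoidAlgebra.induction_linear with
    | zero => simp
    | add x y hx hy => rw [mul_add, map_add, add_mul, map_add, hx, hy]
    | single q m =>
      rw [sw_single, MonoidAlgebra.single_mul_single, MonoidAlgebra.single_mul_single, k0,
        fn_single, fn_single]
      obtain ⟨g, h⟩ := p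
      obtain ⟨g', h'⟩ := q
      simp only [Prod.swap_prod_mk, Prod.mk_mul_mk]
      have : f (g * g' * (h * h')) = f (g' * h * (h' * g)) := by
        rw [mul_assoc, hf]
        congr 1
        group
      rw [this, mul_comm n m]

theorem k0_i1 (f : G → ℤ) (a : MonoidAlgebra ℤ G) : k0 f (i1 G a) = fn f a := by
  rw [k0, i1, fn_gr]
  simp

theorem k0_Del (f : G → ℤ) (a : MonoidAlgebra ℤ G) :
    k0 f (Del G a) = fn (fun g => f (g * g)) a := by
  rw [k0, Del, fn_gr]
  simp

/-- The twisted trace on `ℤ[G × G]`. -/
noncomputable def t0 (f : G → ℤ) (hf : ∀ x y, f (x * y) = f (y * x)) :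
    TwTr (MonoidAlgebra ℤ (G × G)) where
  s := sw G
  inv := sw_sw
  κ := k0 f
  tw := k0_tw f hf

end Two

end Pool.Agent.H71.WH
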