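import Pool.Agent.H71.WH.Mat

/-!
# The homomorphism `Gam : GL(ℤ[G]) → ℚ₂`
-/

set_option autoImplicit false
set_option linter.unusedSectionVars false

open Matrix

universe u v w

namespace Pool.Agent.H71.WH

theorem mul_aux {R : Type u} [Ring R] (a b c d : R) (h : c * b = b * c) :
    a * b * (c * d) = a * c * (b * d) := by
  rw [mul_assoc, ← mul_assoc b c, ← h]
  simp only [mul_assoc]

theorem grp_aux {H : Type u} [Group H] (a b c d : H) :
    (a * b)⁻¹ * (c * d) = (b⁻¹ * (a⁻¹ * c) * b) * (b⁻¹ * d) := by group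

section

variable {G : Type u} [Group G] (f : G → ℤ) (hf : ∀ x y, f (x * y) = f (y * x))
  (ι : Type v) [Fintype ι] [DecidableEq ι]

/-- matrices over `ℤ[G × G]` -/
abbrev MM (G : Type u) [Group G] (ι : Type v) : Type (max u v) :=
  Matrix (ι × ι) (ι × ι) (MonoidAlgebra ℤ (G × G))

/-- the twisted trace on matrices over `ℤ[G × G]` -/
noncomputable def tG : TwTr (MM G ι) := mat (t0 f hf) ι

theorem tG_s (F : MM G ι) (P Q : ι × ι) : (tG f hf ι).s F P Q = sw G (F P.swap Q.swap) := rfl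

theorem tG_κ (F : MM G ι) : (tG f hf ι).κ F = ∑ P, k0 f (F P P.swap) := rfl

/-- `u ⊗ 1` -/
noncomputable def k1 : Matrix ι ι (MonoidAlgebra ℤ G) →+* MM G ι :=
  (blockDiagonalRingHom ι ι (MonoidAlgebra ℤ (G × G))).comp
    (RingHom.pi fun _ => (i1 G).mapMatrix)

/-- `1 ⊗ u` -/
noncomputable def k2 : Matrix ι ι (MonoidAlgebra ℤ G) →+* MM G ι :=
  (tG (fun _ : G => 0) (fun _ _ => rfl) ι).s.comp (k1 ι)

variable {ι}

theorem k1_apply (w : Matrix ι ι (MonoidAlgebra ℤ G)) (P Q : ι × ι) :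
    k1 ι w P Q = if P.2 = Q.2 then i1 G (w P.1 Q.1) else 0 :=
  blockDiagonal_apply _ P Q

theorem k2_apply (w : Matrix ι ι (MonoidAlgebra ℤ G)) (P Q : ι × ι) :
    k2 ι w P Q = if P.1 = Q.1 then i2 G (w P.2 Q.2) else 0 := by
  change sw G (k1 ι w P.swap Q.swap) = _
  rw [k1_apply]
  simp only [Prod.fst_swap, Prod.snd_swap]
  split_ifs
  · rw [sw_i1]
  · rw [map_zero]

theorem s_k1 (w : Matrix ι ι (MonoidAlgebra ℤ G)) : (tG f hf ι).s (k1 ι w) = k2 ι w := rfl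

theorem s_k2 (w : Matrix ι ι (MonoidAlgebra ℤ G)) : (tG f hf ι).s (k2 ι w) = k1 ι w := by
  rw [← s_k1 f hf, (tG f hf ι).inv]

theorem k12_apply (w w' : Matrix ι ι (MonoidAlgebra ℤ G)) (P Q : ι × ι) :
    (k1 ι w * k2 ι w') P Q = i1 G (w P.1 Q.1) * i2 G (w' P.2 Q.2) := by
  rw [Matrix.mul_apply, Finset.sum_eq_single (Q.1, P.2)]
  · rw [k1_apply, k2_apply, if_pos rfl, if_pos rfl]
  · rintro ⟨a, b⟩ _ hX
    rw [k1_apply, k2_apply]
    by_cases h1 : P.2 = b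
    · by_cases h2 : a = Q.1
      · exact absurd (by rw [h2, ← h1]) hX
      · rw [if_neg h2, mul_zero]
    · rw [if_neg h1, zero_mul]
  · intro h
    exact absurd (Finset.mem_univ _) h

theorem k21 (w w' : Matrix ι ι (MonoidAlgebra ℤ G)) :
    k2 ι w' * k1 ι w = k1 ι w * k2 ι w' := by
  ext P Q : 1
  rw [k12_apply, Matrix.mul_apply, Finset.sum_eq_single (P.1, Q.2)]
  · rw [k1_apply, k2_apply, if_pos rfl, if_pos rfl, i1_i2_comm]
  · rintro ⟨a, b⟩ _ hX
    rw [k1_apply, k2_apply]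
    by_cases h1 : P.1 = a
    · by_cases h2 : b = Q.2
      · exact absurd (by rw [h2, ← h1]) hX
      · rw [if_neg h2, mul_zero]
    · rw [if_neg h1, zero_mul]
  · intro h
    exact absurd (Finset.mem_univ _) h

/-- the diagonal -/
def dg (ι : Type v) : ι ↪ ι × ι := ⟨fun i => (i, i), fun _ _ h => congrArg Prod.fst h⟩

theorem dg_apply (i : ι) : dg ι i = (i, i) := rfl

variable (ι) in
/-- the map induced by the diagonal of `G` -/
noncomputable def psi : Matrix ι ι (MonoidAlgebra ℤ G) →ₙ+* MM G ι :=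
  (emb (dg ι)).comp ((Del G).mapMatrix : Matrix ι ι (MonoidAlgebra ℤ G) →+* _).toNonUnitalRingHom

theorem psi_eq (w : Matrix ι ι (MonoidAlgebra ℤ G)) : psi ι w = emb (dg ι) (w.map (Del G)) := rfl

theorem swap_ne_dg {P : ι × ι} (h : ∀ i, P ≠ dg ι i) (i : ι) : P.swap ≠ dg ι i := by
  intro h'
  apply h i
  rw [← Prod.swap_swap P, h']
  rfl

theorem s_psi (w : Matrix ι ι (MonoidAlgebra ℤ G)) : (tG f hf ι).s (psi ι w) = psi ι w := by
  rw [psi_eq]
  apply eq_emb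
  · intro i k
    rw [tG_s]
    change sw G (emb (dg ι) (w.map (Del G)) (dg ι i) (dg ι k)) = _
    rw [emb_apply, Matrix.map_apply, sw_Del]
  · intro P Q hP
    rw [tG_s, emb_zero_left _ _ (swap_ne_dg hP), map_zero]
  · intro P Q hQ
    rw [tG_s, emb_zero_right _ _ _ (swap_ne_dg hQ), map_zero]

/-- `u ⊗ u` -/
noncomputable def TT (u : (Matrix ι ι (MonoidAlgebra ℤ G))ˣ) : (MM G ι)ˣ :=
  Units.map (k1 (G := G) ι).toMonoidHom u * Units.map (k2 (G := G) ι).toMonoidHom u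

/-- the diagonal image -/
noncomputable def PP : (Matrix ι ι (MonoidAlgebra ℤ G))ˣ →* (MM G ι)ˣ := unitExt (psi ι)

theorem TT_val (u : (Matrix ι ι (MonoidAlgebra ℤ G))ˣ) :
    (TT u : MM G ι) = k1 ι u * k2 ι u := rfl

theorem PP_val (u : (Matrix ι ι (MonoidAlgebra ℤ G))ˣ) :
    (PP u : MM G ι) = psi ι u + (1 - psi ι 1) := rfl

/-- the quotient -/
noncomputable def gg (u : (Matrix ι ι (MonoidAlgebra ℤ G))ˣ) : (MM G ι)ˣ := (PP u)⁻¹ * TT u

theorem TT_mul (u w : (Matrix ι ι (MonoidAlgebra ℤ G))ˣ) : TT (u * w) = TT u * TT w := by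
  have e1 : (TT (u * w) : MM G ι) = k1 ι u * k1 ι w * (k2 ι u * k2 ι w) := by
    rw [TT_val, Units.val_mul, map_mul, map_mul]
  have e2 : ((TT u * TT w : (MM G ι)ˣ) : MM G ι) = k1 ι u * k2 ι u * (k1 ι w * k2 ι w) := by
    rw [Units.val_mul, TT_val, TT_val]
  apply Units.ext
  rw [e1, e2]
  exact mul_aux _ _ _ _ (k21 _ _)

theorem gg_mul (u w : (Matrix ι ι (MonoidAlgebra ℤ G))ˣ) :
    gg (u * w) = ((PP w)⁻¹ * gg u * PP w) * gg w := by
  rw [gg, gg, gg, map_mul, TT_mul]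
  exact grp_aux _ _ _ _

theorem s_PP (u : (Matrix ι ι (MonoidAlgebra ℤ G))ˣ) : (tG f hf ι).s (PP u) = (PP u : MM G ι) := by
  rw [PP_val, map_add, map_sub, map_one, s_psi, s_psi]

theorem s_TT (u : (Matrix ι ι (MonoidAlgebra ℤ G))ˣ) : (tG f hf ι).s (TT u) = (TT u : MM G ι) := by
  rw [TT_val, map_mul, s_k1, s_k2, k21]

theorem PP_dg (u : (Matrix ι ι (MonoidAlgebra ℤ G))ˣ) (i k : ι) :
    (PP u : MM G ι) (i, i) (k, k) = Del G ((u : Matrix ι ι _) i k) := by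
  have h1 : ∀ w : Matrix ι ι (MonoidAlgebra ℤ G), psi ι w (i, i) (k, k) = Del G (w i k) :=
    fun w => emb_apply (dg ι) _ i k
  rw [PP_val, Matrix.add_apply, Matrix.sub_apply, h1, h1]
  by_cases hik : i = k
  · subst hik
    rw [Matrix.one_apply_eq, Matrix.one_apply_eq, map_one, sub_self, add_zero]
  · rw [Matrix.one_apply_ne hik, Matrix.one_apply_ne (fun h => hik (congrArg Prod.fst h)),
      map_zero, sub_self, add_zero]

theorem exists_T_sub (u : (Matrix ι ι (MonoidAlgebra ℤ G))ˣ) :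
    ∃ z : MM G ι, (TT u : MM G ι) - PP u = z + (tG f hf ι).s z := by
  apply exists_half
  · change (tG f hf ι).s _ = _
    rw [map_sub, s_PP, s_TT]
  · intro i k
    rw [Matrix.sub_apply, PP_dg, TT_val, k12_apply]
    exact exists_norm _

theorem gg_adm (u : (Matrix ι ι (MonoidAlgebra ℤ G))ˣ) : (tG f hf ι).Adm (gg u) := by
  obtain ⟨z, hz⟩ := exists_T_sub f hf u
  refine ⟨((PP u)⁻¹ : (MM G ι)ˣ) * z, ?_⟩
  rw [map_mul, TwTr.s_inv _ (s_PP f hf u), add_assoc, ← mul_add, ← hz, mul_sub, Units.inv_mul,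
    gg, Units.val_mul]
  abel

/-- The homomorphism `GL(ℤ[G]) → ℚ₂` defined by a class function. -/
noncomputable def Gam (u : (Matrix ι ι (MonoidAlgebra ℤ G))ˣ) : ℚ_[2] := (tG f hf ι).Lam (gg u)

theorem Gam_mul (u w : (Matrix ι ι (MonoidAlgebra ℤ G))ˣ) :
    Gam f hf (u * w) = Gam f hf u + Gam f hf w := by
  rw [Gam, gg_mul, TwTr.Lam_mul _ (TwTr.Adm.conj _ (gg_adm f hf u) (s_PP f hf w)) (gg_adm f hf w),
    TwTr.Lam_conj _ (gg_adm f hf u) (s_PP f hf w)]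
  rfl

theorem Gam_one : Gam f hf (1 : (Matrix ι ι (MonoidAlgebra ℤ G))ˣ) = 0 := by
  have := Gam_mul f hf (1 : (Matrix ι ι (MonoidAlgebra ℤ G))ˣ) 1
  rw [mul_one] at this
  exact (add_eq_left.1 this.symm)

end

end Pool.Agent.H71.WH
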