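import Pool.Agent.H71.WH.Gam

/-!
# Naturality and stability of `Gam`
-/

set_option autoImplicit false
set_option linter.unusedSectionVars false

open Matrix

universe u v w

namespace Pool.Agent.H71.WH

theorem emb_map {R S : Type*} [Ring R] [Ring S] {ι κ : Type*} [Fintype ι] [DecidableEq ι]
    [Fintype κ] [DecidableEq κ] (g : R →+* S) (ε : ι ↪ κ) (w : Matrix ι ι R) :
    (emb ε w).map g = emb ε (w.map g) := by
  apply eq_emb
  · intro i k
    rw [Matrix.map_apply, emb_apply, Matrix.map_apply]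
  · intro a b h
    rw [Matrix.map_apply, emb_zero_left _ _ h, map_zero]
  · intro a b h
    rw [Matrix.map_apply, emb_zero_right _ _ _ h, map_zero]

theorem emb_comp {R : Type*} [Ring R] {ι κ μ : Type*} [Fintype ι] [DecidableEq ι]
    [Fintype κ] [DecidableEq κ] [Fintype μ] [DecidableEq μ] (ε : ι ↪ κ) (η : κ ↪ μ)
    (w : Matrix ι ι R) : emb η (emb ε w) = emb (ε.trans η) w := by
  symm
  apply eq_emb
  · intro i k
    by_cases hi : ∃ a, i = ε a
    · obtain ⟨a, rfl⟩ := hi
      by_cases hk : ∃ b, k = ε b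
      · obtain ⟨b, rfl⟩ := hk
        rw [emb_apply]
        exact emb_apply (ε.trans η) w a b
      · push Not at hk
        rw [emb_zero_right _ _ _ hk]
        apply emb_zero_right
        intro c hc
        exact hk c (η.injective hc)
    · push Not at hi
      rw [emb_zero_left _ _ hi]
      apply emb_zero_left
      intro c hc
      exact hi c (η.injective hc)
  · intro a b h
    exact emb_zero_left _ _ (fun i => h (ε i)) _
  · intro a b h
    exact emb_zero_right _ _ _ (fun i => h (ε i))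

section Nat

variable {G : Type u} [Group G] {H : Type w} [Group H] (φ : G →* H)

theorem gr_i1 (a : MonoidAlgebra ℤ G) : gr (φ.prodMap φ) (i1 G a) = i1 H (gr φ a) := by
  induction a using MonoidAlgebra.induction_linear with
  | zero => simp
  | add x y hx hy => rw [map_add (i1 G), map_add (gr φ), map_add (i1 H), map_add (gr _), hx, hy]
  | single g n =>
    rw [i1_single, gr_single, gr_single, i1_single]
    congr 1
    exact Prod.ext rfl (map_one φ)

theorem gr_Del (a : MonoidAlgebra ℤ G) : gr (φ.prodMap φ) (Del G a) = Del H (gr φ a) := by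
  induction a using MonoidAlgebra.induction_linear with
  | zero => simp
  | add x y hx hy => rw [map_add (Del G), map_add (gr φ), map_add (Del H), map_add (gr _), hx, hy]
  | single g n =>
    rw [Del_single, gr_single, gr_single, Del_single]
    rfl

theorem gr_sw (a : MonoidAlgebra ℤ (G × G)) :
    gr (φ.prodMap φ) (sw G a) = sw H (gr (φ.prodMap φ) a) := by
  induction a using MonoidAlgebra.induction_linear with
  | zero => simp
  | add x y hx hy => rw [map_add (sw G), map_add (gr _), map_add (gr _), map_add (sw H), hx, hy]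
  | single g n =>
    rw [sw_single, gr_single, gr_single, sw_single]
    rfl

variable {ι : Type v} [Fintype ι] [DecidableEq ι]

/-- the induced map on matrices -/
noncomputable def JJ (ι : Type v) [Fintype ι] [DecidableEq ι] : MM G ι →+* MM H ι :=
  (gr (φ.prodMap φ)).mapMatrix

theorem JJ_apply (F : MM G ι) (P Q : ι × ι) : JJ φ ι F P Q = gr (φ.prodMap φ) (F P Q) := rfl

theorem JJ_k1 (w : Matrix ι ι (MonoidAlgebra ℤ G)) :
    JJ φ ι (k1 ι w) = k1 ι ((gr φ).mapMatrix w) := by
  ext P Q : 1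
  rw [JJ_apply, k1_apply, k1_apply]
  split_ifs
  · rw [gr_i1]
    rfl
  · rw [map_zero]

theorem JJ_s (f : H → ℤ) (hf : ∀ x y, f (x * y) = f (y * x)) (f' : G → ℤ)
    (hf' : ∀ x y, f' (x * y) = f' (y * x)) (F : MM G ι) :
    JJ φ ι ((tG f' hf' ι).s F) = (tG f hf ι).s (JJ φ ι F) := by
  ext P Q : 1
  rw [JJ_apply, tG_s, tG_s, JJ_apply, gr_sw]

theorem JJ_k2 (w : Matrix ι ι (MonoidAlgebra ℤ G)) :
    JJ φ ι (k2 ι w) = k2 ι ((gr φ).mapMatrix w) := by
  rw [← s_k1 (fun _ => 0) (fun _ _ => rfl), ← s_k1 (fun _ => 0) (fun _ _ => rfl),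
    JJ_s φ (fun _ => 0) (fun _ _ => rfl), JJ_k1]

theorem JJ_psi (w : Matrix ι ι (MonoidAlgebra ℤ G)) :
    JJ φ ι (psi ι w) = psi ι ((gr φ).mapMatrix w) := by
  rw [psi_eq, psi_eq]
  change (emb (dg ι) (w.map (Del G))).map (gr (φ.prodMap φ)) = _
  rw [emb_map]
  congr 1
  ext i k : 1
  exact gr_Del φ _

/-- the induced map on `GL` -/
noncomputable def glMap (ι : Type v) [Fintype ι] [DecidableEq ι] :
    (Matrix ι ι (MonoidAlgebra ℤ G))ˣ →* (Matrix ι ι (MonoidAlgebra ℤ H))ˣ :=
  Units.map (gr φ).mapMatrix.toMonoidHom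

theorem glMap_val (u : (Matrix ι ι (MonoidAlgebra ℤ G))ˣ) :
    (glMap φ ι u : Matrix ι ι (MonoidAlgebra ℤ H)) = (gr φ).mapMatrix (u : Matrix ι ι _) := rfl

theorem JJ_TT (u : (Matrix ι ι (MonoidAlgebra ℤ G))ˣ) :
    Units.map (JJ φ ι).toMonoidHom (TT u) = TT (glMap φ ι u) := by
  have h : JJ φ ι (TT u : MM G ι) = (TT (glMap φ ι u) : MM H ι) := by
    rw [TT_val, TT_val, map_mul, JJ_k1, JJ_k2, glMap_val]
  exact Units.ext h

theorem JJ_PP (u : (Matrix ι ι (MonoidAlgebra ℤ G))ˣ) :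
    Units.map (JJ φ ι).toMonoidHom (PP u) = PP (glMap φ ι u) := by
  have h : JJ φ ι (PP u : MM G ι) = (PP (glMap φ ι u) : MM H ι) := by
    rw [PP_val, PP_val, map_add, map_sub, map_one, JJ_psi, JJ_psi, glMap_val, map_one]
  exact Units.ext h

theorem JJ_gg (u : (Matrix ι ι (MonoidAlgebra ℤ G))ˣ) :
    Units.map (JJ φ ι).toMonoidHom (gg u) = gg (glMap φ ι u) := by
  rw [gg, gg, map_mul, map_inv, JJ_TT, JJ_PP]

theorem Gam_map (f : H → ℤ) (hf : ∀ x y, f (x * y) = f (y * x)) (f' : G → ℤ)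
    (hf' : ∀ x y, f' (x * y) = f' (y * x)) (h : ∀ x, f (φ x) = f' x)
    (u : (Matrix ι ι (MonoidAlgebra ℤ G))ˣ) : Gam f hf (glMap φ ι u) = Gam f' hf' u := by
  apply TwTr.Lam_map _ _ (JJ φ ι).toNonUnitalRingHom (JJ_s φ f hf f' hf')
  · intro F
    change (tG f hf ι).κ (JJ φ ι F) = _
    rw [tG_κ, tG_κ]
    apply Finset.sum_congr rfl
    intro P _
    rw [JJ_apply, k0, k0, fn_gr]
    congr 2
    funext p
    change f (φ p.1 * φ p.2) = f' (p.1 * p.2)
    rw [← map_mul, h]
  · exact gg_adm f' hf' u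
  · rw [← JJ_gg]
    change JJ φ ι (gg u : MM G ι) = JJ φ ι (gg u : MM G ι) + (1 - JJ φ ι 1)
    rw [map_one, sub_self, add_zero]

end Nat

end Pool.Agent.H71.WH
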