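import Pool.Agent.H71.WH.Gam3

/-!
# The value of `Gam` on matrices congruent to `1` modulo `4`
-/

set_option autoImplicit false
set_option linter.unusedSectionVars false
set_option linter.unusedSimpArgs false

open Matrix

universe u v w

namespace Pool.Agent.H71.WH

theorem L_one_add {R : Type u} [Ring R] (τ : R →+ ℤ) (x : R) : L τ (1 + x) = tl τ x := by
  rw [L, add_sub_cancel_left]

namespace TwTr

variable {M : Type u} [Ring M] (t : TwTr M)

theorem L_fix {x y : M} (hx : t.s x = x) (hy : t.s y = y) :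
    L t.κ ((1 + 2 * x) * (1 + 2 * y)) = L t.κ (1 + 2 * x) + L t.κ (1 + 2 * y) := by
  let S : Subring M := RingHom.eqLocus t.s (RingHom.id M)
  let x' : S := ⟨x, hx⟩
  let y' : S := ⟨y, hy⟩
  have key := L_mul (pull S.subtype t.κ) (by
    intro a b
    have h1 : t.κ ((a : M) * b) = t.κ ((b : M) * a) := by
      rw [t.tw]
      exact congrArg (fun c => t.κ ((b : M) * c)) a.2
    exact h1) (w := 1 + 2 * x') (w' := 1 + 2 * y') ⟨x', rfl⟩ ⟨y', rfl⟩
  rw [← L_map, ← L_map, ← L_map] at key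
  exact key

end TwTr

section

variable {G : Type u} [Group G] (f : G → ℤ) (hf : ∀ x y, f (x * y) = f (y * x))
  {ι : Type v} [Fintype ι] [DecidableEq ι]

/-- the trace followed by the functional of `f` -/
noncomputable def trf (f : G → ℤ) (ι : Type v) [Fintype ι] :
    Matrix ι ι (MonoidAlgebra ℤ G) →+ ℤ :=
  (fn f).comp (Matrix.traceAddMonoidHom ι (MonoidAlgebra ℤ G))

theorem trf_apply (w : Matrix ι ι (MonoidAlgebra ℤ G)) : trf f ι w = fn f (trace w) := rfl

theorem κ_k1 (w : Matrix ι ι (MonoidAlgebra ℤ G)) : (tG f hf ι).κ (k1 ι w) = trf f ι w := by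
  rw [tG_κ, trf_apply, trace, map_sum, Fintype.sum_prod_type]
  apply Finset.sum_congr rfl
  intro i _
  have h1 : ∀ j, k1 ι w (i, j) (i, j).swap = if j = i then i1 G (w i j) else 0 :=
    fun j => k1_apply w (i, j) (j, i)
  simp only [h1]
  rw [Finset.sum_eq_single i]
  · rw [if_pos rfl]
    exact k0_i1 f _
  · intro j _ hj
    rw [if_neg hj, map_zero]
  · intro h
    exact absurd (Finset.mem_univ _) h

theorem κ_psi (w : Matrix ι ι (MonoidAlgebra ℤ G)) :
    (tG f hf ι).κ (psi ι w) = trf (fun g => f (g * g)) ι w := by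
  rw [tG_κ, trf_apply, trace, map_sum, Fintype.sum_prod_type]
  apply Finset.sum_congr rfl
  intro i _
  rw [Finset.sum_eq_single i]
  · rw [psi_eq]
    change k0 f (emb (dg ι) (w.map (Del G)) (dg ι i) (dg ι i)) = _
    rw [emb_apply]
    exact k0_Del f _
  · intro j _ hj
    rw [psi_eq, emb_zero_left, map_zero]
    intro k hk
    have h1 : i = k := congrArg Prod.fst hk
    have h2 : j = k := congrArg Prod.snd hk
    exact hj (h2.trans h1.symm)
  · intro h
    exact absurd (Finset.mem_univ _) h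

theorem psi_four (x : Matrix ι ι (MonoidAlgebra ℤ G)) : psi ι (4 * x) = 4 * psi ι x := by
  have h1 : ∀ {R : Type (max u v)} [Ring R] (y : R), 4 * y = y + y + y + y := by
    intro R _ y
    have : (4 : R) = 1 + 1 + 1 + 1 := by norm_num
    rw [this]
    noncomm_ring
  rw [h1, h1, map_add, map_add, map_add]

theorem tl_psi (y : Matrix ι ι (MonoidAlgebra ℤ G)) :
    tl (tG f hf ι).κ (psi ι y) = tl (trf (fun g => f (g * g)) ι) y := by
  apply tl_nonUnital
  exact κ_psi f hf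

/-- The value of `Gam` on matrices congruent to `1` modulo `4`. -/
theorem Gam_four (u : (Matrix ι ι (MonoidAlgebra ℤ G))ˣ) (x : Matrix ι ι (MonoidAlgebra ℤ G))
    (hx : (u : Matrix ι ι (MonoidAlgebra ℤ G)) = 1 + 4 * x) :
    Gam f hf u = L (trf f ι) (u : Matrix ι ι (MonoidAlgebra ℤ G)) -
      1 / 2 * L (trf (fun g => f (g * g)) ι) (u : Matrix ι ι (MonoidAlgebra ℤ G)) := by
  set t := tG f hf ι with ht
  have hP : (PP u : MM G ι) = 1 + 4 * psi ι x := by
    rw [PP_val, hx, map_add, psi_four]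
    abel
  have hk1 : k1 ι (u : Matrix ι ι (MonoidAlgebra ℤ G)) = 1 + 4 * k1 ι x := by
    rw [hx, map_add, map_one, map_mul, map_ofNat]
  have hk2 : k2 ι (u : Matrix ι ι (MonoidAlgebra ℤ G)) = 1 + 4 * k2 ι x := by
    rw [hx, map_add, map_one, map_mul, map_ofNat]
  have hT : (TT u : MM G ι) = 1 + 4 * (k1 ι x + k2 ι x + 4 * (k1 ι x * k2 ι x)) := by
    rw [TT_val, hk1, hk2]
    noncomm_ring
  set Y := k1 ι x + k2 ι x + 4 * (k1 ι x * k2 ι x) with hY
  have s1 : t.s (k1 ι x) = k2 ι x := s_k1 f hf x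
  have s2 : t.s (k2 ι x) = k1 ι x := s_k2 f hf x
  have s3 : t.s (psi ι x) = psi ι x := s_psi f hf x
  have sY : t.s Y = Y := by
    rw [hY, map_add, map_add, map_mul, map_mul, s1, s2, map_ofNat, k21, add_comm (k2 ι x)]
  set Q := (((PP u)⁻¹ : (MM G ι)ˣ) : MM G ι) with hQ
  have sQ : t.s Q = Q := t.s_inv (s_PP f hf u)
  have hQ1 : Q * (1 + 4 * psi ι x) = 1 := by rw [← hP, hQ, Units.inv_mul]
  have hQ2 : Q = 1 + 2 * (-(2 * (Q * psi ι x))) := by
    have : Q * (1 + 4 * psi ι x) = Q + 4 * (Q * psi ι x) := by noncomm_ring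
    rw [this] at hQ1
    calc Q = 1 - 4 * (Q * psi ι x) := by rw [← hQ1]; abel
      _ = _ := by noncomm_ring
  have sQp : t.s (-(2 * (Q * psi ι x))) = -(2 * (Q * psi ι x)) := by
    rw [map_neg, map_mul, map_mul, map_ofNat, sQ, s3]
  have hg : (gg u : MM G ι) = 1 + 4 * (Q * (Y - psi ι x)) := by
    have e1 : (gg u : MM G ι) = Q * (1 + 4 * Y) := by rw [gg, Units.val_mul, hT]
    have e2 : Q * (1 + 4 * Y) = Q * (1 + 4 * psi ι x) + 4 * (Q * (Y - psi ι x)) := by
      noncomm_ring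
    rw [e1, e2, hQ1]
  have h1 := t.Lam_four (x := Q * (Y - psi ι x)) (by rw [map_mul, map_sub, sQ, sY, s3]) hg
  have hT2 : (TT u : MM G ι) = 1 + 2 * (2 * Y) := by
    rw [hT]
    noncomm_ring
  have hP2 : (PP u : MM G ι) = 1 + 2 * (2 * psi ι x) := by
    rw [hP]
    noncomm_ring
  have s2Y : t.s (2 * Y) = 2 * Y := by rw [map_mul, map_ofNat, sY]
  have s2p : t.s (2 * psi ι x) = 2 * psi ι x := by rw [map_mul, map_ofNat, s3]
  have h2 : L t.κ (gg u : MM G ι) = L t.κ Q + L t.κ (TT u : MM G ι) := by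
    have e1 : (gg u : MM G ι) = Q * TT u := by rw [gg, Units.val_mul]
    rw [e1, hT2, hQ2]
    exact t.L_fix sQp s2Y
  have h3 : L t.κ Q + L t.κ (PP u : MM G ι) = 0 := by
    have e1 : Q * (PP u : MM G ι) = 1 := by rw [hQ, Units.inv_mul]
    have e2 := t.L_fix sQp s2p
    rw [← hQ2, ← hP2, e1, L_one] at e2
    exact e2.symm
  have h4 : L t.κ (TT u : MM G ι) = L (trf f ι) (u : Matrix ι ι (MonoidAlgebra ℤ G)) +
      L (trf f ι) (u : Matrix ι ι (MonoidAlgebra ℤ G)) := by
    have e1 : k1 ι (u : Matrix ι ι (MonoidAlgebra ℤ G)) = 1 + 2 * (2 * k1 ι x) := by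
      rw [hk1]
      noncomm_ring
    have e2 : k2 ι (u : Matrix ι ι (MonoidAlgebra ℤ G)) = 1 + 2 * (2 * k2 ι x) := by
      rw [hk2]
      noncomm_ring
    have e3 : Commute (2 * k1 ι x) (2 * k2 ι x) := by
      have : Commute (k1 ι x) (k2 ι x) := (k21 x x).symm
      exact ((Commute.ofNat_left 2 _).mul_left ((Commute.ofNat_right (k1 ι x) 2).mul_right this))
    have e4 := L_mul_of_commute t.κ e3
    rw [← e1, ← e2, ← TT_val] at e4
    have e5 : L t.κ (k1 ι (u : Matrix ι ι (MonoidAlgebra ℤ G))) =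
        L (trf f ι) (u : Matrix ι ι (MonoidAlgebra ℤ G)) := by
      rw [L_map]
      congr 1
      exact AddMonoidHom.ext fun w => κ_k1 f hf w
    have e6 : L t.κ (k2 ι (u : Matrix ι ι (MonoidAlgebra ℤ G))) =
        L t.κ (k1 ι (u : Matrix ι ι (MonoidAlgebra ℤ G))) := by
      have : k2 ι (u : Matrix ι ι (MonoidAlgebra ℤ G)) =
        t.s (k1 ι (u : Matrix ι ι (MonoidAlgebra ℤ G))) := rfl
      rw [this, L_map]
      congr 1
      exact AddMonoidHom.ext fun w => t.κ_s w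
    rw [e4, e6, e5]
  have h5 : L t.κ (PP u : MM G ι) = L (trf (fun g => f (g * g)) ι)
      (u : Matrix ι ι (MonoidAlgebra ℤ G)) := by
    rw [hP, hx, L_one_add, L_one_add, ← tl_psi f hf, psi_four]
  have h6 : Gam f hf u = 1 / 2 * L t.κ (gg u : MM G ι) := h1
  rw [h6, h2, h4, eq_neg_of_add_eq_zero_left h3, h5]
  ring

/-- `Gam` vanishes on elements of finite order. -/
theorem Gam_eq_zero_of_pow (u : (Matrix ι ι (MonoidAlgebra ℤ G))ˣ) (n : ℕ) (hn : n ≠ 0)
    (h : Gam f hf (u ^ n) = 0) : Gam f hf u = 0 := by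
  have h1 : ∀ k : ℕ, Gam f hf (u ^ k) = k * Gam f hf u := by
    intro k
    induction k with
    | zero => rw [pow_zero, Gam_one]; simp
    | succ k ih => rw [pow_succ, Gam_mul, ih]; push_cast; ring
  rw [h1] at h
  rcases mul_eq_zero.1 h with h | h
  · exact absurd (by exact_mod_cast h) hn
  · exact h

end

end Pool.Agent.H71.WH
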