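import Pool.Agent.H71.WH.Log

/-!
# Further properties of the trace of the logarithm
-/

set_option autoImplicit false

universe u v

namespace Pool.Agent.H71.WH

variable {R : Type u} [Ring R]

/-- `w` is congruent to `1` modulo `2` -/
def Cong (w : R) : Prop := ∃ x : R, w = 1 + 2 * x

theorem Cong.one : Cong (1 : R) := ⟨0, by simp⟩

theorem Cong.mul {w w' : R} (h : Cong w) (h' : Cong w') : Cong (w * w') := by
  obtain ⟨x, rfl⟩ := h
  obtain ⟨y, rfl⟩ := h'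
  refine ⟨x + y + x * (2 * y), ?_⟩
  noncomm_ring

theorem Cong.of_mul_eq_one {w w' : R} (h : Cong w) (h' : w' * w = 1) : Cong w' := by
  obtain ⟨x, rfl⟩ := h
  refine ⟨-(w' * x), ?_⟩
  have : w' * (1 + 2 * x) = w' + 2 * (w' * x) := by noncomm_ring
  rw [this] at h'
  rw [mul_neg, ← h']
  abel

theorem Cong.conj {w : R} (h : Cong w) (g : Rˣ) : Cong ((g⁻¹ : Rˣ) * w * g) := by
  obtain ⟨x, rfl⟩ := h
  refine ⟨(g⁻¹ : Rˣ) * x * g, ?_⟩
  have : ((g⁻¹ : Rˣ) : R) * (1 + 2 * x) * g = (g⁻¹ : Rˣ) * g + 2 * ((g⁻¹ : Rˣ) * x * g) := by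
    noncomm_ring
  rw [this, Units.inv_mul]

/-- `τ (log w)` -/
noncomputable def L (τ : R →+ ℤ) (w : R) : ℚ_[2] := tl τ (w - 1)

theorem L_mul (τ : R →+ ℤ) (hτ : ∀ a b, τ (a * b) = τ (b * a)) {w w' : R} (h : Cong w)
    (h' : Cong w') : L τ (w * w') = L τ w + L τ w' := by
  obtain ⟨x, rfl⟩ := h
  obtain ⟨y, rfl⟩ := h'
  have e1 : (1 + 2 * x) * (1 + 2 * y) - 1 = 2 * x + 2 * y + 2 * x * (2 * y) := by noncomm_ring
  rw [L, L, L, e1, add_sub_cancel_left, add_sub_cancel_left, tl_mul' τ hτ]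

theorem tl_zero (τ : R →+ ℤ) : tl τ 0 = 0 := by
  have : tlTerm τ (0 : R) = fun _ => 0 := by
    funext k
    simp [tlTerm]
  rw [tl, this, tsum_zero]

theorem L_one (τ : R →+ ℤ) : L τ 1 = 0 := by rw [L, sub_self, tl_zero]

theorem L_inv (τ : R →+ ℤ) (hτ : ∀ a b, τ (a * b) = τ (b * a)) {w w' : R} (h : Cong w)
    (h1 : w' * w = 1) : L τ w' = -L τ w := by
  have := L_mul τ hτ (h.of_mul_eq_one h1) h
  rw [h1, L_one] at this
  exact (neg_eq_of_add_eq_zero_left this.symm).symm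

theorem tl_congr {S : Type v} [Ring S] {τ : R →+ ℤ} {τ' : S →+ ℤ} {x : R} {x' : S}
    (h : ∀ k, τ (x ^ (k + 1)) = τ' (x' ^ (k + 1))) : tl τ x = tl τ' x' := by
  have : tlTerm τ x = tlTerm τ' x' := by
    funext k
    rw [tlTerm, tlTerm, h]
  rw [tl, tl, this]

theorem L_conj (τ : R →+ ℤ) (hτ : ∀ a b, τ (a * b) = τ (b * a)) (w : R) (g : Rˣ) :
    L τ ((g⁻¹ : Rˣ) * w * g) = L τ w := by
  have e1 : ((g⁻¹ : Rˣ) : R) * w * g - 1 = (g⁻¹ : Rˣ) * (w - 1) * g := by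
    rw [mul_sub, sub_mul, mul_one, Units.inv_mul]
  have e2 : ∀ k : ℕ, (((g⁻¹ : Rˣ) : R) * (w - 1) * g) ^ k = (g⁻¹ : Rˣ) * (w - 1) ^ k * g := by
    intro k
    induction k with
    | zero => simp
    | succ k ih =>
      rw [pow_succ, ih, pow_succ]
      calc ((g⁻¹ : Rˣ) : R) * (w - 1) ^ k * g * ((g⁻¹ : Rˣ) * (w - 1) * g)
          = (g⁻¹ : Rˣ) * (w - 1) ^ k * (g * (g⁻¹ : Rˣ)) * (w - 1) * g := by
            simp only [mul_assoc]
        _ = _ := by rw [Units.mul_inv, mul_one]; simp only [mul_assoc]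
  rw [L, L, e1]
  apply tl_congr
  intro k
  rw [e2, mul_assoc, hτ, mul_assoc, Units.mul_inv, mul_one]

theorem tl_neg (τ : R →+ ℤ) (x : R) : tl (-τ) x = -tl τ x := by
  have : tlTerm (-τ) x = fun k => -tlTerm τ x k := by
    funext k
    simp only [tlTerm, AddMonoidHom.neg_apply, Int.cast_neg]
    ring
  rw [tl, tl, this, tsum_neg]

theorem tl_zsmul (τ τ' : R →+ ℤ) (x : R) (n : ℤ) (h : ∀ r, τ' r = n * τ r) :
    tl τ' x = n * tl τ x := by
  have : tlTerm τ' x = fun k => (n : ℚ_[2]) * tlTerm τ x k := by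
    funext k
    simp only [tlTerm, h, Int.cast_mul]
    ring
  rw [tl, tl, this, tsum_mul_left]

theorem tl_add (τ τ' : R →+ ℤ) {w : R} (h : Cong w) :
    L (τ + τ') w = L τ w + L τ' w := by
  obtain ⟨x, rfl⟩ := h
  rw [L, L, L, add_sub_cancel_left, tl, tl, tl, ← (tl_summable τ x).tsum_add (tl_summable τ' x)]
  congr 1
  funext k
  simp only [tlTerm, AddMonoidHom.add_apply, Int.cast_add]
  ring

/-- Restriction of additive functions along a ring homomorphism. -/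
def pull {S : Type v} [Ring S] (φ : R →+* S) (τ : S →+ ℤ) : R →+ ℤ :=
  τ.comp φ.toAddMonoidHom

theorem pull_apply {S : Type v} [Ring S] (φ : R →+* S) (τ : S →+ ℤ) (r : R) :
    pull φ τ r = τ (φ r) := rfl

theorem L_map {S : Type v} [Ring S] (φ : R →+* S) (τ : S →+ ℤ) (w : R) :
    L τ (φ w) = L (pull φ τ) w := by
  rw [L, L]
  apply tl_congr
  intro k
  rw [pull_apply, map_pow φ, map_sub φ, map_one φ]

theorem Cong.map {S : Type v} [Ring S] (φ : R →+* S) {w : R} (h : Cong w) : Cong (φ w) := by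
  obtain ⟨x, rfl⟩ := h
  refine ⟨φ x, ?_⟩
  rw [map_add, map_mul, map_one, map_ofNat]

/-- additivity for commuting elements and arbitrary functionals -/
theorem L_mul_of_commute (τ : R →+ ℤ) {x y : R} (h : Commute x y) :
    L τ ((1 + 2 * x) * (1 + 2 * y)) = L τ (1 + 2 * x) + L τ (1 + 2 * y) := by
  let S : Subring R := Subring.closure {x, y}
  have hS : ∀ a ∈ S, ∀ b ∈ S, a * b = b * a := by
    intro a ha b hb
    have hcl : ∀ p ∈ ({x, y} : Set R), ∀ q ∈ ({x, y} : Set R), p * q = q * p := by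
      rintro p (rfl | rfl) q (rfl | rfl)
      · rfl
      · exact h
      · exact h.symm
      · rfl
    let _ := Subring.closureCommRingOfComm hcl
    have := mul_comm (⟨a, ha⟩ : Subring.closure {x, y}) ⟨b, hb⟩
    exact congrArg Subtype.val this
  let x' : S := ⟨x, Subring.subset_closure (by simp)⟩
  let y' : S := ⟨y, Subring.subset_closure (by simp)⟩
  have key := L_mul (pull S.subtype τ) (by
    intro a b
    rw [pull_apply, pull_apply]
    exact congrArg τ (hS _ a.2 _ b.2)) (w := 1 + 2 * x') (w' := 1 + 2 * y') ⟨x', rfl⟩ ⟨y', rfl⟩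
  rw [← L_map, ← L_map, ← L_map] at key
  exact key

theorem two_mul_le_pow (j : ℕ) : 2 * (j + 2) ≤ 2 ^ (j + 2) := by
  have := Nat.lt_two_pow_self (n := j + 1)
  rw [pow_succ]
  omega

theorem term_le_aux (τ : R →+ ℤ) (r : R) (n j : ℕ) :
    ‖tlTerm τ (2 ^ (n + 1) * r) (j + 1)‖ ≤ ((2 : ℝ) ^ (2 * n))⁻¹ := by
  have h0 : τ ((2 ^ (n + 1) * r) ^ (j + 1 + 1)) = 2 ^ ((n + 1) * (j + 2)) * τ (r ^ (j + 2)) := by
    rw [((Commute.ofNat_left 2 r).pow_left (n + 1)).mul_pow, ← pow_mul, map_two_pow_mul]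
  have h1 := norm_term_le (z := τ ((2 ^ (n + 1) * r) ^ (j + 1 + 1))) (m := (n + 1) * (j + 2))
    (k := j + 1) (by rw [h0]; exact dvd_mul_right _ _)
  refine h1.trans ?_
  have h2 : 2 * (j + 2) * 2 ^ (2 * n) ≤ 2 ^ ((n + 1) * (j + 2)) := by
    calc 2 * (j + 2) * 2 ^ (2 * n) ≤ 2 ^ (j + 2) * 2 ^ (2 * n) :=
          Nat.mul_le_mul_right _ (two_mul_le_pow j)
      _ = 2 ^ (j + 2 + 2 * n) := (pow_add 2 (j + 2) (2 * n)).symm
      _ ≤ 2 ^ ((n + 1) * (j + 2)) := by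
          apply Nat.pow_le_pow_right (by norm_num)
          nlinarith [Nat.zero_le (n * j)]
  have h3 : (2 * ((j : ℝ) + 2)) * 2 ^ (2 * n) ≤ 2 ^ ((n + 1) * (j + 2)) := by exact_mod_cast h2
  rw [← div_eq_inv_mul, div_le_iff₀ (by positivity), ← div_eq_inv_mul, le_div_iff₀ (by positivity)]
  push_cast
  linarith

/-- estimate -/
theorem norm_tl_le (τ : R →+ ℤ) (r : R) (n : ℕ) (h : (2 ^ (2 * n) : ℤ) ∣ τ (2 ^ n * r)) :
    ‖tl τ (2 ^ (n + 1) * r)‖ ≤ ((2 : ℝ) ^ (2 * n))⁻¹ := by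
  apply IsUltrametricDist.norm_tsum_le_of_forall_le
  intro k
  rcases k with _ | j
  · have h0 : τ ((2 ^ (n + 1) * r) ^ (0 + 1)) = 2 * τ (2 ^ n * r) := by
      rw [zero_add, pow_one, pow_succ', mul_assoc]
      have := map_two_pow_mul τ 1 (2 ^ n * r)
      simpa using this
    have h1 := norm_term_le (z := τ ((2 ^ (n + 1) * r) ^ (0 + 1))) (m := 2 * n + 1)
      (k := 0) (by rw [h0, pow_succ']; exact mul_dvd_mul_left _ h)
    refine h1.trans (le_of_eq ?_)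
    rw [pow_succ, mul_inv]
    push_cast
    ring
  · exact term_le_aux τ r n j

theorem tl_ne_zero (τ : R →+ ℤ) (r : R) (a : ℕ) (ha : 3 ≤ a) (h : ¬ (2 : ℤ) ∣ τ r) :
    tl τ (2 ^ a * r) ≠ 0 := by
  obtain ⟨n, rfl⟩ : ∃ n, a = n + 1 := ⟨a - 1, by omega⟩
  have hsum : Summable (tlTerm τ (2 ^ (n + 1) * r)) := by
    have : (2 : R) ^ (n + 1) * r = 2 * (2 ^ n * r) := by rw [pow_succ', mul_assoc]
    rw [this]
    exact tl_summable τ _
  intro h0
  rw [tl, hsum.tsum_eq_zero_add] at h0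
  have h1 : ‖∑' b, tlTerm τ (2 ^ (n + 1) * r) (b + 1)‖ ≤ ((2 : ℝ) ^ (2 * n))⁻¹ :=
    IsUltrametricDist.norm_tsum_le_of_forall_le (fun j => term_le_aux τ r n j)
  rw [← norm_neg, ← eq_neg_of_add_eq_zero_left h0] at h1
  have h2 : tlTerm τ (2 ^ (n + 1) * r) 0 = (((2 ^ (n + 1) * τ r : ℤ)) : ℚ_[2]) := by
    rw [tlTerm, zero_add, pow_one, map_two_pow_mul]
    simp
  rw [h2] at h1
  have h3 : ‖((2 ^ (n + 1) * τ r : ℤ) : ℚ_[2])‖ ≤ ((2 : ℕ) : ℝ) ^ (-((2 * n : ℕ) : ℤ)) := by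
    rw [zpow_neg, zpow_natCast]
    exact_mod_cast h1
  rw [Padic.norm_int_le_pow_iff_dvd] at h3
  have h4 : (2 ^ (n + 1 + 1) : ℤ) ∣ 2 ^ (n + 1) * τ r := by
    refine dvd_trans ?_ h3
    exact_mod_cast pow_dvd_pow 2 (by omega : n + 1 + 1 ≤ 2 * n)
  rw [pow_succ] at h4
  exact h ((mul_dvd_mul_iff_left (by positivity)).1 h4)

end Pool.Agent.H71.WH
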