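import Pool.Agent.H71.WH.Prim

/-!
# Decomposition into primitive classes
-/

set_option autoImplicit false
set_option linter.unusedSectionVars false
set_option linter.unusedSimpArgs false

open Matrix
open scoped Classical

universe u v w

namespace Pool.Agent.H71.WH

theorem unitsMap_comp {A : Type u} {B : Type v} {C : Type w} [Group A] [Group B] [Group C]
    (φ : A →* B) (ψ : B →* C) (x : (MonoidAlgebra ℤ A)ˣ) :
    unitsMap ψ (unitsMap φ x) = unitsMap (ψ.comp φ) x := by
  have h : ((MonoidAlgebra.mapDomainRingHom ℤ ψ).comp (MonoidAlgebra.mapDomainRingHom ℤ φ))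
      (x : MonoidAlgebra ℤ A) = MonoidAlgebra.mapDomainRingHom ℤ (ψ.comp φ)
      (x : MonoidAlgebra ℤ A) := by
    rw [MonoidAlgebra.mapDomainRingHom_comp]
  exact Units.ext h

section

variable {G : Type v} [Group G]

/-- the range of a homomorphism from a finite cyclic group -/
def rangeSub {H : Type w} [Group H] [Finite H] [IsCyclic H] (ι : H →* G) : CycSub G :=
  ⟨ι.range, Set.finite_range ι, isCyclic_of_surjective ι.rangeRestrict ι.rangeRestrict_surjective⟩

/-- `ι` as a homomorphism onto its range -/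
def toRange {H : Type w} [Group H] [Finite H] [IsCyclic H] (ι : H →* G) : H →* (rangeSub ι).1 :=
  ι.rangeRestrict

theorem coe_toRange {H : Type w} [Group H] [Finite H] [IsCyclic H] (ι : H →* G) (a : H) :
    ((toRange ι a : (rangeSub ι).1) : G) = ι a := rfl

/-- The class of a unit of `ℤ[H]` for a homomorphism from a finite cyclic group `H` to `G`. -/
noncomputable def clh {H : Type w} [Group H] [Finite H] [IsCyclic H] (ι : H →* G)
    (x : (MonoidAlgebra ℤ H)ˣ) : ColimU G := cl (rangeSub ι) (unitsMap (toRange ι) x)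

/-- `clh` as a homomorphism -/
noncomputable def clhM {H : Type w} [Group H] [Finite H] [IsCyclic H] (ι : H →* G) :
    (MonoidAlgebra ℤ H)ˣ →* Multiplicative (ColimU G) :=
  (clM (rangeSub ι)).comp (unitsMap (toRange ι))

theorem clh_mul {H : Type w} [Group H] [Finite H] [IsCyclic H] (ι : H →* G)
    (x y : (MonoidAlgebra ℤ H)ˣ) : clh ι (x * y) = clh ι x + clh ι y := map_mul (clhM ι) x y

theorem clh_zpow {H : Type w} [Group H] [Finite H] [IsCyclic H] (ι : H →* G)
    (x : (MonoidAlgebra ℤ H)ˣ) (n : ℤ) : clh ι (x ^ n) = n • clh ι x := map_zpow (clhM ι) x n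

theorem clh_prod {H : Type w} [CommGroup H] [Finite H] [IsCyclic H] (ι : H →* G)
    {κ : Type*} (s : Finset κ) (x : κ → (MonoidAlgebra ℤ H)ˣ) :
    clh ι (∏ i ∈ s, x i) = ∑ i ∈ s, clh ι (x i) := by
  induction s using Finset.induction_on with
  | empty =>
    rw [Finset.prod_empty, Finset.sum_empty]
    exact map_one (clhM ι)
  | insert a s ha ih => rw [Finset.prod_insert ha, Finset.sum_insert ha, clh_mul, ih]

theorem clh_map {H : Type w} {H' : Type u} [Group H] [Finite H] [IsCyclic H] [Group H']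
    [Finite H'] [IsCyclic H'] (ι : H →* G) (ι' : H' →* G) (φ : H →* H')
    (h : ∀ a, ι' (φ a) = ι a) (x : (MonoidAlgebra ℤ H)ˣ) :
    clh ι' (unitsMap φ x) = clh ι x := by
  have hr : ∀ y ∈ (rangeSub ι).1, (1 : G) * y * 1⁻¹ ∈ (rangeSub ι').1 := by
    rintro y ⟨a, rfl⟩
    refine ⟨φ a, ?_⟩
    rw [h, one_mul, inv_one, mul_one]
  have h1 := cl_conj (rangeSub ι) (rangeSub ι') 1 hr (unitsMap (toRange ι) x)
  refine Eq.trans ?_ h1
  have h2 : (toRange ι').comp φ =
      (conjHom 1 (rangeSub ι).1 (rangeSub ι').1 hr).comp (toRange ι) := by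
    apply MonoidHom.ext
    intro a
    apply Subtype.ext
    change ι' (φ a) = 1 * ι a * 1⁻¹
    rw [h, one_mul, inv_one, mul_one]
  rw [clh, unitsMap_comp, unitsMap_comp, h2]

theorem clh_subtype (C : CycSub G) [Finite C.1] [IsCyclic C.1] (x : (MonoidAlgebra ℤ C.1)ˣ) :
    clh C.1.subtype x = cl C x := by
  have hr : ∀ y ∈ C.1, (1 : G) * y * 1⁻¹ ∈ (rangeSub C.1.subtype).1 := by
    intro y hy
    refine ⟨⟨y, hy⟩, ?_⟩
    rw [one_mul, inv_one, mul_one]
    rfl
  have h2 : toRange C.1.subtype = conjHom 1 C.1 (rangeSub C.1.subtype).1 hr := by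
    apply MonoidHom.ext
    intro a
    apply Subtype.ext
    change (a : G) = 1 * (a : G) * 1⁻¹
    rw [one_mul, inv_one, mul_one]
  have h3 := cl_conj C (rangeSub C.1.subtype) 1 hr x
  rw [← h2] at h3
  exact h3

theorem isPrim_map {D : Type u} {D' : Type w} [Group D] [Finite D] [Group D'] [Finite D']
    [IsCyclic D'] (φ : D ≃* D') {y : (MonoidAlgebra ℤ D)ˣ} (hy : IsPrim y) :
    IsPrim (unitsMap φ.toMonoidHom y) := by
  intro c hc
  have h1 : LU (dlt c) (unitsMap φ.toMonoidHom y) = LU (fun a : D => dlt c (φ.toMonoidHom a)) y :=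
    LU_map φ.toMonoidHom (dlt c) (fun a b => by rw [cyc_comm]) y
  have h2 : (fun a : D => dlt c (φ.toMonoidHom a)) = dlt (φ.symm c) := by
    funext a
    unfold dlt
    congr 1
    have : (φ.toMonoidHom a = c) = (a = φ.symm c) := by
      rw [eq_iff_iff]
      constructor
      · rintro rfl
        exact (φ.symm_apply_apply a).symm
      · rintro rfl
        exact φ.apply_symm_apply c
    rw [this]
  rw [h1, h2]
  apply hy
  intro htop
  apply hc
  rw [eq_top_iff]
  intro d _
  have h2 : φ.symm d ∈ Subgroup.zpowers (φ.symm c) := by rw [htop]; trivial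
  obtain ⟨m, hm⟩ := Subgroup.mem_zpowers_iff.1 h2
  refine Subgroup.mem_zpowers_iff.2 ⟨m, ?_⟩
  apply φ.symm.injective
  rw [map_zpow, hm]

/-- The classes in the colimit represented by primitive units. -/
def PrimSet (G : Type v) [Group G] : Set (ColimU G) :=
  {z | ∃ (D : CycSub G) (y : (MonoidAlgebra ℤ D.1)ˣ), IsPrim y ∧ z = cl D y}

theorem clh_prim {H : Type w} [Group H] [Finite H] [IsCyclic H] (ι : H →* G)
    (hι : Function.Injective ι) (y : (MonoidAlgebra ℤ H)ˣ) (hy : IsPrim y) :
    clh ι y ∈ PrimSet G := by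
  let e : H ≃* (rangeSub ι).1 := MonoidHom.ofInjective hι
  have he : e.toMonoidHom = toRange ι := rfl
  have := (rangeSub ι).2.1
  have := (rangeSub ι).2.2
  refine ⟨rangeSub ι, unitsMap (toRange ι) y, ?_, rfl⟩
  rw [← he]
  exact isPrim_map e hy

theorem prim_decomp (N : ℕ) : ∀ (H : Type w) [CommGroup H] [Finite H] [IsCyclic H],
    Nat.card H = N → ∀ ι : H →* G, Function.Injective ι →
    ∀ x : (MonoidAlgebra ℤ H)ˣ, clh ι x ∈ Sat (AddSubgroup.closure (PrimSet G)) := by
  induction N using Nat.strong_induction_on with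
  | _ N ih =>
    intro H _ _ _ hN ι hι x
    have : Fintype H := Fintype.ofFinite H
    obtain ⟨κ, hκ⟩ := exists_prim H
    have h1 := clh_prim ι hι _ (hκ x)
    have h2 : ∀ E ∈ (Finset.univ : Finset (Subgroup H)).erase ⊤,
        clh ι (ir E x) ∈ Sat (AddSubgroup.closure (PrimSet G)) := by
      intro E hE
      have hE' : E ≠ ⊤ := (Finset.mem_erase.1 hE).1
      rw [ir, clh_map (ι.comp E.subtype) ι E.subtype (fun a => rfl)]
      refine ih (Nat.card E) ?_ E rfl _ ?_ _
      · rw [← hN]
        refine lt_of_le_of_ne (Nat.le_of_dvd Nat.card_pos (Subgroup.card_subgroup_dvd_card E)) ?_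
        intro h
        exact hE' (Subgroup.eq_top_of_card_eq E h)
      · exact hι.comp E.subtype_injective
    have hc : ((Nat.card H : ℕ) : ℤ) ≠ 0 := by exact_mod_cast Nat.card_pos.ne'
    refine Sat_of_smul hc ?_
    have h3 : (Nat.card H : ℤ) • clh ι x = clh ι (x ^ (Nat.card H : ℤ) *
        ∏ E ∈ (Finset.univ : Finset (Subgroup H)).erase ⊤, ir E x ^ (κ E * (Nat.card E : ℤ))) -
        ∑ E ∈ (Finset.univ : Finset (Subgroup H)).erase ⊤,
          (κ E * (Nat.card E : ℤ)) • clh ι (ir E x) := by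
      rw [clh_mul, clh_prod, clh_zpow]
      simp only [clh_zpow]
      abel
    rw [h3]
    refine AddSubgroup.sub_mem _ (mem_Sat (AddSubgroup.subset_closure h1)) ?_
    exact AddSubgroup.sum_mem _ fun E hE => AddSubgroup.zsmul_mem _ (h2 E hE) _

/-- Every class has a nonzero multiple which is a sum of primitive classes. -/
theorem mem_sat (z : ColimU G) : z ∈ Sat (AddSubgroup.closure (PrimSet G)) := by
  induction z using colim_induction with
  | h0 => exact AddSubgroup.zero_mem _
  | h2 a b ha hb => exact AddSubgroup.add_mem _ ha hb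
  | h1 C x =>
    have := C.2.1
    have := C.2.2
    let e : Multiplicative (ZMod (Nat.card C.1)) ≃* C.1 := zmodCyclicMulEquiv C.2.2
    have hfin : Finite (Multiplicative (ZMod (Nat.card C.1))) := Finite.of_equiv _ e.toEquiv.symm
    have hcyc : IsCyclic (Multiplicative (ZMod (Nat.card C.1))) :=
      isCyclic_of_surjective e.symm e.symm.surjective
    rw [← clh_subtype, ← clh_map C.1.subtype (C.1.subtype.comp e.toMonoidHom) e.symm.toMonoidHom
      (by
        intro a
        change C.1.subtype (e (e.symm a)) = _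
        rw [e.apply_symm_apply])]
    exact prim_decomp _ _ rfl _ (C.1.subtype_injective.comp e.injective) _

end

end Pool.Agent.H71.WH
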