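import Pool.Agent.H71.WH.Col

/-!
# Restriction of units to subgroups
-/

set_option autoImplicit false
set_option linter.unusedSectionVars false
set_option linter.unusedSimpArgs false

open Matrix
open scoped Classical

universe u v w

namespace Pool.Agent.H71.WH

section Lam

variable {F : Type v} [Group F]

theorem out_mem_iff (D : Subgroup F) (h : F) (x y : F ⧸ D) :
    x.out⁻¹ * h * y.out ∈ D ↔ x = h • y := by
  have h1 : h • y = ((h * y.out : F) : F ⧸ D) := by
    conv_lhs => rw [← QuotientGroup.out_eq' y]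
    rfl
  rw [h1]
  conv_rhs => rw [← QuotientGroup.out_eq' x]
  rw [QuotientGroup.eq, mul_assoc]

/-- The monomial matrix over `ℤ[D]` of left multiplication by `h` on the free right `ℤ[D]`-module
`ℤ[F]`. -/
noncomputable def resMat (D : Subgroup F) (h : F) :
    Matrix (F ⧸ D) (F ⧸ D) (MonoidAlgebra ℤ D) :=
  Matrix.of fun x y => if hh : x.out⁻¹ * h * y.out ∈ D then
    MonoidAlgebra.single (⟨x.out⁻¹ * h * y.out, hh⟩ : D) 1 else 0

/-- The restriction homomorphism `ℤ[F] → Mat_{F/D}(ℤ[D])`. -/
noncomputable def resA (D : Subgroup F) [Fintype (F ⧸ D)] :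
    MonoidAlgebra ℤ F →ₐ[ℤ] Matrix (F ⧸ D) (F ⧸ D) (MonoidAlgebra ℤ D) :=
  MonoidAlgebra.lift ℤ _ F
    { toFun := resMat D
      map_one' := by
        ext x y : 1
        rw [resMat, of_apply, Matrix.one_apply]
        by_cases hxy : x = y
        · subst hxy
          have : x.out⁻¹ * 1 * x.out ∈ D := by simp
          rw [dif_pos this, if_pos rfl, MonoidAlgebra.one_def]
          refine congrArg (fun g : D => MonoidAlgebra.single g (1 : ℤ)) (Subtype.ext ?_)
          simp
        · rw [dif_neg, if_neg hxy]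
          rw [out_mem_iff, one_smul]
          exact hxy
      map_mul' := by
        intro h h'
        ext x z : 1
        rw [Matrix.mul_apply, Finset.sum_eq_single (h' • z)]
        · simp only [resMat, of_apply]
          have h1 : (h' • z).out⁻¹ * h' * z.out ∈ D := (out_mem_iff D h' _ z).2 rfl
          rw [dif_pos h1]
          by_cases h2 : x.out⁻¹ * h * (h' • z).out ∈ D
          · have h3 : x.out⁻¹ * (h * h') * z.out ∈ D := by
              have := D.mul_mem h2 h1
              have e : x.out⁻¹ * h * (h' • z).out * ((h' • z).out⁻¹ * h' * z.out) =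
                x.out⁻¹ * (h * h') * z.out := by group
              rwa [e] at this
            rw [dif_pos h2, dif_pos h3, MonoidAlgebra.single_mul_single, one_mul]
            refine congrArg (fun g : D => MonoidAlgebra.single g (1 : ℤ)) (Subtype.ext ?_)
            simp only [Subgroup.coe_mul]
            group
          · have h3 : ¬ x.out⁻¹ * (h * h') * z.out ∈ D := by
              intro h3
              apply h2
              rw [out_mem_iff] at h3 ⊢
              rw [h3, mul_smul]
            rw [dif_neg h2, dif_neg h3, zero_mul]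
        · intro y _ hy
          simp only [resMat, of_apply]
          have : ¬ y.out⁻¹ * h' * z.out ∈ D := by
            rw [out_mem_iff]
            exact hy
          rw [dif_neg this, mul_zero]
        · intro h1
          exact absurd (Finset.mem_univ _) h1 }

theorem resA_single (D : Subgroup F) [Fintype (F ⧸ D)] (h : F) (r : ℤ) (x y : F ⧸ D) :
    resA D (MonoidAlgebra.single h r) x y = if hh : x.out⁻¹ * h * y.out ∈ D then
      MonoidAlgebra.single (⟨x.out⁻¹ * h * y.out, hh⟩ : D) r else 0 := by
  rw [resA, MonoidAlgebra.lift_single]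
  change r • (resMat D h) x y = _
  rw [resMat, of_apply]
  split_ifs
  · rw [MonoidAlgebra.smul_single, smul_eq_mul, mul_one]
  · rw [smul_zero]

/-- the restriction as a ring homomorphism -/
noncomputable def resR (D : Subgroup F) [Fintype (F ⧸ D)] :
    MonoidAlgebra ℤ F →+* Matrix (F ⧸ D) (F ⧸ D) (MonoidAlgebra ℤ D) := (resA D).toRingHom

end Lam

section Comm

variable {H : Type w} [CommGroup H] [Finite H]

theorem tr_resR (E : Subgroup H) [Fintype (H ⧸ E)] (c : E) (x : MonoidAlgebra ℤ H) :
    fn (dlt c) (trace (resR E x)) = (Nat.card (H ⧸ E) : ℤ) * fn (dlt (c : H)) x := by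
  induction x using MonoidAlgebra.induction_linear with
  | zero => simp
  | add x y hx hy => rw [map_add, trace_add, map_add, hx, hy, map_add, mul_add]
  | single h n =>
    rw [fn_single, trace, map_sum]
    have h1 : ∀ q : H ⧸ E, fn (dlt c) ((resR E (MonoidAlgebra.single h n)).diag q) =
        n * dlt (c : H) h := by
      intro q
      change fn (dlt c) (resA E (MonoidAlgebra.single h n) q q) = _
      rw [resA_single]
      have h2 : q.out⁻¹ * h * q.out = h := by
        rw [mul_comm, ← mul_assoc, mul_inv_cancel, one_mul]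
      by_cases hh : q.out⁻¹ * h * q.out ∈ E
      · rw [dif_pos hh, fn_single]
        congr 1
        unfold dlt
        congr 1
        rw [Subtype.ext_iff]
        change (q.out⁻¹ * h * q.out = (c : H)) = (h = (c : H))
        rw [h2]
      · rw [dif_neg hh, map_zero, dlt, if_neg, mul_zero]
        intro h3
        apply hh
        rw [h2, h3]
        exact c.2
    simp only [h1]
    rw [Finset.sum_const, Finset.card_univ, Nat.card_eq_fintype_card, nsmul_eq_mul]

/-- The restriction of units, given by the determinant. -/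
noncomputable def resU (E : Subgroup H) [Fintype (H ⧸ E)] :
    (MonoidAlgebra ℤ H)ˣ →* (MonoidAlgebra ℤ E)ˣ :=
  (Units.map (detMonoidHom : Matrix (H ⧸ E) (H ⧸ E) (MonoidAlgebra ℤ E) →* MonoidAlgebra ℤ E)).comp
    (Units.map (resR E).toMonoidHom)

theorem resU_val (E : Subgroup H) [Fintype (H ⧸ E)] (x : (MonoidAlgebra ℤ H)ˣ) :
    (resU E x : MonoidAlgebra ℤ E) = det (resR E (x : MonoidAlgebra ℤ H)) := rfl

theorem LU_resU (E : Subgroup H) [Fintype (H ⧸ E)] (c : E) (x : (MonoidAlgebra ℤ H)ˣ) :
    LU (dlt c) (resU E x) = (Nat.card (H ⧸ E) : ℚ_[2]) * LU (dlt (c : H)) x := by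
  have h1 : ((resU E x ^ N8 H : (MonoidAlgebra ℤ E)ˣ) : MonoidAlgebra ℤ E) =
      det (resR E ((x ^ N8 H : (MonoidAlgebra ℤ H)ˣ) : MonoidAlgebra ℤ H)) := by
    rw [← map_pow, resU_val]
  have h2 : C8 (resR E ((x ^ N8 H : (MonoidAlgebra ℤ H)ˣ) : MonoidAlgebra ℤ H)) :=
    (C8_pow_N8 x).map _
  have h3 : LU (dlt c) (resU E x) = (N8 H : ℚ_[2])⁻¹ *
      L (fn (dlt c)) ((resU E x ^ N8 H : (MonoidAlgebra ℤ E)ˣ) : MonoidAlgebra ℤ E) :=
    LU_eq (dlt c) (fun a b => by rw [mul_comm]) _ (N8 H) N8_ne_zero (by
      rw [h1]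
      exact det_C8 h2)
  rw [h3, h1, LU]
  have h4 := L_det (fn (dlt c)) h2.cong
  have h5 : L (fn (dlt c)) (det (resR E ((x ^ N8 H : (MonoidAlgebra ℤ H)ˣ) :
      MonoidAlgebra ℤ H))) = (Nat.card (H ⧸ E) : ℚ_[2]) *
      L (fn (dlt (c : H))) ((x ^ N8 H : (MonoidAlgebra ℤ H)ˣ) : MonoidAlgebra ℤ H) := by
    refine h4.trans ?_
    rw [L_map, L, L]
    have h6 := tl_zsmul (fn (dlt (c : H))) (pull (resR E) (ttr (fn (dlt c)) (H ⧸ E)))
      (((x ^ N8 H : (MonoidAlgebra ℤ H)ˣ) : MonoidAlgebra ℤ H) - 1) (Nat.card (H ⧸ E)) (by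
        intro r
        rw [pull_apply, ttr_apply]
        exact tr_resR E c r)
    rw [h6]
    norm_cast
  rw [h5]
  ring

end Comm

end Pool.Agent.H71.WH
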