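import Pool.Agent.H71.WH.Skew

/-!
# Independence of the choice of `z`
-/

set_option autoImplicit false

open Matrix

universe u v

namespace Pool.Agent.H71.WH

namespace TwTr

variable {M : Type u} [Ring M] (t : TwTr M)

theorem cond_one {y : M} (hy : y + t.s y = 0) : ((1 : Mˣ) : M) = 1 + y + t.s y := by
  rw [add_assoc, hy, add_zero, Units.val_one]

/-- the value of `lam` on `1 + y (1 + σ)` for `y + s y = 0` -/
noncomputable def lamY (y : M) (hy : y + t.s y = 0) : ℚ_[2] := t.lam (t.vU y 1 (t.cond_one hy))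

theorem lam_congr {z z' : M} {g g' : Mˣ} (h : (g : M) = 1 + z + t.s z)
    (h' : (g' : M) = 1 + z' + t.s z') (hz : z = z') : t.lam (t.vU z g h) = t.lam (t.vU z' g' h') := by
  subst hz
  have : g = g' := Units.ext (h.trans h'.symm)
  subst this
  rfl

theorem lamY_add {y y' : M} (hy : y + t.s y = 0) (hy' : y' + t.s y' = 0)
    (h : (y + y') + t.s (y + y') = 0) : t.lamY (y + y') h = t.lamY y hy + t.lamY y' hy' := by
  rw [lamY, lamY, lamY, ← lam_mul,
    t.vU_mul (t.cond_one hy) (t.cond_one hy') (t.mul_add_cond (t.cond_one hy) (t.cond_one hy'))]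
  apply t.lam_congr
  rw [Units.val_one, mul_one]

theorem pow_cond {y : M} (hy : y + t.s y = 0) (k : ℕ) : (2 ^ k * y) + t.s (2 ^ k * y) = 0 := by
  rw [map_mul, map_pow, map_ofNat, ← mul_add, hy, mul_zero]

theorem lamY_pow {y : M} (hy : y + t.s y = 0) (k : ℕ) :
    t.lamY (2 ^ k * y) (t.pow_cond hy k) = 2 ^ k * t.lamY y hy := by
  induction k with
  | zero =>
    have e : t.lamY (2 ^ 0 * y) (t.pow_cond hy 0) = t.lamY y hy := by
      rw [lamY, lamY]
      apply t.lam_congr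
      rw [pow_zero, one_mul]
    rw [e, pow_zero, one_mul]
  | succ k ih =>
    have e : (2 : M) ^ (k + 1) * y = 2 ^ k * y + 2 ^ k * y := by
      rw [pow_succ', mul_assoc, two_mul]
    have h2 : (2 ^ k * y + 2 ^ k * y) + t.s (2 ^ k * y + 2 ^ k * y) = 0 := by
      rw [← e]; exact t.pow_cond hy (k + 1)
    have h3 : t.lamY (2 ^ (k + 1) * y) (t.pow_cond hy (k + 1)) =
        t.lamY (2 ^ k * y + 2 ^ k * y) h2 := by
      rw [lamY, lamY]
      exact t.lam_congr _ _ e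
    rw [h3, t.lamY_add (t.pow_cond hy k) (t.pow_cond hy k), ih]
    ring

theorem κ_eq_zero {y : M} (hy : y + t.s y = 0) : t.κ y = 0 := by
  have h1 := t.κ_s y
  rw [eq_neg_of_add_eq_zero_right hy, map_neg] at h1
  omega

theorem κ_sq_eq_zero {y : M} (hy : y + t.s y = 0) : t.κ (y * y) = 0 := by
  have h1 := t.tw y y
  rw [eq_neg_of_add_eq_zero_right hy, mul_neg, map_neg] at h1
  omega

theorem norm_half : ‖(-(1 / 2) : ℚ_[2])‖ = 2 := by
  rw [norm_neg, norm_div, norm_one]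
  have : ‖(2 : ℚ_[2])‖ = (2 : ℝ)⁻¹ := by
    have := Padic.norm_p (p := 2)
    exact_mod_cast this
  rw [this]
  norm_num

theorem norm_two_pow (k : ℕ) : ‖(2 : ℚ_[2]) ^ k‖ = ((2 : ℝ) ^ k)⁻¹ := by
  have : ‖(2 : ℚ_[2])‖ = (2 : ℝ)⁻¹ := by
    have := Padic.norm_p (p := 2)
    exact_mod_cast this
  rw [norm_pow, this, inv_pow]

theorem norm_lamY_pow {y : M} (hy : y + t.s y = 0) (k : ℕ) :
    ‖t.lamY (2 ^ k * y) (t.pow_cond hy k)‖ ≤ 2 * ((2 : ℝ) ^ (2 * k))⁻¹ := by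
  rw [lamY, lam, norm_mul, norm_half, inv_θ]
  apply mul_le_mul_of_nonneg_left _ (by norm_num)
  rw [L, add_sub_cancel_left]
  have hs : t.s y = -y := eq_neg_of_add_eq_zero_right hy
  have hc : ∀ a : M, a * 2 ^ k = 2 ^ k * a := fun a => (two_pow_comm k a).symm
  have hsp : t.s (2 ^ k * y) = -(2 ^ k * y) := by
    rw [map_mul, map_pow, map_ofNat, hs, mul_neg]
  have e1 : (2 : t.skew) * t.el (2 ^ k * y * ((1⁻¹ : Mˣ) : M) * t.s (2 ^ k * y))
      (-(2 ^ k * y * ((1⁻¹ : Mˣ) : M) * (1 + t.s (2 ^ k * y)))) =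
      2 ^ (k + 1) * t.el (-(2 ^ k * (y * y))) (-y + 2 ^ k * (y * y)) := by
    have h2 : ∀ (n : ℕ) (a b : M), (2 : t.skew) ^ n * t.el a b = t.el (2 ^ n * a) (2 ^ n * b) := by
      intro n a b
      induction n with
      | zero => simp
      | succ n ih =>
        rw [pow_succ', mul_assoc, ih, two_mul, el_add, pow_succ', mul_assoc, mul_assoc, two_mul,
          two_mul]
    have h3 := h2 1
    simp only [pow_one] at h3
    rw [h3, h2, inv_one, Units.val_one, mul_one, hsp]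
    have h4 : (2 : M) ^ k * y * (2 ^ k * y) = 2 ^ k * (2 ^ k * (y * y)) := by
      rw [mul_assoc, ← mul_assoc y, hc y, mul_assoc]
    congr 1
    · rw [mul_neg, mul_neg, mul_neg, h4, pow_succ', mul_assoc]
    · have h5 : -(2 ^ k * y * (1 + -(2 ^ k * y))) = 2 ^ k * (-y + 2 ^ k * (y * y)) := by
        rw [mul_add (2 ^ k * y), mul_one, mul_neg (2 ^ k * y), h4, mul_add (2 ^ k) (-y),
          mul_neg (2 ^ k) y]
        abel
      rw [h5, pow_succ', mul_assoc]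
  rw [e1]
  apply norm_tl_le
  rw [map_two_pow_mul, τ_el, map_add, map_neg, map_two_pow_mul, t.κ_eq_zero hy,
    t.κ_sq_eq_zero hy]
  simp

theorem lamY_eq_zero {y : M} (hy : y + t.s y = 0) : t.lamY y hy = 0 := by
  rw [← norm_eq_zero]
  by_contra hne
  have hpos : 0 < ‖t.lamY y hy‖ := lt_of_le_of_ne (norm_nonneg _) (Ne.symm hne)
  have h1 : ∀ k : ℕ, ‖t.lamY y hy‖ ≤ 2 * ((1 : ℝ) / 2) ^ k := by
    intro k
    have h2 := t.norm_lamY_pow hy k
    rw [t.lamY_pow hy k, norm_mul, norm_two_pow] at h2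
    have hp : (0 : ℝ) < 2 ^ k := by positivity
    have h3 : ((2 : ℝ) ^ k) * (((2 : ℝ) ^ k)⁻¹ * ‖t.lamY y hy‖) ≤
        (2 : ℝ) ^ k * (2 * ((2 : ℝ) ^ (2 * k))⁻¹) := mul_le_mul_of_nonneg_left h2 hp.le
    rw [← mul_assoc, mul_inv_cancel₀ hp.ne', one_mul] at h3
    refine h3.trans (le_of_eq ?_)
    have e : (2 : ℝ) ^ (2 * k) = 2 ^ k * 2 ^ k := by rw [two_mul, pow_add]
    rw [e, mul_inv, one_div, inv_pow]
    field_simp
  obtain ⟨k, hk⟩ := exists_pow_lt_of_lt_one (show 0 < ‖t.lamY y hy‖ / 2 by positivity)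
    (show (1 : ℝ) / 2 < 1 by norm_num)
  have := h1 k
  linarith

/-- `lam (1 + z (1 + σ))` does not depend on `z` -/
theorem lam_indep {z z' : M} {g g' : Mˣ} (h : (g : M) = 1 + z + t.s z)
    (h' : (g' : M) = 1 + z' + t.s z') (hg : g = g') : t.lam (t.vU z g h) = t.lam (t.vU z' g' h') := by
  subst hg
  have hs : t.s ((g⁻¹ : Mˣ) : M) = (g⁻¹ : Mˣ) := t.s_inv (by rw [h]; exact t.s_self z)
  set y := (z' - z) * ((g⁻¹ : Mˣ) : M) with hy
  have hy0 : y + t.s y = 0 := by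
    rw [hy, map_mul, map_sub, hs, ← add_mul]
    have : z' - z + (t.s z' - t.s z) = 0 := by
      have e : z' - z + (t.s z' - t.s z) = (1 + z' + t.s z') - (1 + z + t.s z) := by abel
      rw [e, ← h, ← h', sub_self]
    rw [this, zero_mul]
  have h1 := t.vU_mul (t.cond_one hy0) h (t.mul_add_cond (t.cond_one hy0) h)
  have h2 : t.lam (t.vU z' g h') = t.lam (t.vU (y * g + z) (1 * g)
      (t.mul_add_cond (t.cond_one hy0) h)) := by
    apply t.lam_congr
    rw [hy, mul_assoc, Units.inv_mul, mul_one]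
    abel
  rw [h2, ← h1, lam_mul]
  have h3 := t.lamY_eq_zero hy0
  rw [lamY] at h3
  rw [h3, zero_add]

/-- units of the form `1 + z + s z` -/
def Adm (g : Mˣ) : Prop := ∃ z, (g : M) = 1 + z + t.s z

open scoped Classical in
/-- the homomorphism `Lam` -/
noncomputable def Lam (g : Mˣ) : ℚ_[2] :=
  if h : t.Adm g then t.lam (t.vU h.choose g h.choose_spec) else 0

theorem Lam_eq {z : M} {g : Mˣ} (h : (g : M) = 1 + z + t.s z) : t.Lam g = t.lam (t.vU z g h) := by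
  have h' : t.Adm g := ⟨z, h⟩
  rw [Lam, dif_pos h']
  exact t.lam_indep _ _ rfl

theorem Adm.mul {g g' : Mˣ} (h : t.Adm g) (h' : t.Adm g') : t.Adm (g * g') := by
  obtain ⟨z, hz⟩ := h
  obtain ⟨z', hz'⟩ := h'
  exact ⟨_, t.mul_add_cond hz hz'⟩

theorem Lam_mul {g g' : Mˣ} (h : t.Adm g) (h' : t.Adm g') :
    t.Lam (g * g') = t.Lam g + t.Lam g' := by
  obtain ⟨z, hz⟩ := h
  obtain ⟨z', hz'⟩ := h'
  rw [t.Lam_eq (t.mul_add_cond hz hz'), ← t.vU_mul hz hz', lam_mul, t.Lam_eq hz, t.Lam_eq hz']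

theorem conj_cond {z : M} {g w : Mˣ} (hz : (g : M) = 1 + z + t.s z) (hw : t.s w = w) :
    ((w⁻¹ * g * w : Mˣ) : M) = 1 + ((w⁻¹ : Mˣ) * z * w) + t.s ((w⁻¹ : Mˣ) * z * w) := by
  rw [map_mul, map_mul, t.s_inv hw, hw, Units.val_mul, Units.val_mul, hz]
  have : ((w⁻¹ : Mˣ) : M) * (1 + z + t.s z) * w = (w⁻¹ : Mˣ) * w + (w⁻¹ : Mˣ) * z * w +
    (w⁻¹ : Mˣ) * t.s z * w := by noncomm_ring
  rw [this, Units.inv_mul]

theorem Adm.conj {g w : Mˣ} (h : t.Adm g) (hw : t.s w = w) : t.Adm (w⁻¹ * g * w) := by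
  obtain ⟨z, hz⟩ := h
  exact ⟨_, t.conj_cond hz hw⟩

/-- a unit of `M` as a unit of the skew ring -/
def ofU (w : Mˣ) : t.skewˣ where
  val := t.el w 0
  inv := t.el (w⁻¹ : Mˣ) 0
  val_inv := by rw [el_mul, ← el_one]; simp
  inv_val := by rw [el_mul, ← el_one]; simp

theorem Lam_conj {g w : Mˣ} (h : t.Adm g) (hw : t.s w = w) : t.Lam (w⁻¹ * g * w) = t.Lam g := by
  obtain ⟨z, hz⟩ := h
  rw [t.Lam_eq (t.conj_cond hz hw), t.Lam_eq hz, ← t.lam_conj (t.vU z g hz) (t.ofU w)]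
  congr 1
  apply Units.ext
  rw [Units.val_mul, Units.val_mul, vU_val, vU_val]
  change _ = t.el ((w⁻¹ : Mˣ) : M) 0 * t.el (1 + z) z * t.el (w : M) 0
  rw [el_mul, el_mul, hw]
  congr 1
  · rw [zero_mul, add_zero, map_zero, mul_zero, add_zero]
    have : ((w⁻¹ : Mˣ) : M) * (1 + z) * w = (w⁻¹ : Mˣ) * w + (w⁻¹ : Mˣ) * z * w := by noncomm_ring
    rw [this, Units.inv_mul]
  · simp

end TwTr

end Pool.Agent.H71.WH
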