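import Pool.Agent.H71.WH.Skew2

/-!
# Naturality and values of `Lam`
-/

set_option autoImplicit false

open Matrix

universe u v

namespace Pool.Agent.H71.WH

theorem nonUnital_pow {R : Type u} {S : Type v} [Ring R] [Ring S] (J : R →ₙ+* S) (x : R) (k : ℕ) :
    J x ^ (k + 1) = J (x ^ (k + 1)) := by
  induction k with
  | zero => simp
  | succ k ih => rw [pow_succ, ih, pow_succ x (k + 1), map_mul]

theorem tl_nonUnital {R : Type u} {S : Type v} [Ring R] [Ring S] (J : R →ₙ+* S) (τ : R →+ ℤ)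
    (τ' : S →+ ℤ) (h : ∀ x, τ' (J x) = τ x) (x : R) : tl τ' (J x) = tl τ x := by
  apply tl_congr
  intro k
  rw [nonUnital_pow, h]

namespace TwTr

variable {M : Type u} [Ring M] (t : TwTr M) {M' : Type v} [Ring M'] (t' : TwTr M')

/-- the extension of a morphism to the skew rings -/
def skewMap (j : M →ₙ+* M') (hs : ∀ x, j (t.s x) = t'.s (j x)) : t.skew →ₙ+* t'.skew where
  toFun V := t'.el (j (t.re V)) (j (t.im V))
  map_mul' V W := by
    obtain ⟨a, b, rfl⟩ := t.exists_el V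
    obtain ⟨c, d, rfl⟩ := t.exists_el W
    rw [el_mul, re_el, im_el, re_el, im_el, re_el, im_el, el_mul]
    simp only [map_add, map_mul, hs]
  map_zero' := by
    rw [← el_zero, re_el, im_el, map_zero, el_zero]
  map_add' V W := by
    obtain ⟨a, b, rfl⟩ := t.exists_el V
    obtain ⟨c, d, rfl⟩ := t.exists_el W
    rw [el_add, re_el, im_el, re_el, im_el, re_el, im_el, el_add, map_add, map_add]

theorem skewMap_el (j : M →ₙ+* M') (hs : ∀ x, j (t.s x) = t'.s (j x)) (a b : M) :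
    t.skewMap t' j hs (t.el a b) = t'.el (j a) (j b) := by
  change t'.el (j (t.re (t.el a b))) (j (t.im (t.el a b))) = _
  rw [re_el, im_el]

/-- Naturality of `Lam` with respect to (possibly non-unital) morphisms. -/
theorem Lam_map (j : M →ₙ+* M') (hs : ∀ x, j (t.s x) = t'.s (j x)) (hκ : ∀ x, t'.κ (j x) = t.κ x)
    {g : Mˣ} {g' : M'ˣ} (hg : t.Adm g) (hg' : (g' : M') = j g + (1 - j 1)) :
    t'.Lam g' = t.Lam g := by
  obtain ⟨z, hz⟩ := hg
  have hz' : (g' : M') = 1 + j z + t'.s (j z) := by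
    rw [hg', hz, ← hs, map_add, map_add]
    abel
  have he : ∀ x : M, j x * (1 - j 1) = 0 := by
    intro x
    rw [mul_sub, mul_one, ← map_mul, mul_one, sub_self]
  have he' : ∀ x : M, (1 - j 1) * j x = 0 := by
    intro x
    rw [sub_mul, one_mul, ← map_mul, one_mul, sub_self]
  have hinv : ((g'⁻¹ : M'ˣ) : M') = j (g⁻¹ : Mˣ) + (1 - j 1) := by
    have h1 : (g' : M') * (j (g⁻¹ : Mˣ) + (1 - j 1)) = 1 := by
      rw [hg', add_mul, mul_add, mul_add, ← map_mul, Units.mul_inv, he, he', mul_sub, mul_one,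
        he' 1]
      abel
    calc ((g'⁻¹ : M'ˣ) : M') = (g'⁻¹ : M'ˣ) * ((g' : M') * (j (g⁻¹ : Mˣ) + (1 - j 1))) := by
          rw [h1, mul_one]
      _ = _ := by rw [← mul_assoc, Units.inv_mul, one_mul]
  rw [t'.Lam_eq hz', t.Lam_eq hz, lam, lam, inv_θ, inv_θ, L, L, add_sub_cancel_left,
    add_sub_cancel_left, hinv]
  congr 1
  have h1 : j z * (j ((g⁻¹ : Mˣ) : M) + (1 - j 1)) = j (z * (g⁻¹ : Mˣ)) := by
    rw [mul_add, he, add_zero, map_mul]
  have h2 : (2 : t'.skew) * t'.el (j z * (j ((g⁻¹ : Mˣ) : M) + (1 - j 1)) * t'.s (j z))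
      (-(j z * (j ((g⁻¹ : Mˣ) : M) + (1 - j 1)) * (1 + t'.s (j z)))) =
      t.skewMap t' j hs (2 * t.el (z * (g⁻¹ : Mˣ) * t.s z) (-(z * (g⁻¹ : Mˣ) * (1 + t.s z)))) := by
    rw [two_mul, two_mul, map_add, skewMap_el, h1, ← hs]
    have h3 : t'.el (j (z * (g⁻¹ : Mˣ)) * j (t.s z)) (-(j (z * (g⁻¹ : Mˣ)) * (1 + j (t.s z)))) =
      t'.el (j (z * (g⁻¹ : Mˣ) * t.s z)) (j (-(z * (g⁻¹ : Mˣ) * (1 + t.s z)))) := by
      congr 1
      · rw [map_mul j (z * ((g⁻¹ : Mˣ) : M))]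
      · rw [mul_add, mul_one, mul_add, mul_one, map_neg, map_add, map_mul j (z * ((g⁻¹ : Mˣ) : M))]
    rw [h3]
  rw [h2]
  apply tl_nonUnital
  intro V
  obtain ⟨a, b, rfl⟩ := t.exists_el V
  rw [skewMap_el, τ_el, τ_el, hκ]

/-- Vanishing of `Lam` for `z` in an off-diagonal corner. -/
theorem Lam_corner {p z : M} {g : Mˣ} (hp : p * t.s p = 0) (hp' : t.s p * p = 0)
    (h1 : p * z = z) (h2 : z * p = z) (h : (g : M) = 1 + z + t.s z) : t.Lam g = 0 := by
  have s1 : t.s p * t.s z = t.s z := by rw [← map_mul, h1]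
  have s2 : t.s z * t.s p = t.s z := by rw [← map_mul, h2]
  have c1 : p * t.s z = 0 := by rw [← s1, ← mul_assoc, hp, zero_mul]
  have c2 : t.s z * p = 0 := by rw [← s2, mul_assoc, hp', mul_zero]
  have hc : (g : M) * p = p * g := by
    rw [h]
    have e1 : (1 + z + t.s z) * p = p + z * p + t.s z * p := by noncomm_ring
    have e2 : p * (1 + z + t.s z) = p + p * z + p * t.s z := by noncomm_ring
    rw [e1, e2, h1, h2, c1, c2]
  have hc' : ((g⁻¹ : Mˣ) : M) * p = p * (g⁻¹ : Mˣ) := by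
    have : Commute (g : M) p := hc
    exact (this.units_inv_left).eq
  have e1 : z * ((g⁻¹ : Mˣ) : M) * t.s z = 0 := by
    calc z * ((g⁻¹ : Mˣ) : M) * t.s z = z * p * ((g⁻¹ : Mˣ) : M) * (t.s p * t.s z) := by
          rw [h2, s1]
      _ = z * (p * ((g⁻¹ : Mˣ) : M)) * (t.s p * t.s z) := by rw [mul_assoc z p]
      _ = z * ((g⁻¹ : Mˣ) : M) * (p * t.s p) * t.s z := by rw [← hc']; simp only [mul_assoc]
      _ = 0 := by rw [hp, mul_zero, zero_mul]
  set b := -(z * ((g⁻¹ : Mˣ) : M) * (1 + t.s z)) with hb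
  have e2 : b = -(z * ((g⁻¹ : Mˣ) : M)) := by
    rw [hb, mul_add, mul_one, e1, add_zero]
  have hb1 : p * b = b := by
    rw [e2, mul_neg, ← mul_assoc, h1]
  have hb2 : b * p = b := by
    rw [e2, neg_mul, mul_assoc, hc', ← mul_assoc, h2]
  have hb3 : b * t.s b = 0 := by
    have : t.s b = t.s p * t.s b := by rw [← map_mul, hb1]
    rw [this, ← mul_assoc, ← hb2, mul_assoc b p, hp, mul_zero, zero_mul]
  have hb4 : t.κ b = 0 := by
    have h3 := t.tw p b
    rw [hb1] at h3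
    rw [h3, ← hb2, mul_assoc, hp, mul_zero, map_zero]
  rw [t.Lam_eq h, lam, inv_θ, L, add_sub_cancel_left, e1, ← hb]
  have e3 : (2 : t.skew) * t.el 0 b = t.el 0 (b + b) := by
    rw [two_mul, el_add, add_zero]
  have e4 : t.el 0 (b + b) * t.el 0 (b + b) = 0 := by
    rw [el_mul, ← el_zero]
    congr 1
    · rw [map_add, mul_add, add_mul, hb3]
      simp
    · simp
  have e5 : tl t.τ (t.el 0 (b + b)) = tl t.τ 0 := by
    apply tl_congr
    intro k
    rcases k with _ | k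
    · rw [zero_add, pow_one, pow_one, τ_el, map_add, hb4, map_zero, add_zero]
    · rw [pow_succ, pow_succ, mul_assoc, e4, mul_zero, zero_pow (by omega)]
  rw [e3, e5, tl_zero, mul_zero]

theorem τ_N (x : M) : t.τ (t.el x x) = t.κ x := t.τ_el x x

/-- The value of `Lam` on units `1 + 4 x` with `s x = x`. -/
theorem Lam_four {x : M} (hx : t.s x = x) {g : Mˣ} (h : (g : M) = 1 + 4 * x) :
    t.Lam g = 1 / 2 * L t.κ (g : M) := by
  have hz : (g : M) = 1 + 2 * x + t.s (2 * x) := by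
    rw [h, map_mul, map_ofNat, hx]
    noncomm_ring
  rw [t.Lam_eq hz]
  -- `v = 1 + 2 w`, `θ v = 1 + 2 w'`
  set v := t.vU (2 * x) g hz with hv
  have hv1 : (v : t.skew) = 1 + 2 * t.el x x := by
    rw [hv, vU_val, two_mul (t.el x x), el_add, ← el_one, el_add]
    congr 1
    · rw [two_mul]
    · rw [two_mul, zero_add]
  have hθ : t.θ v = 1 + 2 * t.el x (-x) := by
    rw [hv1, map_add, map_one, map_mul, map_ofNat, θ_el]
  have hc1 : Cong (v : t.skew) := ⟨_, hv1⟩
  have hc2 : Cong (t.θ v) := ⟨_, hθ⟩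
  have hc3 : Cong (((v⁻¹ : t.skewˣ) : t.skew)) := hc1.of_mul_eq_one (Units.inv_mul v)
  have e1 : L t.τ (t.θ v) = -L t.τ (v : t.skew) := by
    rw [L_map]
    have : pull t.θ t.τ = -t.τ := by
      apply AddMonoidHom.ext
      intro V
      rw [pull_apply, τ_θ]
      rfl
    rw [this, L, tl_neg]
    rfl
  have e2 : t.lam v = L t.τ (v : t.skew) := by
    rw [lam, L_mul t.τ t.τ_comm hc3 hc2, L_inv t.τ t.τ_comm hc1 (Units.inv_mul v), e1]
    ring
  rw [e2, hv1, h, L, L, add_sub_cancel_left, add_sub_cancel_left]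
  have hpow : ∀ k : ℕ, (2 * t.el x x) ^ (k + 1) = t.el (2 ^ (2 * k + 1) * x ^ (k + 1))
      (2 ^ (2 * k + 1) * x ^ (k + 1)) := by
    intro k
    induction k with
    | zero =>
      simp only [zero_add, pow_one, mul_zero]
      rw [two_mul (t.el x x), el_add, two_mul x]
    | succ k ih =>
      rw [pow_succ, ih, two_mul (t.el x x), el_add, el_mul, map_add, hx]
      have hc : x ^ (k + 1) * (x + x) = 2 * x ^ (k + 1 + 1) := by
        rw [mul_add, ← pow_succ, ← two_mul]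
      have : 2 ^ (2 * k + 1) * x ^ (k + 1) * (x + x) + 2 ^ (2 * k + 1) * x ^ (k + 1) * (x + x) =
          2 ^ (2 * (k + 1) + 1) * x ^ (k + 1 + 1) := by
        rw [mul_assoc, hc, ← mul_assoc, ← two_mul, ← mul_assoc, ← pow_succ, ← pow_succ']
        rfl
      rw [this]
  rw [tl, tl, ← tsum_mul_left]
  congr 1
  funext k
  rw [tlTerm, tlTerm, hpow, τ_el, map_two_pow_mul]
  have h4 : (4 * x) ^ (k + 1) = 2 ^ (2 * (k + 1)) * x ^ (k + 1) := by
    rw [(Commute.ofNat_left 4 x).mul_pow, pow_mul]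
    norm_num
  rw [h4, map_two_pow_mul]
  push_cast
  rw [show 2 * (k + 1) = 2 * k + 1 + 1 by ring, pow_succ (2 : ℚ_[2]) (2 * k + 1)]
  ring

end TwTr

end Pool.Agent.H71.WH
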