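import Pool.Agent.H71.WH.Gam4

/-!
# Units of integral group rings congruent to `1` modulo `8`, logarithm of determinants
-/

set_option autoImplicit false
set_option linter.unusedSectionVars false
set_option linter.unusedSimpArgs false

open Matrix

universe u v w

namespace Pool.Agent.H71.WH

section C8

variable {R : Type u} [Ring R]

/-- `w` is congruent to `1` modulo `8` -/
def C8 (w : R) : Prop := ∃ x : R, w = 1 + 8 * x

theorem C8.cong {w : R} (h : C8 w) : Cong w := by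
  obtain ⟨x, rfl⟩ := h
  exact ⟨4 * x, by noncomm_ring⟩

theorem C8.one : C8 (1 : R) := ⟨0, by simp⟩

theorem C8.mul {w w' : R} (h : C8 w) (h' : C8 w') : C8 (w * w') := by
  obtain ⟨x, rfl⟩ := h
  obtain ⟨y, rfl⟩ := h'
  exact ⟨x + y + 8 * (x * y), by noncomm_ring⟩

theorem C8.pow {w : R} (h : C8 w) (n : ℕ) : C8 (w ^ n) := by
  induction n with
  | zero => rw [pow_zero]; exact C8.one
  | succ n ih => rw [pow_succ]; exact ih.mul h

theorem C8.map {S : Type v} [Ring S] (φ : R →+* S) {w : R} (h : C8 w) : C8 (φ w) := by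
  obtain ⟨x, rfl⟩ := h
  refine ⟨φ x, ?_⟩
  rw [map_add, map_mul, map_one, map_ofNat]

theorem C8.inv {u : Rˣ} (h : C8 (u : R)) : C8 ((u⁻¹ : Rˣ) : R) := by
  obtain ⟨x, hx⟩ := h
  refine ⟨-((u⁻¹ : Rˣ) * x), ?_⟩
  have h1 : ((u⁻¹ : Rˣ) : R) * (1 + 8 * x) = 1 := by rw [← hx, Units.inv_mul]
  have h2 : ((u⁻¹ : Rˣ) : R) * (1 + 8 * x) = (u⁻¹ : Rˣ) + 8 * ((u⁻¹ : Rˣ) * x) := by noncomm_ring
  rw [h2] at h1
  rw [mul_neg, ← h1]
  abel

end C8

section LogDet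

theorem norm_tl_sub_le {R : Type u} [Ring R] (τ : R →+ ℤ) (r : R) (n : ℕ) :
    ‖tl τ (2 ^ (n + 1) * r) - ((2 ^ (n + 1) * τ r : ℤ) : ℚ_[2])‖ ≤ ((2 : ℝ) ^ (2 * n))⁻¹ := by
  have hsum : Summable (tlTerm τ (2 ^ (n + 1) * r)) := by
    have : (2 : R) ^ (n + 1) * r = 2 * (2 ^ n * r) := by rw [pow_succ', mul_assoc]
    rw [this]
    exact tl_summable τ _
  have h2 : tlTerm τ (2 ^ (n + 1) * r) 0 = (((2 ^ (n + 1) * τ r : ℤ)) : ℚ_[2]) := by
    rw [tlTerm, zero_add, pow_one, map_two_pow_mul]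
    simp
  rw [tl, hsum.tsum_eq_zero_add, h2, add_sub_cancel_left]
  exact IsUltrametricDist.norm_tsum_le_of_forall_le (fun j => term_le_aux τ r n j)

variable {B : Type u} [CommRing B] {ι : Type v} [Fintype ι] [DecidableEq ι] (τ : B →+ ℤ)

/-- `τ ∘ tr` -/
def ttr (τ : B →+ ℤ) (ι : Type v) [Fintype ι] : Matrix ι ι B →+ ℤ :=
  τ.comp (Matrix.traceAddMonoidHom ι B)

theorem ttr_apply (W : Matrix ι ι B) : ttr τ ι W = τ (trace W) := rfl

theorem ttr_comm (V W : Matrix ι ι B) : ttr τ ι (V * W) = ttr τ ι (W * V) := by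
  rw [ttr_apply, ttr_apply, trace_mul_comm]

theorem det_two_pow (n : ℕ) (X : Matrix ι ι B) :
    ∃ y : B, det (1 + 2 ^ n * X) = 1 + 2 ^ n * (trace X + 2 ^ n * y) := by
  have h := det_one_add_smul ((2 : B) ^ n) X
  have h1 : (2 : B) ^ n • X = 2 ^ n * X := by
    have : (2 : Matrix ι ι B) ^ n = (2 : B) ^ n • (1 : Matrix ι ι B) := by
      have h2 : (2 : Matrix ι ι B) = (2 : B) • (1 : Matrix ι ι B) := by
        rw [two_smul, one_add_one_eq_two]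
      rw [h2, smul_pow, one_pow]
    rw [this, smul_mul_assoc, one_mul]
  rw [h1] at h
  exact ⟨(det (1 + (Polynomial.X : Polynomial B) • X.map Polynomial.C)).divX.divX.eval (2 ^ n),
    by rw [h]; ring⟩

theorem det_cong {W : Matrix ι ι B} (h : Cong W) : Cong (det W) := by
  obtain ⟨X, rfl⟩ := h
  obtain ⟨y, hy⟩ := det_two_pow 1 X
  rw [pow_one, pow_one] at hy
  exact ⟨_, hy⟩

theorem det_C8 {W : Matrix ι ι B} (h : C8 W) : C8 (det W) := by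
  obtain ⟨X, rfl⟩ := h
  obtain ⟨y, hy⟩ := det_two_pow 3 X
  refine ⟨trace X + 2 ^ 3 * y, ?_⟩
  have e1 : (2 : Matrix ι ι B) ^ 3 = 8 := by norm_num
  have e2 : (2 : B) ^ 3 = 8 := by norm_num
  rw [e1] at hy
  rw [hy, e2]

/-- the defect -/
noncomputable def dd (W : Matrix ι ι B) : ℚ_[2] := L (ttr τ ι) W - L τ (det W)

theorem dd_mul {V W : Matrix ι ι B} (hV : Cong V) (hW : Cong W) :
    dd τ (V * W) = dd τ V + dd τ W := by
  rw [dd, dd, dd, det_mul, L_mul (ttr τ ι) (ttr_comm τ) hV hW,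
    L_mul τ (fun a b => by rw [mul_comm]) (det_cong hV) (det_cong hW)]
  ring

theorem dd_pow {W : Matrix ι ι B} (hW : Cong W) (k : ℕ) :
    Cong (W ^ 2 ^ k) ∧ dd τ (W ^ 2 ^ k) = 2 ^ k * dd τ W := by
  induction k with
  | zero => exact ⟨by rw [pow_zero, pow_one]; exact hW, by simp⟩
  | succ k ih =>
    have e : W ^ 2 ^ (k + 1) = W ^ 2 ^ k * W ^ 2 ^ k := by
      rw [← pow_add, pow_succ]
      congr 1
      ring
    rw [e]
    refine ⟨ih.1.mul ih.1, ?_⟩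
    rw [dd_mul τ ih.1 ih.1, ih.2]
    ring

theorem pow_form {R : Type u} [Ring R] (x : R) (k : ℕ) :
    ∃ y : R, (1 + 2 * x) ^ 2 ^ k = 1 + 2 ^ (k + 1) * y := by
  induction k with
  | zero => exact ⟨x, by simp⟩
  | succ k ih =>
    obtain ⟨y, hy⟩ := ih
    refine ⟨y + 2 ^ k * (y * y), ?_⟩
    have e : (1 + 2 * x) ^ 2 ^ (k + 1) = (1 + 2 * x) ^ 2 ^ k * (1 + 2 * x) ^ 2 ^ k := by
      rw [← pow_add, pow_succ]
      congr 1
      ring
    rw [e, hy]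
    have h1 : (1 + 2 ^ (k + 1) * y) * (1 + 2 ^ (k + 1) * y) =
        1 + 2 * (2 ^ (k + 1) * y) + 2 ^ (k + 1) * (y * 2 ^ (k + 1)) * y := by noncomm_ring
    rw [h1, ← two_pow_comm, mul_add, ← mul_assoc 2, ← pow_succ', add_assoc]
    congr 2
    rw [pow_succ' (2 : R) (k + 1), pow_succ' (2 : R) k]
    simp only [mul_assoc]
    rw [← mul_assoc ((2 : R) ^ k) 2, ← pow_succ, pow_succ', mul_assoc]

theorem norm_sub_max (a b : ℚ_[2]) : ‖a - b‖ ≤ max ‖a‖ ‖b‖ := by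
  rw [sub_eq_add_neg, ← norm_neg b]
  exact IsUltrametricDist.norm_add_le_max _ _

theorem norm_dd_le (k : ℕ) (Y : Matrix ι ι B) :
    ‖dd τ (1 + 2 ^ (k + 1) * Y)‖ ≤ ((2 : ℝ) ^ (2 * k))⁻¹ := by
  obtain ⟨y, hy⟩ := det_two_pow (k + 1) Y
  rw [dd, hy, L_one_add, L_one_add]
  have h1 := norm_tl_sub_le (ttr τ ι) Y k
  have h2 := norm_tl_sub_le τ (trace Y + 2 ^ (k + 1) * y) k
  have h3 : ‖((2 ^ (2 * k) * (4 * τ y) : ℤ) : ℚ_[2])‖ ≤ ((2 : ℝ) ^ (2 * k))⁻¹ :=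
    norm_int_le (dvd_mul_right _ _)
  have e : tl (ttr τ ι) (2 ^ (k + 1) * Y) - tl τ (2 ^ (k + 1) * (trace Y + 2 ^ (k + 1) * y)) =
      ((tl (ttr τ ι) (2 ^ (k + 1) * Y) - ((2 ^ (k + 1) * ttr τ ι Y : ℤ) : ℚ_[2])) -
      (tl τ (2 ^ (k + 1) * (trace Y + 2 ^ (k + 1) * y)) -
        ((2 ^ (k + 1) * τ (trace Y + 2 ^ (k + 1) * y) : ℤ) : ℚ_[2]))) -
      ((2 ^ (2 * k) * (4 * τ y) : ℤ) : ℚ_[2]) := by
    rw [map_add, map_two_pow_mul, ttr_apply]
    push_cast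
    ring
  rw [e]
  refine (norm_sub_max _ _).trans (max_le ?_ h3)
  exact (norm_sub_max _ _).trans (max_le h1 h2)

/-- `tr log = log det` -/
theorem dd_eq_zero {W : Matrix ι ι B} (hW : Cong W) : dd τ W = 0 := by
  rw [← norm_eq_zero]
  by_contra hne
  have hpos : 0 < ‖dd τ W‖ := lt_of_le_of_ne (norm_nonneg _) (Ne.symm hne)
  have h1 : ∀ k : ℕ, ‖dd τ W‖ ≤ ((1 : ℝ) / 2) ^ k := by
    intro k
    have h2 := (dd_pow τ hW k).2
    obtain ⟨X, rfl⟩ := hW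
    obtain ⟨Y, hY⟩ := pow_form X k
    have h3 := norm_dd_le τ k Y
    rw [← hY, h2, norm_mul, TwTr.norm_two_pow] at h3
    have hp : (0 : ℝ) < 2 ^ k := by positivity
    have h4 : ((2 : ℝ) ^ k) * (((2 : ℝ) ^ k)⁻¹ * ‖dd τ (1 + 2 * X)‖) ≤
        (2 : ℝ) ^ k * (((2 : ℝ) ^ (2 * k))⁻¹) := mul_le_mul_of_nonneg_left h3 hp.le
    rw [← mul_assoc, mul_inv_cancel₀ hp.ne', one_mul] at h4
    refine h4.trans (le_of_eq ?_)
    have e : (2 : ℝ) ^ (2 * k) = 2 ^ k * 2 ^ k := by rw [two_mul, pow_add]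
    rw [e, mul_inv, one_div, inv_pow]
    field_simp
  obtain ⟨k, hk⟩ := exists_pow_lt_of_lt_one hpos (show (1 : ℝ) / 2 < 1 by norm_num)
  have := h1 k
  linarith

theorem L_det {W : Matrix ι ι B} (hW : Cong W) : L τ (det W) = L (ttr τ ι) W := by
  have := dd_eq_zero τ hW
  rw [dd] at this
  exact (sub_eq_zero.1 this).symm

end LogDet

end Pool.Agent.H71.WH
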