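import Pool.Agent.H71.WH.U1

/-!
# Detection of units of integral group rings of finite groups
-/

set_option autoImplicit false
set_option linter.unusedSectionVars false
set_option linter.unusedSimpArgs false

open Matrix
open scoped Classical

universe u v w

namespace Pool.Agent.H71.WH

section Div

variable {C : Type u} [Group C]

/-- the coefficient at `c` -/
noncomputable def dlt (c g : C) : ℤ := if g = c then 1 else 0

theorem fn_dlt (c : C) (x : MonoidAlgebra ℤ C) : fn (dlt c) x = x.coeff c := by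
  induction x using MonoidAlgebra.induction_linear with
  | zero => simp
  | add x y hx hy => rw [map_add, hx, hy, MonoidAlgebra.coeff_add, Finsupp.add_apply]
  | single g n =>
    rw [fn_single, MonoidAlgebra.coeff_single, Finsupp.single_apply, dlt]
    split_ifs <;> simp

theorem exists_eq_mul (n : ℤ) (x : MonoidAlgebra ℤ C) (h : ∀ c, n ∣ x.coeff c) :
    ∃ y : MonoidAlgebra ℤ C, x = (n : MonoidAlgebra ℤ C) * y := by
  refine ⟨MonoidAlgebra.ofCoeff (x.coeff.mapRange (· / n) (by simp)), ?_⟩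
  rw [← zsmul_eq_mul]
  ext c
  rw [MonoidAlgebra.coeff_smul, Finsupp.smul_apply, MonoidAlgebra.coeff_ofCoeff,
    Finsupp.mapRange_apply, smul_eq_mul]
  exact (Int.mul_ediv_cancel' (h c)).symm

/-- extraction of the power of two -/
theorem exists_two_pow {x : MonoidAlgebra ℤ C} (hx : x ≠ 0) :
    ∃ (m : ℕ) (r : MonoidAlgebra ℤ C) (c : C), x = 2 ^ m * r ∧ ¬ (2 : ℤ) ∣ fn (dlt c) r := by
  obtain ⟨c0, hc0⟩ : ∃ c, x.coeff c ≠ 0 := by
    by_contra hcon
    push Not at hcon
    apply hx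
    ext c
    rw [hcon c]
    simp
  have hbd : ∃ m : ℕ, ¬ ∃ y : MonoidAlgebra ℤ C, x = 2 ^ m * y := by
    refine ⟨(x.coeff c0).natAbs, ?_⟩
    rintro ⟨y, hy⟩
    have h1 : x.coeff c0 = 2 ^ (x.coeff c0).natAbs * y.coeff c0 := by
      have h0 := congrArg (fn (dlt c0)) hy
      rw [map_two_pow_mul, fn_dlt, fn_dlt] at h0
      exact h0
    have h2 : (2 : ℕ) ^ (x.coeff c0).natAbs ∣ (x.coeff c0).natAbs := by
      have := congrArg Int.natAbs h1
      rw [Int.natAbs_mul, Int.natAbs_pow] at this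
      exact ⟨_, this⟩
    have h3 := Nat.le_of_dvd (Int.natAbs_pos.2 hc0) h2
    have h4 := Nat.lt_two_pow_self (n := (x.coeff c0).natAbs)
    omega
  have h0 : Nat.find hbd ≠ 0 := by
    intro h
    have := Nat.find_spec hbd
    rw [h] at this
    exact this ⟨x, by rw [pow_zero, one_mul]⟩
  obtain ⟨m, hm⟩ := Nat.exists_eq_succ_of_ne_zero h0
  have h1 : ∃ y : MonoidAlgebra ℤ C, x = 2 ^ m * y := by
    by_contra hcon
    have := Nat.find_min' hbd hcon
    omega
  obtain ⟨r, hr⟩ := h1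
  have h2 : ¬ ∃ y : MonoidAlgebra ℤ C, x = 2 ^ (m + 1) * y := by
    have := Nat.find_spec hbd
    rwa [hm] at this
  by_contra hcon
  push Not at hcon
  obtain ⟨y, hy⟩ := exists_eq_mul 2 r (fun c => by
    rw [← fn_dlt]
    exact hcon m r c hr)
  apply h2
  refine ⟨y, ?_⟩
  rw [hr, hy, pow_succ, mul_assoc]
  norm_cast

/-- A unit congruent to `1` modulo `8` with vanishing logarithm is `1`. -/
theorem eq_one_of_L {w : MonoidAlgebra ℤ C} (hw : C8 w) (h : ∀ c, L (fn (dlt c)) w = 0) :
    w = 1 := by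
  obtain ⟨x, rfl⟩ := hw
  by_cases hx : x = 0
  · rw [hx, mul_zero, add_zero]
  exfalso
  obtain ⟨m, r, c, hr, hc⟩ := exists_two_pow hx
  have h1 := h c
  rw [L_one_add, hr] at h1
  have h2 : (8 : MonoidAlgebra ℤ C) * (2 ^ m * r) = 2 ^ (m + 3) * r := by
    rw [← mul_assoc, pow_add, ← two_pow_comm]
    norm_num
  rw [h2] at h1
  exact tl_ne_zero _ r (m + 3) (by omega) hc h1

end Div

section Pow

variable {C : Type u} [Group C] [Finite C]

/-- reduction modulo `8` -/
noncomputable abbrev red8 (C : Type u) [Group C] :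
    MonoidAlgebra ℤ C →+* MonoidAlgebra (ZMod 8) C :=
  MonoidAlgebra.mapRingHom C (Int.castRingHom (ZMod 8))

theorem finite_red : Finite (MonoidAlgebra (ZMod 8) C) := by
  apply Finite.of_injective (fun (x : MonoidAlgebra (ZMod 8) C) (c : C) => x.coeff c)
  intro x y h
  ext c
  exact congrFun h c

theorem C8_of_red {w : MonoidAlgebra ℤ C} (h : red8 C w = 1) : C8 w := by
  obtain ⟨y, hy⟩ := exists_eq_mul 8 (w - 1) (fun c => by
    have h1 : red8 C (w - 1) = 0 := by rw [map_sub, map_one, h, sub_self]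
    have h2 : (red8 C (w - 1)).coeff c = (((w - 1).coeff c : ℤ) : ZMod 8) := by
      rfl
    rw [h1] at h2
    exact (ZMod.intCast_zmod_eq_zero_iff_dvd _ 8).1 h2.symm)
  refine ⟨y, ?_⟩
  have h3 : w = 1 + (w - 1) := by abel
  rw [h3, hy]
  norm_cast

/-- an exponent for the units modulo `8` -/
noncomputable def N8 (C : Type u) [Group C] : ℕ := Nat.card (MonoidAlgebra (ZMod 8) C)ˣ

theorem N8_ne_zero : N8 C ≠ 0 := by
  have := finite_red (C := C)
  have : Finite (MonoidAlgebra (ZMod 8) C)ˣ := inferInstance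
  exact Nat.card_pos.ne'

theorem C8_pow_N8 (δ : (MonoidAlgebra ℤ C)ˣ) :
    C8 ((δ ^ N8 C : (MonoidAlgebra ℤ C)ˣ) : MonoidAlgebra ℤ C) := by
  have := finite_red (C := C)
  apply C8_of_red
  have h1 : Units.map (red8 C).toMonoidHom δ ^ N8 C = 1 := pow_card_eq_one'
  rw [← map_pow] at h1
  exact congrArg Units.val h1

end Pow

end Pool.Agent.H71.WH
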