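import Pool.Agent.H71.WH.U2

/-!
# The logarithmic functionals on units
-/

set_option autoImplicit false
set_option linter.unusedSectionVars false
set_option linter.unusedSimpArgs false

open Matrix
open scoped Classical

universe u v w

namespace Pool.Agent.H71.WH

theorem L_pow {R : Type u} [Ring R] (τ : R →+ ℤ) (hτ : ∀ a b, τ (a * b) = τ (b * a)) {w : R}
    (h : Cong w) (n : ℕ) : Cong (w ^ n) ∧ L τ (w ^ n) = n * L τ w := by
  induction n with
  | zero =>
    rw [pow_zero, L_one]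
    exact ⟨Cong.one, by simp⟩
  | succ n ih =>
    rw [pow_succ]
    refine ⟨ih.1.mul h, ?_⟩
    rw [L_mul τ hτ ih.1 h, ih.2]
    push_cast
    ring

theorem fn_comm {H : Type u} [Group H] (f : H → ℤ) (hf : ∀ x y, f (x * y) = f (y * x))
    (x y : MonoidAlgebra ℤ H) : fn f (x * y) = fn f (y * x) := by
  induction x using MonoidAlgebra.induction_linear with
  | zero => rw [zero_mul, mul_zero]
  | add x x' hx hx' => rw [add_mul, mul_add, map_add, map_add, hx, hx']
  | single g b =>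
    induction y using MonoidAlgebra.induction_linear with
    | zero => rw [zero_mul, mul_zero]
    | add y y' hy hy' => rw [add_mul, mul_add, map_add, map_add, hy, hy']
    | single h c =>
      rw [MonoidAlgebra.single_mul_single, MonoidAlgebra.single_mul_single, fn_single,
        fn_single, hf, mul_comm b c]

theorem ga_comm {H : Type u} [Group H] (hc : ∀ a b : H, a * b = b * a)
    (x y : MonoidAlgebra ℤ H) : x * y = y * x := by
  induction x using MonoidAlgebra.induction_linear with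
  | zero => rw [zero_mul, mul_zero]
  | add x x' hx hx' => rw [add_mul, mul_add, hx, hx']
  | single g b =>
    induction y using MonoidAlgebra.induction_linear with
    | zero => rw [zero_mul, mul_zero]
    | add y y' hy hy' => rw [add_mul, mul_add, hy, hy']
    | single h c =>
      rw [MonoidAlgebra.single_mul_single, MonoidAlgebra.single_mul_single, hc, mul_comm b c]

theorem fn_sum {H : Type u} [Group H] [Fintype H] (f : H → ℤ) (y : MonoidAlgebra ℤ H) :
    fn f y = ∑ c, f c * fn (dlt c) y := by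
  induction y using MonoidAlgebra.induction_linear with
  | zero => simp
  | add x y hx hy =>
    rw [map_add, hx, hy, ← Finset.sum_add_distrib]
    apply Finset.sum_congr rfl
    intro c _
    rw [map_add, mul_add]
  | single g n =>
    rw [fn_single, Finset.sum_eq_single g]
    · rw [fn_single, dlt, if_pos rfl]
      ring
    · intro c _ hc
      rw [fn_single, dlt, if_neg (Ne.symm hc)]
      ring
    · intro h
      exact absurd (Finset.mem_univ _) h

theorem tlTerm_sum {H : Type u} [Group H] [Fintype H] (f : H → ℤ) (y : MonoidAlgebra ℤ H) (k : ℕ) :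
    tlTerm (fn f) y k = ∑ c, (f c : ℚ_[2]) * tlTerm (fn (dlt c)) y k := by
  simp only [tlTerm]
  rw [fn_sum f]
  push_cast
  rw [Finset.mul_sum, Finset.sum_div]
  apply Finset.sum_congr rfl
  intro c _
  ring

theorem tl_sum {H : Type u} [Group H] [Fintype H] (f : H → ℤ) (y : MonoidAlgebra ℤ H)
    (hs : ∀ c, Summable (tlTerm (fn (dlt c)) y)) :
    tl (fn f) y = ∑ c, (f c : ℚ_[2]) * tl (fn (dlt c)) y := by
  have h2 : tlTerm (fn f) y = fun k => ∑ c, (f c : ℚ_[2]) * tlTerm (fn (dlt c)) y k := by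
    funext k
    exact tlTerm_sum f _ k
  have h3 : ∀ c ∈ (Finset.univ : Finset H),
      Summable (fun k => (f c : ℚ_[2]) * tlTerm (fn (dlt c)) y k) := by
    intro c _
    exact (hs c).mul_left _
  rw [tl, h2, Summable.tsum_finsetSum h3]
  apply Finset.sum_congr rfl
  intro c _
  rw [tsum_mul_left, tl]

theorem L_sum {H : Type u} [Group H] [Fintype H] (f : H → ℤ) {w : MonoidAlgebra ℤ H}
    (h : Cong w) : L (fn f) w = ∑ c, (f c : ℚ_[2]) * L (fn (dlt c)) w := by
  obtain ⟨x, hx⟩ := h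
  have h1 : ∀ τ : MonoidAlgebra ℤ H →+ ℤ, L τ w = tl τ (2 * x) := by
    intro τ
    rw [hx, L_one_add]
  rw [h1, tl_sum f (2 * x) (fun c => tl_summable (fn (dlt c)) x)]
  apply Finset.sum_congr rfl
  intro c _
  rw [h1]

section LU

variable {H : Type u} [Group H] [Finite H]

/-- The logarithmic functional of `f` on units of `ℤ[H]`. -/
noncomputable def LU (f : H → ℤ) (δ : (MonoidAlgebra ℤ H)ˣ) : ℚ_[2] :=
  (N8 H : ℚ_[2])⁻¹ * L (fn f) ((δ ^ N8 H : (MonoidAlgebra ℤ H)ˣ) : MonoidAlgebra ℤ H)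

theorem LU_eq (f : H → ℤ) (hf : ∀ x y, f (x * y) = f (y * x)) (δ : (MonoidAlgebra ℤ H)ˣ) (m : ℕ)
    (hm : m ≠ 0) (h : C8 ((δ ^ m : (MonoidAlgebra ℤ H)ˣ) : MonoidAlgebra ℤ H)) :
    LU f δ = (m : ℚ_[2])⁻¹ * L (fn f) ((δ ^ m : (MonoidAlgebra ℤ H)ˣ) : MonoidAlgebra ℤ H) := by
  have h1 := (L_pow (fn f) (fn_comm f hf) h.cong (N8 H)).2
  have h2 := (L_pow (fn f) (fn_comm f hf) (C8_pow_N8 δ).cong m).2
  have h3 : ((δ ^ m : (MonoidAlgebra ℤ H)ˣ) : MonoidAlgebra ℤ H) ^ N8 H =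
      ((δ ^ N8 H : (MonoidAlgebra ℤ H)ˣ) : MonoidAlgebra ℤ H) ^ m := by
    rw [← Units.val_pow_eq_pow_val, ← Units.val_pow_eq_pow_val, ← pow_mul, ← pow_mul, mul_comm]
  rw [h3, h2] at h1
  have hN : (N8 H : ℚ_[2]) ≠ 0 := by exact_mod_cast N8_ne_zero (C := H)
  have hm' : (m : ℚ_[2]) ≠ 0 := by exact_mod_cast hm
  rw [LU]
  field_simp
  linear_combination h1

theorem LU_eq' (f : H → ℤ) (hf : ∀ x y, f (x * y) = f (y * x)) (δ : (MonoidAlgebra ℤ H)ˣ)
    (h : C8 (δ : MonoidAlgebra ℤ H)) : LU f δ = L (fn f) (δ : MonoidAlgebra ℤ H) := by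
  have := LU_eq f hf δ 1 one_ne_zero (by rw [pow_one]; exact h)
  rw [this, pow_one, Nat.cast_one, inv_one, one_mul]

theorem LU_mul (hc : ∀ a b : H, a * b = b * a) (f : H → ℤ) (δ δ' : (MonoidAlgebra ℤ H)ˣ) :
    LU f (δ * δ') = LU f δ + LU f δ' := by
  have hcm : Commute δ δ' := Units.ext (ga_comm hc _ _)
  rw [LU, LU, LU, hcm.mul_pow, Units.val_mul,
    L_mul (fn f) (fn_comm f (fun x y => by rw [hc])) (C8_pow_N8 δ).cong (C8_pow_N8 δ').cong]
  ring

theorem LU_map {H' : Type v} [Group H'] [Finite H'] (φ : H →* H') (f : H' → ℤ)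
    (hf : ∀ x y, f (x * y) = f (y * x)) (δ : (MonoidAlgebra ℤ H)ˣ) :
    LU f (Units.map (gr φ).toMonoidHom δ) = LU (fun x => f (φ x)) δ := by
  have h1 : ((Units.map (gr φ).toMonoidHom δ ^ N8 H : (MonoidAlgebra ℤ H')ˣ) :
      MonoidAlgebra ℤ H') = gr φ ((δ ^ N8 H : (MonoidAlgebra ℤ H)ˣ) : MonoidAlgebra ℤ H) := by
    rw [← map_pow]
    rfl
  rw [LU_eq f hf _ (N8 H) N8_ne_zero (by rw [h1]; exact (C8_pow_N8 δ).map _), h1, LU, L_map]
  congr 2
  exact AddMonoidHom.ext fun x => fn_gr φ f x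

theorem LU_sum [Fintype H] (f : H → ℤ) (δ : (MonoidAlgebra ℤ H)ˣ) :
    LU f δ = ∑ c, (f c : ℚ_[2]) * LU (dlt c) δ := by
  rw [LU, L_sum f (C8_pow_N8 δ).cong, Finset.mul_sum]
  apply Finset.sum_congr rfl
  intro c _
  rw [LU]
  ring

end LU

section GamLU

variable {H : Type u} [Group H] [Finite H]

/-- a unit as a `1 × 1` matrix -/
noncomputable def sc (δ : (MonoidAlgebra ℤ H)ˣ) : (Matrix (Fin 1) (Fin 1) (MonoidAlgebra ℤ H))ˣ :=
  Units.map (Matrix.scalar (Fin 1)).toMonoidHom δ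

theorem Gam_pow {G : Type u} [Group G] (f : G → ℤ) (hf : ∀ x y, f (x * y) = f (y * x))
    {ι : Type v} [Fintype ι] [DecidableEq ι] (u : (Matrix ι ι (MonoidAlgebra ℤ G))ˣ) (k : ℕ) :
    Gam f hf (u ^ k) = k * Gam f hf u := by
  induction k with
  | zero => rw [pow_zero, Gam_one]; simp
  | succ k ih => rw [pow_succ, Gam_mul, ih]; push_cast; ring

theorem L_scalar (f : H → ℤ) (w : MonoidAlgebra ℤ H) :
    L (trf f (Fin 1)) (Matrix.scalar (Fin 1) w) = L (fn f) w := by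
  rw [L_map]
  congr 1
  apply AddMonoidHom.ext
  intro x
  rw [pull_apply, trf_apply, Matrix.trace_fin_one]
  simp

theorem Gam_sc (f : H → ℤ) (hf : ∀ x y, f (x * y) = f (y * x)) (δ : (MonoidAlgebra ℤ H)ˣ) :
    Gam f hf (sc δ) = LU f δ - 1 / 2 * LU (fun g => f (g * g)) δ := by
  obtain ⟨x, hx⟩ := C8_pow_N8 δ
  have h1 : ((sc δ ^ N8 H : (Matrix (Fin 1) (Fin 1) (MonoidAlgebra ℤ H))ˣ) :
      Matrix (Fin 1) (Fin 1) (MonoidAlgebra ℤ H)) =
      Matrix.scalar (Fin 1) ((δ ^ N8 H : (MonoidAlgebra ℤ H)ˣ) : MonoidAlgebra ℤ H) := by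
    rw [sc, ← map_pow]
    rfl
  have h2 : ((sc δ ^ N8 H : (Matrix (Fin 1) (Fin 1) (MonoidAlgebra ℤ H))ˣ) :
      Matrix (Fin 1) (Fin 1) (MonoidAlgebra ℤ H)) = 1 + 4 * (2 * Matrix.scalar (Fin 1) x) := by
    rw [h1, hx, map_add, map_one, map_mul, map_ofNat, ← mul_assoc]
    norm_num
  have h3 := Gam_four f hf _ _ h2
  rw [Gam_pow, h1, L_scalar, L_scalar] at h3
  have hN : (N8 H : ℚ_[2]) ≠ 0 := by exact_mod_cast N8_ne_zero (C := H)
  rw [LU, LU]
  field_simp
  linear_combination 2 * h3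

end GamLU

end Pool.Agent.H71.WH
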